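import Pool.Agent.Lib.MP_4e7804_co.Gp.Spec

/-! MP_4e7804_co, Theorem G+: generic weights. -/

set_option autoImplicit false

open Finset

namespace Pool.Agent.Lib.MP_4e7804_co.Gp

/-- all pairs of a colour and a lattice point of this colour -/
def EtaP {d : ℕ} (A : Fin (d + 1) → Finset (Fin d → ℤ)) : Finset (Fin (d + 1) × (Fin d → ℤ)) :=
  univ.biUnion fun i => (A i).image fun p => (i, p)

theorem mem_EtaP {d : ℕ} {A : Fin (d + 1) → Finset (Fin d → ℤ)} {x : Fin (d + 1) × (Fin d → ℤ)} :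
    x ∈ EtaP A ↔ x.2 ∈ A x.1 := by
  obtain ⟨i, p⟩ := x
  simp only [EtaP, mem_biUnion, mem_univ, true_and, mem_image, Prod.mk.injEq]
  constructor
  · rintro ⟨i', q, hq, rfl, rfl⟩
    exact hq
  · intro h
    exact ⟨i, p, h, rfl, rfl⟩

/-- generic weights for finitely many linear conditions -/
theorem Eta_gen (hM : StmtMom) {d : ℕ} (A : Fin (d + 1) → Finset (Fin d → ℤ))
    (F : Finset (Fin (d + 1) × (Fin d → ℤ) → ℝ)) (hF : ∀ f ∈ F, ∃ x ∈ EtaP A, f x ≠ 0) :
    ∃ η : Fin (d + 1) → (Fin d → ℤ) → ℚ, (∀ i a, |η i a| ≤ 1) ∧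
      ∀ f ∈ F, ∑ x ∈ EtaP A, f x * ((η x.1 x.2 : ℚ) : ℝ) ≠ 0 := by
  classical
  let e := (EtaP A).equivFin
  obtain ⟨t, ht1, ht⟩ := hM (EtaP A).card
    (F.image fun f => fun k : Fin (EtaP A).card => f (e.symm k).1) (by
      intro g hg
      obtain ⟨f, hf, rfl⟩ := mem_image.1 hg
      obtain ⟨x, hx, hfx⟩ := hF f hf
      intro h0
      apply hfx
      have := congrFun h0 (e ⟨x, hx⟩)
      simpa using this)
  have ht1' : (1 : ℚ) ≤ t := by exact_mod_cast ht1
  refine ⟨fun i a => if h : (i, a) ∈ EtaP A then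
    (t : ℚ) ^ ((e ⟨(i, a), h⟩ : Fin _) : ℕ) / (t : ℚ) ^ (EtaP A).card else 0, ?_, ?_⟩
  · intro i a
    dsimp only
    split_ifs with h
    · rw [abs_of_nonneg (by positivity)]
      apply div_le_one_of_le₀ _ (by positivity)
      exact pow_le_pow_right₀ ht1' (e ⟨(i, a), h⟩).2.le
    · simp
  · intro f hf
    have h1 := ht _ (mem_image_of_mem _ hf)
    have h2 : ∑ x ∈ EtaP A, f x * (((if h : (x.1, x.2) ∈ EtaP A then
        (t : ℚ) ^ ((e ⟨(x.1, x.2), h⟩ : Fin _) : ℕ) / (t : ℚ) ^ (EtaP A).card else 0 : ℚ)) : ℝ) =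
        (∑ k : Fin (EtaP A).card, f (e.symm k).1 * (t : ℝ) ^ (k : ℕ)) /
          (t : ℝ) ^ (EtaP A).card := by
      rw [← Finset.sum_coe_sort (EtaP A), ← Equiv.sum_comp e.symm, Finset.sum_div]
      refine Finset.sum_congr rfl fun k _ => ?_
      have h3 : ((e.symm k).1.1, (e.symm k).1.2) ∈ EtaP A := (e.symm k).2
      rw [dif_pos h3]
      have h4 : e ⟨((e.symm k).1.1, (e.symm k).1.2), h3⟩ = k := by
        exact e.apply_symm_apply k
      rw [h4]
      push_cast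
      ring
    have h5 : (t : ℝ) ≠ 0 := by
      have : t ≠ 0 := by omega
      exact_mod_cast this
    rw [h2]
    exact div_ne_zero h1 (pow_ne_zero _ h5)

/-- the constant of a circuit is a linear form in the weights -/
theorem Eta_et {d : ℕ} {A : Fin (d + 1) → Finset (Fin d → ℤ)}
    (η : Fin (d + 1) → (Fin d → ℤ) → ℝ) {E : Finset (Elt d)} (hE : Cir A E) :
    et η E = ∑ x ∈ EtaP A, kap E (x.1, some x.2) * η x.1 x.2 := by
  classical
  have hinj : Function.Injective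
      (fun x : Fin (d + 1) × (Fin d → ℤ) => ((x.1, some x.2) : Elt d)) := by
    rintro ⟨i, p⟩ ⟨i', p'⟩ h
    simp only [Prod.mk.injEq, Option.some.injEq] at h
    rw [h.1, h.2]
  have h1 : ∑ x ∈ EtaP A, kap E (x.1, some x.2) * η x.1 x.2 =
      ∑ y ∈ (EtaP A).image (fun x => ((x.1, some x.2) : Elt d)), kap E y * cs η y := by
    rw [Finset.sum_image (fun a _ b _ h => hinj h)]
    rfl
  rw [h1, et]
  have h2 : ∑ y ∈ E, kap E y * cs η y =
      ∑ y ∈ E ∪ (EtaP A).image (fun x => ((x.1, some x.2) : Elt d)), kap E y * cs η y := by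
    refine Finset.sum_subset subset_union_left fun y _ hy => ?_
    have : kap E y = 0 := by
      by_contra h
      exact hy ((hE.kap.supp y).1 h)
    rw [this, zero_mul]
  rw [h2]
  refine (Finset.sum_subset subset_union_right fun y hy hy' => ?_).symm
  rcases mem_union.1 hy with h | h
  · obtain ⟨i, o⟩ := y
    cases o with
    | none => simp [cs]
    | some p =>
      exfalso
      apply hy'
      exact mem_image.2 ⟨(i, p), mem_EtaP.2 (hE.sub i p h), rfl⟩
  · exact absurd h hy'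

/-- affine relations of `d + 2` lattice points -/
theorem Eta_rel {d : ℕ} (T : Finset (Fin d → ℤ)) (hT : d + 1 < T.card) :
    ∃ g : (Fin d → ℤ) → ℝ, ∑ p ∈ T, g p = 0 ∧ (∀ k, ∑ p ∈ T, g p * (p k : ℝ) = 0) ∧
      ∃ p ∈ T, g p ≠ 0 := by
  classical
  have hinj : Function.Injective (fun (p : Fin d → ℤ) (k : Fin d) => (p k : ℝ)) := by
    intro p q h
    funext k
    have h5 : (p k : ℝ) = (q k : ℝ) := congrFun h k
    exact_mod_cast h5
  obtain ⟨f, h1, h2, x, hx, hfx⟩ :=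
    Module.exists_nontrivial_relation_sum_zero_of_finrank_succ_lt_card (R := ℝ)
      (t := T.image fun (p : Fin d → ℤ) (k : Fin d) => (p k : ℝ)) (by
        rw [card_image_of_injective _ hinj, Module.finrank_fin_fun]
        exact hT)
  rw [Finset.sum_image (fun a _ b _ h => hinj h)] at h1 h2
  obtain ⟨p, hp, rfl⟩ := mem_image.1 hx
  refine ⟨fun p => f fun k => (p k : ℝ), h2, fun k => ?_, p, hp, hfx⟩
  have := congrFun h1 k
  simpa [Finset.sum_apply] using this

theorem tEta (hM : StmtMom) : StmtEta := by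
  classical
  intro d A
  -- the first family
  let F1 : Finset (Fin (d + 1) × (Fin d → ℤ) → ℝ) :=
    ((CF A).filter fun E => ∀ i, nu E i = 0).image fun E x => kap E (x.1, some x.2)
  -- the second family
  have h2 : ∀ S : Finset (Finset (Elt d)), ∃ t : Finset (Elt d) → ℝ,
      (∃ t : Finset (Elt d) → ℝ, (∀ i, ∑ E ∈ S, t E * nu E i = 0) ∧
        ∃ x, ∑ E ∈ S, t E * gv E x ≠ 0) → (∀ i, ∑ E ∈ S, t E * nu E i = 0) ∧
        ∃ x, ∑ E ∈ S, t E * gv E x ≠ 0 := by
    intro S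
    by_cases h : ∃ t : Finset (Elt d) → ℝ, (∀ i, ∑ E ∈ S, t E * nu E i = 0) ∧
        ∃ x, ∑ E ∈ S, t E * gv E x ≠ 0
    · obtain ⟨t, ht⟩ := h
      exact ⟨t, fun _ => ht⟩
    · exact ⟨0, fun h' => absurd h' h⟩
  choose tt htt using h2
  let F2 : Finset (Fin (d + 1) × (Fin d → ℤ) → ℝ) :=
    ((CF A).powerset.filter fun S => ∃ t : Finset (Elt d) → ℝ,
      (∀ i, ∑ E ∈ S, t E * nu E i = 0) ∧ ∃ x, ∑ E ∈ S, t E * gv E x ≠ 0).image
      fun S x => ∑ E ∈ S, tt S E * kap E (x.1, some x.2)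
  -- the third family
  have h3 : ∀ T : Finset (Fin d → ℤ), ∃ g : (Fin d → ℤ) → ℝ, d + 1 < T.card →
      ∑ p ∈ T, g p = 0 ∧ (∀ k, ∑ p ∈ T, g p * (p k : ℝ) = 0) ∧ ∃ p ∈ T, g p ≠ 0 := by
    intro T
    by_cases h : d + 1 < T.card
    · obtain ⟨g, hg⟩ := Eta_rel T h
      exact ⟨g, fun _ => hg⟩
    · exact ⟨0, fun h' => absurd h' h⟩
  choose g hg using h3
  let F3 : Finset (Fin (d + 1) × (Fin d → ℤ) → ℝ) :=
    univ.biUnion fun i => ((A i).powerset.filter fun T => d + 1 < T.card).image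
      fun T x => if x.1 = i ∧ x.2 ∈ T then g T x.2 else 0
  have hF : ∀ f ∈ F1 ∪ F2 ∪ F3, ∃ x ∈ EtaP A, f x ≠ 0 := by
    intro f hf
    rcases mem_union.1 hf with hf | hf
    · rcases mem_union.1 hf with hf | hf
      · obtain ⟨E, hE, rfl⟩ := mem_image.1 hf
        rw [mem_filter, mem_CF] at hE
        obtain ⟨hC, hnu⟩ := hE
        obtain ⟨⟨i, o⟩, hx⟩ := hC.ne
        have hk : kap E (i, o) ≠ 0 := (hC.kap.supp _).2 hx
        cases o with
        | none => exact absurd (hnu i) hk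
        | some p => exact ⟨(i, p), mem_EtaP.2 (hC.sub i p hx), hk⟩
      · obtain ⟨S, hS, rfl⟩ := mem_image.1 hf
        rw [mem_filter, mem_powerset] at hS
        obtain ⟨-, ⟨i, o⟩, hx⟩ := htt S hS.2
        cases o with
        | none => exact absurd (by simp [gv]) hx
        | some p =>
          refine ⟨(i, p), ?_, hx⟩
          obtain ⟨E, hE, hne⟩ := Finset.exists_ne_zero_of_sum_ne_zero hx
          have hk : kap E (i, some p) ≠ 0 := right_ne_zero_of_mul hne
          have hC : Cir A E := mem_CF.1 (hS.1 hE)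
          exact mem_EtaP.2 (hC.sub i p ((hC.kap.supp _).1 hk))
    · obtain ⟨i, -, hf⟩ := mem_biUnion.1 hf
      obtain ⟨T, hT, rfl⟩ := mem_image.1 hf
      rw [mem_filter, mem_powerset] at hT
      obtain ⟨-, -, p, hp, hgp⟩ := hg T hT.2
      refine ⟨(i, p), mem_EtaP.2 (hT.1 hp), ?_⟩
      simpa [hp] using hgp
  obtain ⟨η, hη1, hη⟩ := Eta_gen hM A (F1 ∪ F2 ∪ F3) hF
  refine ⟨η, fun i a _ => hη1 i a, ?_, ?_, ?_⟩
  · -- G1
    intro E hE hnu
    rw [Eta_et _ hE]
    refine hη (fun x => kap E (x.1, some x.2)) (mem_union_left _ (mem_union_left _ ?_))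
    exact mem_image.2 ⟨E, mem_filter.2 ⟨mem_CF.2 hE, hnu⟩, rfl⟩
  · -- G2
    intro S hS hyp
    refine ⟨tt S, (htt S hyp).1, ?_⟩
    have h1 : ∑ E ∈ S, tt S E * et (fun i a => ((η i a : ℚ) : ℝ)) E =
        ∑ x ∈ EtaP A, (∑ E ∈ S, tt S E * kap E (x.1, some x.2)) * ((η x.1 x.2 : ℚ) : ℝ) := by
      have h4 : ∀ E ∈ S, tt S E * et (fun i a => ((η i a : ℚ) : ℝ)) E =
          ∑ x ∈ EtaP A, tt S E * kap E (x.1, some x.2) * ((η x.1 x.2 : ℚ) : ℝ) := by
        intro E hE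
        rw [Eta_et _ (mem_CF.1 (hS hE)), Finset.mul_sum]
        refine Finset.sum_congr rfl fun x _ => ?_
        ring
      rw [Finset.sum_congr rfl h4, Finset.sum_comm]
      refine Finset.sum_congr rfl fun x _ => ?_
      rw [Finset.sum_mul]
    rw [h1]
    refine hη (fun x => ∑ E ∈ S, tt S E * kap E (x.1, some x.2))
      (mem_union_left _ (mem_union_right _ ?_))
    exact mem_image.2 ⟨S, mem_filter.2 ⟨mem_powerset.2 hS, hyp⟩, rfl⟩
  · -- G3
    intro w i
    by_contra hcon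
    have hcard : d + 1 < (Bs A (fun i a => ((η i a : ℚ) : ℝ)) w i).card := by omega
    set T := Bs A (fun i a => ((η i a : ℚ) : ℝ)) w i with hTdef
    have hTA : T ⊆ A i := by
      rw [hTdef, Bs]
      exact filter_subset _ _
    obtain ⟨hs0, hsk, -⟩ := hg T hcard
    have hne := hη (fun x => if x.1 = i ∧ x.2 ∈ T then g T x.2 else 0)
      (mem_union_right _ (mem_biUnion.2 ⟨i, mem_univ _, mem_image.2
        ⟨T, mem_filter.2 ⟨mem_powerset.2 hTA, hcard⟩, rfl⟩⟩))
    apply hne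
    have hinj : Function.Injective (fun p : Fin d → ℤ => ((i, p) : Fin (d + 1) × (Fin d → ℤ))) := by
      intro p q h
      simpa using h
    have h1 : ∑ x ∈ EtaP A, (if x.1 = i ∧ x.2 ∈ T then g T x.2 else 0) * ((η x.1 x.2 : ℚ) : ℝ) =
        ∑ p ∈ T, g T p * ((η i p : ℚ) : ℝ) := by
      have h4 : ∑ p ∈ T, g T p * ((η i p : ℚ) : ℝ) =
          ∑ x ∈ T.image (fun p => (i, p)),
            (if x.1 = i ∧ x.2 ∈ T then g T x.2 else 0) * ((η x.1 x.2 : ℚ) : ℝ) := by
        rw [Finset.sum_image (fun a _ b _ h => hinj h)]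
        refine Finset.sum_congr rfl fun p hp => ?_
        simp [hp]
      rw [h4]
      refine (Finset.sum_subset ?_ ?_).symm
      · intro x hx
        obtain ⟨p, hp, rfl⟩ := mem_image.1 hx
        exact mem_EtaP.2 (hTA hp)
      · intro x _ hx
        have : ¬ (x.1 = i ∧ x.2 ∈ T) := by
          rintro ⟨h5, h6⟩
          apply hx
          exact mem_image.2 ⟨x.2, h6, by rw [← h5]⟩
        rw [if_neg this, zero_mul]
    rw [h1]
    -- all values are equal on `T`
    obtain ⟨p₀, hp₀⟩ : T.Nonempty := card_pos.1 (by omega)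
    have hmem : ∀ p ∈ T, p ∈ A i ∧ ∀ b ∈ A i, val (fun i a => ((η i a : ℚ) : ℝ)) i p w ≤
        val (fun i a => ((η i a : ℚ) : ℝ)) i b w := by
      intro p hp
      rw [hTdef, Bs, mem_filter] at hp
      exact hp
    have hval : ∀ p ∈ T, val (fun i a => ((η i a : ℚ) : ℝ)) i p w =
        val (fun i a => ((η i a : ℚ) : ℝ)) i p₀ w := fun p hp =>
      le_antisymm ((hmem p hp).2 p₀ (hmem p₀ hp₀).1) ((hmem p₀ hp₀).2 p (hmem p hp).1)
    have h5 : ∑ p ∈ T, g T p * val (fun i a => ((η i a : ℚ) : ℝ)) i p w = 0 := by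
      rw [Finset.sum_congr rfl fun p hp => by rw [hval p hp], ← Finset.sum_mul, hs0, zero_mul]
    have h6 : ∑ p ∈ T, g T p * val (fun i a => ((η i a : ℚ) : ℝ)) i p w =
        ∑ k, w k * ∑ p ∈ T, g T p * (p k : ℝ) + ∑ p ∈ T, g T p * ((η i p : ℚ) : ℝ) := by
      simp only [val, mul_add, Finset.sum_add_distrib, Finset.mul_sum]
      rw [Finset.sum_comm]
      congr 1
      refine Finset.sum_congr rfl fun k _ => Finset.sum_congr rfl fun p _ => ?_
      ring
    rw [h6] at h5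
    have h7 : ∑ k, w k * ∑ p ∈ T, g T p * (p k : ℝ) = 0 :=
      Finset.sum_eq_zero fun k _ => by rw [hsk k, mul_zero]
    rwa [h7, zero_add] at h5

end Pool.Agent.Lib.MP_4e7804_co.Gp
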