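import Pool.Agent.Lib.MP_4e7804_co.Gp.Defs

/-!
# MP_4e7804_co, Theorem G+: `V_n(v) ≤ C_n (∏_{i ≠ j} v_i)^(n-2)`, `v_j` minimal (note 1494)

`d = n - 1`. Every statement `StmtX` below is proved in its own file `Gp/X.lean` as `theorem tX`; if the
docstring says (uses `Y`) then `StmtY` may be a hypothesis: `theorem tX (hY : StmtY) : StmtX`. The files
import `Pool.Agent.Lib.MP_4e7804_co.Gp.Spec` only. The docstrings contain the complete proofs.
-/

set_option autoImplicit false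

open Finset

namespace Pool.Agent.Lib.MP_4e7804_co.Gp

/-! ## Linear programming -/

/-- **Mom** the moment curve avoids finitely many hyperplanes. Proof. For `f ≠ 0` the polynomial
`∑ k, C (f k) * X ^ k` is not zero (its coefficients are the `f k`), so it has finitely many roots; the
union over `f ∈ F` of the root sets is finite, so some natural number `t ≥ 1` is not in it. -/
def StmtMom : Prop := ∀ (m : ℕ) (F : Finset (Fin m → ℝ)), (∀ f ∈ F, f ≠ 0) →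
  ∃ t : ℕ, 1 ≤ t ∧ ∀ f ∈ F, ∑ k, f k * (t : ℝ) ^ (k : ℕ) ≠ 0

/-- **FC** Farkas and Caratheodory. Proof. Let `C = {∑ c t • a t | c ≥ 0}`. (1) Caratheodory: every
`l ∈ C` has a representation `l = ∑_{t ∈ B} c t • a t`, `c t > 0` on `B`, with `(a t)_{t ∈ B}` linearly
independent: take one with `B.card` minimal; if `∑_{t ∈ B} g t • a t = 0`, some `g t > 0` (change the sign),
subtract `λ g`, `λ = min (c t / g t)` over `g t > 0`: a smaller `B`. (2) So `C` is the union of the finitely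
many cones of the linearly independent `B`; each of them is closed: it is the image of the closed set
`{c | c ≥ 0}` under the injective linear map `(B → ℝ) → (Fin m → ℝ)`, a closed embedding in finite
dimension (`LinearMap.isClosedEmbedding_of_injective`). So `C` is closed and convex. (3) If `l ∉ C`, there
are `f` continuous linear and `s` with `f l < s < f x` for `x ∈ C` (`geometric_hahn_banach_point_closed`);
`f x = x ⬝ᵥ u` for a vector `u`; `0 ∈ C` gives `s < 0`; `n • a t ∈ C` for all `n` gives `0 ≤ a t ⬝ᵥ u`; and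
`l ⬝ᵥ u < 0`: contradiction. -/
def StmtFC : Prop := ∀ (m : ℕ) (ι : Type) (_ : Fintype ι) (a : ι → Fin m → ℝ) (l : Fin m → ℝ),
  (∀ u : Fin m → ℝ, (∀ t, 0 ≤ a t ⬝ᵥ u) → 0 ≤ l ⬝ᵥ u) →
  ∃ (B : Finset ι) (c : ι → ℝ), LinearIndependent ℝ (fun t : B => a t) ∧ (∀ t ∈ B, 0 < c t) ∧
    l = ∑ t ∈ B, c t • a t

/-- **Xfin** Proof. `Xs a β` is the union over the finitely many `B` (with `B.card = m` and independent
vectors) of `{x | ∀ t ∈ B, a t ⬝ᵥ x = β t}`, which has at most one element: the difference of two solutions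
is orthogonal to the `a t`, `t ∈ B`, which span `Fin m → ℝ` (`m` independent vectors in dimension `m`), so it
is orthogonal to itself. -/
def StmtXfin : Prop := ∀ (m : ℕ) (ι : Type) (_ : Fintype ι) (a : ι → Fin m → ℝ) (β : ι → ℝ),
  (Xs a β).Finite

/-- **GenL** (uses `Mom`, `Xfin`) generic linear forms. Proof. For every `B` whose span is not `⊤` choose
`f_B ≠ 0` with `f_B ⬝ᵥ a t = 0` for all `t ∈ B` (`Submodule.exists_le_ker_of_lt_top`, a linear form is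
`x ↦ f ⬝ᵥ x`); for every pair `x ≠ x'` in the finite set `Xs a β` let `f = x - x'`. `Mom` for the set of all
these vectors gives `t ≥ 1`; put `l k = - t ^ k`, so `f ⬝ᵥ l ≠ 0` for all of them. If
`l ∈ span (a '' B) ≠ ⊤`, then `f_B ⬝ᵥ l = 0`: contradiction. -/
def StmtGenL : Prop := ∀ (m : ℕ) (ι : Type) (_ : Fintype ι) (a : ι → Fin m → ℝ) (β : ι → ℝ),
  ∃ l : Fin m → ℝ, (∀ k, l k < 0) ∧ Gen1 a l ∧ Gen2 a β l

/-- **LP** (uses `FC`) vertices of polytopes. Proof. The polytope `P` is closed and bounded, so compact; let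
`x` be a minimum of `l ⬝ᵥ ·` on `P`, `T₀` the set of the `t ∈ T` with `a t ⬝ᵥ x = β t`. If
`0 ≤ a t ⬝ᵥ u` for all `t ∈ T₀` then `x + ε u ∈ P` for small `ε > 0`, so `0 ≤ l ⬝ᵥ u`. `FC` with the index
type `T₀` gives `B ⊆ T₀` (image under `Subtype.val`) and `c`. `l ∈ span (a '' B)`, so `Gen1` gives
`span = ⊤` and `B.card = m` (`B.card` independent vectors which span). -/
def StmtLP : Prop := ∀ (m : ℕ) (ι : Type) (_ : Fintype ι) (a : ι → Fin m → ℝ) (β : ι → ℝ)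
  (l : Fin m → ℝ), Gen1 a l → ∀ T : Finset ι,
  {x : Fin m → ℝ | ∀ t ∈ T, β t ≤ a t ⬝ᵥ x}.Nonempty →
  Bornology.IsBounded {x : Fin m → ℝ | ∀ t ∈ T, β t ≤ a t ⬝ᵥ x} →
  ∃ (x : Fin m → ℝ) (B : Finset ι) (c : ι → ℝ), (∀ t ∈ T, β t ≤ a t ⬝ᵥ x) ∧ B ⊆ T ∧
    B.card = m ∧ LinearIndependent ℝ (fun t : B => a t) ∧ (∀ t ∈ B, 0 < c t) ∧
    l = ∑ t ∈ B, c t • a t ∧ ∀ t ∈ B, a t ⬝ᵥ x = β t

/-! ## Regions of an arrangement -/

/-- **KKT** (uses `FC`) the lowest point of a region. Proof. `K = {x | lo ≤ x ≤ hi}`, `x` = a minimum of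
`l ⬝ᵥ ·` on the compact nonempty set `closure D ∩ K`. Call `E` near if `x ∈ closure (Rz E)`; there is `r > 0`
such that the ball of radius `r` around `x` does not meet `Rz E` if `E` is not near; for `E` near
`ν E ⬝ᵥ x + c E = 0` (closed condition). Choose `y₀ ∈ D`, `lo < y₀ < hi`, with `ν E ⬝ᵥ (y₀ - x) ≠ 0` for all
near `E` (a nonempty open set is not contained in finitely many hyperplanes), `s E` = the sign of this
number. CLAIM: if `0 ≤ u k` whenever `x k = lo k`, `u k ≤ 0` whenever `x k = hi k`, and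
`0 ≤ s E * (ν E ⬝ᵥ u)` for all near `E`, then `0 ≤ l ⬝ᵥ u`. Suppose `l ⬝ᵥ u < 0`. For small `δ > 0` and much
smaller `ε > 0` the points `p = x + ε (y₀ - x)` and `p' = p + δ u` satisfy: `p ∈ D` (`D` open and convex,
`x ∈ closure D`, `y₀ ∈ D`), `lo < p' < hi`, `l ⬝ᵥ p' < l ⬝ᵥ x`, both are in the ball, and
`0 < s E * (ν E ⬝ᵥ (p - x))`, `0 < s E * (ν E ⬝ᵥ (p' - x))` for near `E`. All these conditions are open, so
there are rational `y`, `y'` close to `p`, `p'` with the same properties. `y' ∉ D` (minimality of `x`). `SegP`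
gives `θ`, `E` with `z = (1-θ) y + θ y' ∈ Rz E`; `z` is in the ball, so `E` is near,
`ν E ⬝ᵥ (z - x) = 0`, but `s E * (ν E ⬝ᵥ (z - x)) > 0`. Contradiction. `FC` (index type: the active box
constraints and the near `E`, vectors `e_k`, `- e_k`, `s E • ν E`) gives `l` as a combination with positive
coefficients of independent vectors; put `cf (inr E) = c * s E`. `l ∈ span`, so by `Gen1` `B.card = m`. -/
def StmtKKT : Prop := ∀ (m : ℕ) (σ : Type) (_ : Fintype σ) (𝒜 : Arr m σ) (lo hi l : Fin m → ℝ),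
  IsArr 𝒜 → Gen1 (fam 𝒜) l → ∀ D : Set (Fin m → ℝ), IsOpen D → Convex ℝ D → SegP 𝒜 D →
  (∃ y ∈ D, ∀ k, lo k < y k ∧ y k < hi k) →
  ∃ (x : Fin m → ℝ) (B : Finset ((Fin m × Bool) ⊕ σ)) (cf : (Fin m × Bool) ⊕ σ → ℝ),
    x ∈ closure D ∧ (∀ k, lo k ≤ x k ∧ x k ≤ hi k) ∧ Cert 𝒜 lo hi l x B cf

/-- **Det** certificates determine the point. Proof. `l ⬝ᵥ x' - l ⬝ᵥ x = ∑_{t ∈ B} cf t * (fam t ⬝ᵥ x' -
fam t ⬝ᵥ x) = ∑ cf t * (fam t ⬝ᵥ x' - off t) ≥ 0` and the same with `x, x'` exchanged, so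
`l ⬝ᵥ x = l ⬝ᵥ x'`. `x, x' ∈ Xs`, so `x = x'` by `Gen2`. -/
def StmtDet : Prop := ∀ (m : ℕ) (σ : Type) (𝒜 : Arr m σ) (lo hi l : Fin m → ℝ),
  Gen2 (fam 𝒜) (off 𝒜 lo hi) l → ∀ (x x' : Fin m → ℝ) (B B' : Finset ((Fin m × Bool) ⊕ σ))
  (cf cf' : (Fin m × Bool) ⊕ σ → ℝ), Cert 𝒜 lo hi l x B cf → Cert 𝒜 lo hi l x' B' cf' →
  (∀ t ∈ B, 0 ≤ cf t * (fam 𝒜 t ⬝ᵥ x' - off 𝒜 lo hi t)) →
  (∀ t ∈ B', 0 ≤ cf' t * (fam 𝒜 t ⬝ᵥ x - off 𝒜 lo hi t)) → x = x'

/-- **Mult** two regions on the same sides. Proof. As in `KKT`: let `r > 0` be such that the ball of radius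
`r` around `x` meets no `Rz E` with `x ∉ closure (Rz E)`; for the others `ν E ⬝ᵥ x + c E = 0`. For small
`ε > 0` the points `p = x + ε (y - x) ∈ D`, `p' = x + ε (y' - x) ∈ D'` are in the ball, and
`ν E ⬝ᵥ (p - x)`, `ν E ⬝ᵥ (p' - x)` have the same strict sign for all `E` with `ν E ⬝ᵥ x + c E = 0`. Take
rational points close to `p` and `p'` with the same properties; the second one is in `D'`, so not in `D`.
`SegP` gives a point `z` of some `Rz E` on the segment, in the ball, so `ν E ⬝ᵥ x + c E = 0` and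
`ν E ⬝ᵥ (z - x) = 0`, but it is a convex combination of two numbers of the same strict sign. -/
def StmtMult : Prop := ∀ (m : ℕ) (σ : Type) (_ : Fintype σ) (𝒜 : Arr m σ), IsArr 𝒜 →
  ∀ D D' : Set (Fin m → ℝ), IsOpen D → IsOpen D' → Convex ℝ D → Convex ℝ D' → Disjoint D D' →
  SegP 𝒜 D → ∀ x ∈ closure D ∩ closure D', ∀ y ∈ D, ∀ y' ∈ D',
  (∀ E, 𝒜.ν E ⬝ᵥ x + 𝒜.c E = 0 → 0 < (𝒜.ν E ⬝ᵥ (y - x)) * (𝒜.ν E ⬝ᵥ (y' - x))) → False

/-- **MultC** (uses `Mult`) the number of regions at a point. Proof. For every `i` choose `y i ∈ D i` with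
`ν E ⬝ᵥ (y i - x) ≠ 0` for all `E` (`D i` is open and not empty, `ν E ≠ 0`: a nonempty open set is not
contained in finitely many hyperplanes). The map `i ↦ {E | ν E ⬝ᵥ x + c E = 0 ∧ 0 < ν E ⬝ᵥ (y i - x)}` into
the subsets of `{E | ν E ⬝ᵥ x + c E = 0}` is injective by `Mult`. -/
def StmtMultC : Prop := ∀ (m : ℕ) (σ : Type) (_ : Fintype σ) (𝒜 : Arr m σ), IsArr 𝒜 →
  ∀ (κ : Type) (_ : Fintype κ) (D : κ → Set (Fin m → ℝ)), (∀ i, IsOpen (D i)) →
  (∀ i, Convex ℝ (D i)) → (∀ i, (D i).Nonempty) → (∀ i, SegP 𝒜 (D i)) →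
  (∀ i i', i ≠ i' → Disjoint (D i) (D i')) → ∀ x : Fin m → ℝ, (∀ i, x ∈ closure (D i)) →
  ∀ N : ℕ, Nat.card {E // 𝒜.ν E ⬝ᵥ x + 𝒜.c E = 0} ≤ N → Fintype.card κ ≤ 2 ^ N

/-! ## Circuits -/

/-- **Val** the linear equation of a circuit. Proof. (1) `vl η w y x = ∑ k, vc x.2 k * w k + cs η x +
(if x.2 = none then y x.1 else 0)`; multiply by `kap E x` and sum over `E`: the first part vanishes
(`IsRel.vec`), the second is `et η E`, the third `∑ i, kap E (i, none) * y i` (`kap` vanishes outside of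
`E`, `IsRel.supp`). (2) Split the sum in (1) by colours. Let `i` be a colour. All elements of `E` of colour
`i` have the same value at `(w, y)`: `E` has at most two of them; if they are `(i, some p)`, `(i, some q)` both
`p, q ∈ Bs A η w i`, so `val p = val q`; if they are `(i, none)`, `(i, some p)` then `y i = val p`. So the sum
of this colour is the common value times `∑ kap E x = 0` (`IsRel.sum`). -/
def StmtVal : Prop := ∀ (d : ℕ) (A : Fin (d + 1) → Finset (Fin d → ℤ))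
  (η : Fin (d + 1) → (Fin d → ℤ) → ℝ) (E : Finset (Elt d)), Cir A E →
  ∀ (w : Fin d → ℝ) (y : Fin (d + 1) → ℝ),
    ∑ x ∈ E, kap E x * vl η w y x = ∑ i, nu E i * y i + et η E ∧
    (Rlz A η E w y → ∑ i, nu E i * y i + et η E = 0)

/-- **Real** (uses `Val`) a point of the tropical set lies on a sheet. Proof. For every colour `i` choose
`o i ≠ o' i` in `Option (Fin d → ℤ)`: if `y i = val η i a w` for some `a ∈ Bs A η w i`, `o i = none`,
`o' i = some a`; otherwise two elements `a ≠ b` of `Bs A η w i`, `o i = some a`, `o' i = some b`. The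
`d + 1` vectors `vc (o i) - vc (o' i)` of `Fin d → ℝ` are linearly dependent: `∑ g i • (..) = 0`, `g ≠ 0`.
Let `E` be the set of the `(i, o i)`, `(i, o' i)` with `g i ≠ 0`, `κ (i, o i) = g i`, `κ (i, o' i) = - g i`,
`κ = 0` elsewhere: `IsRel E κ`, `Cir A E`, `Rlz A η E w y`. If `nu E = 0` then `et η E ≠ 0` by `G1`, against
`Val` (2). -/
def StmtReal : Prop := ∀ (d : ℕ) (A : Fin (d + 1) → Finset (Fin d → ℤ))
  (η : Fin (d + 1) → (Fin d → ℤ) → ℝ), G1 A η → ∀ (w : Fin d → ℝ) (y : Fin (d + 1) → ℝ),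
  TW A η w y → ∃ E, Cir A E ∧ (∃ i, nu E i ≠ 0) ∧ Rlz A η E w y

/-- **Eta** (uses `Mom`) generic weights. Proof. Let `P` be the finite set of all pairs `(i, p)`,
`p ∈ A i`, `N` its cardinality, `e : P ≃ Fin N`. For a natural number `t ≥ 1` let
`η i p = t ^ (e (i, p)) / t ^ N` (`0` if `p ∉ A i`), so `|η i p| ≤ 1`. Every condition has the form
`∑_{(i,p) ∈ P} f (i, p) * η i p ≠ 0` for a vector `f ≠ 0` on `P`, and `Mom` (with the finitely many `f`)
gives `t`. (G1) For `E ∈ CF A` with `nu E = 0`: `f (i, p) = kap E (i, some p)`; not zero: `E` has an element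
`x`, `kap E x ≠ 0`, and `x.2 ≠ none`. `et η E = ∑ f η` (`kap` vanishes outside of `E`). (G2) For `S ⊆ CF A`
for which the hypothesis holds choose such a `t^S`; `f (i, p) = ∑_{E ∈ S} t^S E * gv E (i, some p)`
(`f ≠ 0`: the `x` of the hypothesis has `x.2 ≠ none` and is in `P`), `∑_{E ∈ S} t^S E * et η E = ∑ f η`.
(G3) For `T ⊆ A i` with `T.card = d + 2` there is `g : T → ℝ`, `g ≠ 0`, `∑ g p = 0`, `∑ g p • p = 0` in
`Fin d → ℝ` (`Module.exists_nontrivial_relation_sum_zero_of_finrank_succ_lt_card`, after the injection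
`ℤ^d → ℝ^d`); `f (i, p) = g p`. If `T ⊆ Bs A η w i`, then all `val η i p w`, `p ∈ T`, are equal, so
`0 = ∑ g p * val η i p w = ∑ g p * η i p`: contradiction. So `(Bs A η w i).card ≤ d + 1`. -/
def StmtEta : Prop := ∀ (d : ℕ) (A : Fin (d + 1) → Finset (Fin d → ℤ)),
  ∃ η : Fin (d + 1) → (Fin d → ℤ) → ℚ, (∀ i, ∀ a ∈ A i, |η i a| ≤ 1) ∧
    G1 A (fun i a => (η i a : ℝ)) ∧ G2 A (fun i a => (η i a : ℝ)) ∧ G3 A (fun i a => (η i a : ℝ))

/-- **NB** the number of circuits through a point. Proof. Let `S` be the set of the statement. If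
`∑_{E ∈ S} t E * nu E i = 0` for all `i`, then `∑_{E ∈ S} t E * gv E x = 0` for all `x`: otherwise `G2` gives
`t'` with `∑ t' E * nu E i = 0` for all `i` and `∑ t' E * et η E ≠ 0`, but
`0 = ∑_E t' E * (∑ i, nu E i * y i + et η E) = ∑_E t' E * et η E`. So for the two linear maps
`(S → ℝ) → (Fin (d+1) → ℝ)`, `t ↦ ∑ t E nu E`, and `(S → ℝ) → (Elt d → ℝ)`, `t ↦ ∑ t E gv E`, the kernel of
the first is contained in the kernel of the second, so the rank of the second is `≤ d + 1`, that is, the span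
of the `gv E`, `E ∈ S`, has dimension at most `d + 1`, and there is `S₀ ⊆ S` with at most `d + 1` elements
whose `gv E` span it (`exists_linearIndependent`..). Let `U` be the set of the `x` in some `E₀ ∈ S₀` with
`x.2 ≠ none`; `U.card ≤ (d+1) * (2 (d+1))` (`Cir.two`). If `x ∈ E ∈ S`, `x.2 ≠ none`, then
`gv E x = kap E x ≠ 0`, so `gv E₀ x ≠ 0` for some `E₀ ∈ S₀`, `x ∈ E₀`, `x ∈ U`. So every `E ∈ S` is a subset
of `U ∪ {(i, none)}`, a set of at most `2 (d+1)^2 + (d+1)` elements. -/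
def StmtNB : Prop := ∀ (d : ℕ) (A : Fin (d + 1) → Finset (Fin d → ℤ))
  (η : Fin (d + 1) → (Fin d → ℤ) → ℝ), G2 A η → ∀ y : Fin (d + 1) → ℝ,
  Nat.card {E // E ∈ CF A ∧ ∑ i, nu E i * y i + et η E = 0} ≤ 2 ^ (2 * (d + 1) ^ 2 + (d + 1))

/-- **LabE** labels exist. Proof. Let `i` be a colour. The sum of `kap E x` over the elements `x` of `E` of
colour `i` is zero, all of them are not zero, and there are at most two; so there is none, or there are
exactly two, `(i, o)`, `(i, o')`, with `s * kap E (i, o) < 0 < s * kap E (i, o')`. Define `f i` by cases. -/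
def StmtLabE : Prop := ∀ (d : ℕ) (A : Fin (d + 1) → Finset (Fin d → ℤ)) (E : Finset (Elt d)) (s : ℝ),
  Cir A E → s ≠ 0 → ∃ f, IsLab E s f

/-- **Dat** (uses `Val`) the smaller elements determine the side. Proof. By `Val` (1) the number is
`∑_{x ∈ E} s * kap E x * vl η w y x`; split it by colours. Let `i` be a colour with elements in `E`; as in
`LabE` they are `x⁻`, `x⁺` with `s * kap E x⁻ = - m`, `s * kap E x⁺ = m`, `m > 0`, and the contribution is
`m * (vl x⁺ - vl x⁻)`. Cases by `f i` (the label of `x⁻`), using the same label for `E'`: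
`some none`: `x⁻ = (i, none)`, `x⁺ = (i, some q)`, `q ∈ A i`; `(i, none) ∈ E'`, and `E'` has another element
`(i, some p)` of colour `i` (sum zero), `y i = val p`, `p ∈ Bs`, so `y i ≤ val q`. `some (some (p, true))`:
`x⁻ = (i, some p)`, `x⁺ = (i, none)`; `(i, some p), (i, none) ∈ E'`, so `y i = val p` (`Rlz`): the
contribution is `0`. `some (some (p, false))`: `x⁻ = (i, some p)`, `x⁺ = (i, some q)`, `q ∈ A i`;
`(i, some p) ∈ E'`, so `p ∈ Bs`, `val p ≤ val q`. -/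
def StmtDat : Prop := ∀ (d : ℕ) (A : Fin (d + 1) → Finset (Fin d → ℤ))
  (η : Fin (d + 1) → (Fin d → ℤ) → ℝ) (E E' : Finset (Elt d)) (s s' : ℝ)
  (f : Fin (d + 1) → Lab d), Cir A E → Cir A E' → IsLab E s f → IsLab E' s' f →
  ∀ (w : Fin d → ℝ) (y : Fin (d + 1) → ℝ), Rlz A η E' w y →
    0 ≤ s * (∑ i, nu E i * y i + et η E)

/-- **Far** far points have far witnesses. Proof. `ρ' = 1 + |ρ| * max_{i, p ∈ A i} ∑ k, |p k| +
max |η i p|`. `nu E i ≠ 0` means `(i, none) ∈ E`; the sum of `kap E` over the colour `i` is zero, so there is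
another element `(i, some p) ∈ E`, `y i = val η i p w`. If all `|w k| < ρ` then `|y i| < ρ'`. -/
def StmtFar : Prop := ∀ (d : ℕ) (A : Fin (d + 1) → Finset (Fin d → ℤ))
  (η : Fin (d + 1) → (Fin d → ℤ) → ℝ) (ρ : ℝ), ∃ ρ' : ℝ, 0 < ρ' ∧ ∀ (E : Finset (Elt d))
  (w : Fin d → ℝ) (y : Fin (d + 1) → ℝ), Cir A E → (∃ i, nu E i ≠ 0) → Rlz A η E w y →
  (∀ i, ρ' ≤ |y i|) → ∃ k, ρ ≤ |w k|

/-! ## The chart -/

/-- **ArrG** (uses `Val`) Proof. `eq`: `Val` (2) at `y = full j q x`, `sum_full`. `ne`: the condition in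
`Sh`. -/
def StmtArrG : Prop := ∀ (d : ℕ) (A : Fin (d + 1) → Finset (Fin d → ℤ))
  (η : Fin (d + 1) → (Fin d → ℤ) → ℝ) (j : Fin (d + 1)) (q : ℝ), IsArr (arrG A η j q)

/-- **Dgo** the regions are open, convex and disjoint. Proof. `Dg` is a finite intersection of open half
spaces (`full j q` is affine and continuous); at a point of two of them each of the two exponents has the
strictly smaller value. -/
def StmtDgo : Prop := ∀ (d : ℕ) (S : Finset (Fin (d + 1) →₀ ℕ)) (ϕ : (Fin (d + 1) →₀ ℕ) → ℚ)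
  (j : Fin (d + 1)) (q : ℝ), (∀ α, IsOpen (Dg S ϕ j q α)) ∧ (∀ α, Convex ℝ (Dg S ϕ j q α)) ∧
  ∀ α ∈ S, ∀ β ∈ S, α ≠ β → Disjoint (Dg S ϕ j q α) (Dg S ϕ j q β)

/-- **SegG** (uses `Val`, `Real`) segments leaving a region meet a sheet. Proof. Let `z θ` be the rational
point `full j q ((1-θ) y + θ y')`, `g β θ = ϕ β + ∑ β_i (z θ)_i`, affine in `θ`. `g α 0 < g β 0` for all
`β ≠ α`, and the set `N` of the `β ∈ S`, `β ≠ α`, with `g β 1 ≤ g α 1` is not empty. For `β ∈ N` let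
`θ_β = (g β 0 - g α 0) / ((g β 0 - g α 0) + (g α 1 - g β 1)) ∈ (0, 1]`, rational, the solution of
`g β θ = g α θ`; let `θ` be the smallest of them, attained at `β`. For all `γ ∈ S`: `g α θ ≤ g γ θ` (for
`γ ∈ N` since `θ ≤ θ_γ`, for `γ ∉ N` since `g γ - g α ≥ 0` at `0` and `1`). So `z θ` is a tie and `HT` gives
`w`, `Real` gives `E` with `nu E ≠ 0` and `Rlz`. By `Val` (2) and `sum_full`:
`nu E j * q + ∑ k, nu E (j.succAbove k) * x k + et η E = 0`, so not all `nu E (j.succAbove k)` vanish by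
`Good`, and `E` is a sheet. -/
def StmtSegG : Prop := ∀ (d : ℕ) (A : Fin (d + 1) → Finset (Fin d → ℤ))
  (η : Fin (d + 1) → (Fin d → ℤ) → ℝ), G1 A η → ∀ (S : Finset (Fin (d + 1) →₀ ℕ))
  (ϕ : (Fin (d + 1) →₀ ℕ) → ℚ), HT A η S ϕ → ∀ (j : Fin (d + 1)) (q : ℚ), Good A η j q →
  ∀ α ∈ S, SegP (arrG A η j q) (Dg S ϕ j q α)

/-- **Reg** all regions are seen in the charts. Proof. For every exposed `α ∈ S` choose `u^α` and divide it
by `|u^α j|`, so that `|u^α j| = 1`. `σ i = true` iff `u^α i > 0`, `x k = R * u^α (j.succAbove k)`, so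
`full j (qq R j σ) x = R • u^α`. `R` (a natural number) is so large that `R (∑ β_i u^α_i - ∑ α_i u^α_i) >
ϕ α - ϕ β` for all these `α` and `β ≠ α` in `S`, `R |u^α i| > ρ`, `R ≥ ρ`, and for `Good`: if
`nu E (j.succAbove k) = 0` for all `k` and `nu E j = 0`, `et η E ≠ 0` by `G1`; if `nu E j ≠ 0`,
`R > |et η E| / |nu E j|` is enough. Then `H` larger than all `R |u^α i|`. -/
def StmtReg : Prop := ∀ (d : ℕ) (A : Fin (d + 1) → Finset (Fin d → ℤ))
  (η : Fin (d + 1) → (Fin d → ℤ) → ℝ), G1 A η → ∀ (S : Finset (Fin (d + 1) →₀ ℕ))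
  (ϕ : (Fin (d + 1) →₀ ℕ) → ℚ) (j : Fin (d + 1)) (ρ : ℝ), 0 < ρ →
  ∃ (R : ℕ) (H : ℝ), ρ ≤ R ∧ (∀ σ, Good A η j (qq R j σ)) ∧ ∀ α ∈ S, Exd S α →
    ∃ (σ : Fin (d + 1) → Bool) (x : Fin d → ℝ), x ∈ Dg S ϕ j (qq R j σ) α ∧
      ∀ k, lo ρ H j σ k < x k ∧ x k < hi ρ H j σ k

/-! ## Counting -/

/-- **Lists** (uses `GenL`, `LP`) the number of lists with a far witness. Proof. `d = m + 1`. For `p` with
`p i ∈ A i` (`i ∈ V`) let `Z p = {w | ∀ i ∈ V, ∀ q ∈ A i, val η i (p i) w ≤ val η i q w}`, closed and convex.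
`ρ > 0` is larger than all the coordinates of one chosen point of every nonempty `Z p` (finitely many
`V`, `p`). Let `p ∈ Lst A η ρ V`: `Z p` contains a point with some `|w k| ≥ ρ` and a point with all
`|w k| < ρ`, so on the segment a point with `max |w k| = ρ`, in a facet `F = {w a = ± ρ}` of the box
(`2 d` facets). In the chart `x k = w (a.succAbove k)`, `k : Fin m`, `Z p ∩ F ∩ box` is given by the
inequalities `x k ≥ -ρ`, `- x k ≥ -ρ` (index `(k, b)`) and `∑ (q - p i) (a.succAbove k) x k ≥ β_(i, p i, q)`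
(index `(i, p i, q)`, `i ∈ V`, `q ∈ A i`, constants from `± ρ` and `η`). The finite family of all `(k, b)` and
all `(i, p, q)`, `p, q ∈ A i`, has a generic `l` (`GenL`) for each facet. `LP` gives `x`, `B`, `c`. Let `J ⊆ V` be
the set of the colours which occur in `B`: `J.card ≤ B.card = m = d - 1`. DATA of `p`: the facet, the set of
the `(k, b)` in `B`, `J`, and `p i`, `i ∈ J`. If `p, p'` have the same data then `x = x'`:
`l ⬝ᵥ x' - l ⬝ᵥ x = ∑_{t ∈ B} c t (a t ⬝ᵥ x' - β t) ≥ 0` (`(k, b)` is also active at `x'`, and for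
`t = (i, p i, q)`: `p' i = p i` and `x' ∈ Z p'`); the same with `x, x'` exchanged; `Gen2`. For a given `x`,
that is `w`, there are at most `∏_{i ∈ V} (Bs A η w i).card ≤ (d+1)^(d+1)` lists `p` with `w ∈ Z p` (`G3`). So
`ncard ≤ 2 d * 4^m * (d+1)^(d+1) * sp (fun i => (A i).card) (d - 1) V`. -/
def StmtLists : Prop := ∀ d : ℕ, 1 ≤ d → ∃ C : ℕ, ∀ (A : Fin (d + 1) → Finset (Fin d → ℤ))
  (η : Fin (d + 1) → (Fin d → ℤ) → ℝ), (∀ i, (A i).Nonempty) → G3 A η → ∃ ρ : ℝ, 0 < ρ ∧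
  ∀ V : Finset (Fin (d + 1)), (Lst A η ρ V).Finite ∧
    (Lst A η ρ V).ncard ≤ C * sp (fun i => (A i).card) (d - 1) V

/-- **LabN** the number of label functions. Proof. `f` with `ptc f = V` is determined by the list
`p ∈ Lst A η ρ V` of its affine functions (`p i = 0` for `i ∉ V`), the bits `b i`, `i ∈ V`, and for `i ∉ V`
by the choice between `none` and `some none`. -/
def StmtLabN : Prop := ∀ (d : ℕ) (A : Fin (d + 1) → Finset (Fin d → ℤ))
  (η : Fin (d + 1) → (Fin d → ℤ) → ℝ) (ρ : ℝ) (V : Finset (Fin (d + 1))) (n : ℕ),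
  (Lst A η ρ V).Finite → (Lst A η ρ V).ncard ≤ n →
    {f | f ∈ LL A η ρ ∧ ptc f = V}.Finite ∧ {f | f ∈ LL A η ρ ∧ ptc f = V}.ncard ≤ 2 ^ (d + 1) * n

/-- **Arith** Proof. The left side is `∏ i, v i ^ (a i)`, `a i` the number of the `s` with `i ∈ J s`
(`Finset.prod_comm'`). `∑ i, a i = ∑ s, (J s).card ≤ r (d-1) ≤ d (d-1)`. For `i ≠ j`: `a i ≤ d - 1` (`a i ≤ r`;
if `r = d` some `s` has `i ∉ J s`). So `a j ≤ ∑_{i ≠ j} (d - 1 - a i)` and `v j ^ (a j) ≤
∏_{i ≠ j} v j ^ (d-1-a i) ≤ ∏_{i ≠ j} v i ^ (d-1-a i)`. -/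
def StmtArith : Prop := ∀ (d : ℕ) (v : Fin (d + 1) → ℕ) (j : Fin (d + 1)), (∀ i, 1 ≤ v i) →
  (∀ i, v j ≤ v i) → ∀ r : ℕ, r ≤ d → ∀ J : Fin r → Finset (Fin (d + 1)),
  (∀ s, (J s).card ≤ d - 1) → (r = d → ∀ i, i ≠ j → ∃ s, i ∉ J s) →
    ∏ s, ∏ i ∈ J s, v i ≤ ∏ i ∈ univ.erase j, v i ^ (d - 1)

/-- **CountF** (uses `Arith`) the number of families of label functions. Proof. `C = (C₀ * 4^(d+1) + 1)^d`.
`Λ` is finite (the union over `V`). For `V : Fin r → Finset (Fin (d+1))` the number of `F` with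
`ptc (F s) = V s` for all `s` is at most `∏ s, C₀ * sp v (d-1) (V s) = C₀^r ∑_{(J s)} ∏ s, ∏ i ∈ J s, v i`, the
sum over all `J s ⊆ V s`, `(J s).card ≤ d - 1` (`Finset.prod_univ_sum`); if there is an admissible `F` then for
`r = d`, `i ≠ j` some `s` has `i ∉ V s`, so `i ∉ J s`, and `Arith` bounds every term by the product on the
right. There are at most `2^((d+1) r)` families `J` and as many `V`. -/
def StmtCountF : Prop := ∀ (d C₀ : ℕ), ∃ C : ℕ, ∀ (v : Fin (d + 1) → ℕ) (j : Fin (d + 1)),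
  (∀ i, 1 ≤ v i) → (∀ i, v j ≤ v i) → ∀ Λ : Set (Fin (d + 1) → Lab d),
  (∀ V, {f | f ∈ Λ ∧ ptc f = V}.Finite ∧ {f | f ∈ Λ ∧ ptc f = V}.ncard ≤ C₀ * sp v (d - 1) V) →
  ∀ r : ℕ, r ≤ d →
    {F : Fin r → Fin (d + 1) → Lab d | (∀ s, F s ∈ Λ) ∧
      (r = d → ∀ i, i ≠ j → ∃ s, i ∉ ptc (F s))}.Finite ∧
    {F : Fin r → Fin (d + 1) → Lab d | (∀ s, F s ∈ Λ) ∧
      (r = d → ∀ i, i ≠ j → ∃ s, i ∉ ptc (F s))}.ncard ≤ C * ∏ i ∈ univ.erase j, v i ^ (d - 1)

/-- **Same** (uses `Val`, `Dat`, `Det`) equal data, equal points. Proof. `Det`; by symmetry we show for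
`t ∈ B` that `0 ≤ cf t * (fam t ⬝ᵥ x' - off t)`. `t = inl kb`: `t ∈ B'` by hypothesis, so
`fam t ⬝ᵥ x' = off t`. `t = inr E`: the hypothesis gives `E'`, `inr E' ∈ B'`, with the same label function;
`x' ∈ closure (Rz E')` (`Cert.sh`), and for `z ∈ Rz E'`, with witness `w`, `Dat` gives
`0 ≤ cf t * (∑ i, nu E i * full j q z i + et η E) = cf t * (ν E ⬝ᵥ z + c E)` (`sum_full`); by continuity this
holds at `x'`, and `fam t ⬝ᵥ x' - off t = ν E ⬝ᵥ x' + c E`. -/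
def StmtSame : Prop := ∀ (d : ℕ) (A : Fin (d + 1) → Finset (Fin d → ℤ))
  (η : Fin (d + 1) → (Fin d → ℤ) → ℝ) (j : Fin (d + 1)) (q : ℝ) (lo hi l : Fin d → ℝ),
  Gen2 (fam (arrG A η j q)) (off (arrG A η j q) lo hi) l → ∀ (x x' : Fin d → ℝ)
  (B B' : Finset ((Fin d × Bool) ⊕ Sh A j)) (cf cf' : (Fin d × Bool) ⊕ Sh A j → ℝ),
  Cert (arrG A η j q) lo hi l x B cf → Cert (arrG A η j q) lo hi l x' B' cf' →
  (∀ kb, Sum.inl kb ∈ B ↔ Sum.inl kb ∈ B') →
  (∀ E, Sum.inr E ∈ B → ∃ E' f, Sum.inr E' ∈ B' ∧ IsLab E.1 (cf (Sum.inr E)) f ∧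
    IsLab E'.1 (cf' (Sum.inr E')) f) →
  (∀ E', Sum.inr E' ∈ B' → ∃ E f, Sum.inr E ∈ B ∧ IsLab E.1 (cf (Sum.inr E)) f ∧
    IsLab E'.1 (cf' (Sum.inr E')) f) → x = x'

/-- **Adm** (uses `LabE`, `Far`) the label functions of a certificate. Proof. Let `r` be the number of the
`E` with `inr E ∈ B`, enumerated as `E 0, .., E (r-1)` (`Finset.equivFin`), `F s` the label function of
`LabE` for `E s` and `cf (inr (E s)) ≠ 0` (`Cert.sh`). `r + #{kb | inl kb ∈ B} = d` (`Cert.card`). `F s ∈ LL`: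
`x ∈ closure (Rz (E s))`, so there are `z ∈ Rz (E s)`, `|z k - x k| < 1`, and a witness `w`; the coordinates of
`full j q z` have absolute value at least `ρ'`, so by the property of `ρ'` some `|w k| ≥ ρ`, and the affine
functions in `F s` are elements of `E s`, so they are in `Bs A η w`. If `r = d` then no `inl` is in `B`, and for
`i = j.succAbove k`: `0 > l k = ∑_{inr E ∈ B} cf (inr E) * nu E i`, so some `cf (inr E) * nu E i < 0`, and the
label of `E` at `i` is `some none`: `i ∉ ptc`. -/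
def StmtAdm : Prop := ∀ (d : ℕ) (A : Fin (d + 1) → Finset (Fin d → ℤ))
  (η : Fin (d + 1) → (Fin d → ℤ) → ℝ) (ρ ρ' : ℝ), (∀ (E : Finset (Elt d)) (w : Fin d → ℝ)
    (y : Fin (d + 1) → ℝ), Cir A E → (∃ i, nu E i ≠ 0) → Rlz A η E w y →
    (∀ i, ρ' ≤ |y i|) → ∃ k, ρ ≤ |w k|) →
  ∀ (j : Fin (d + 1)) (q : ℝ) (lo hi l x : Fin d → ℝ) (B : Finset ((Fin d × Bool) ⊕ Sh A j))
  (cf : (Fin d × Bool) ⊕ Sh A j → ℝ), (∀ k, l k < 0) → ρ' ≤ |q| → (∀ k, ρ' + 1 ≤ |x k|) →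
  Cert (arrG A η j q) lo hi l x B cf →
  ∃ (r : ℕ) (K : Finset (Fin d × Bool)) (F : Fin r → Fin (d + 1) → Lab d), r + K.card = d ∧
    (∀ kb, Sum.inl kb ∈ B ↔ kb ∈ K) ∧ (∀ s, F s ∈ LL A η ρ) ∧
    (r = d → ∀ i, i ≠ j → ∃ s, i ∉ ptc (F s)) ∧
    (∀ E, Sum.inr E ∈ B → ∃ s, IsLab E.1 (cf (Sum.inr E)) (F s)) ∧
    ∀ s, ∃ E, Sum.inr E ∈ B ∧ IsLab E.1 (cf (Sum.inr E)) (F s)

/-- **MainA** (uses all the other statements) the number of exposed exponents. Proof. `C₁` of `Lists`,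
`C` of `CountF` for `C₀ = 2^(d+1) * C₁`, `N = 2^(2(d+1)^2 + (d+1))`; the constant is
`2^(d+1) * 2^(2d) * (d+1) * C * 2^N`. Given `A`, `j`: `η` of `Eta` (cast to `ℝ`), `ρ` of `Lists`, `ρ'` of `Far`.
Given `S, ϕ`: `R`, `H` of `Reg` for `ρ' + 1`; for every sign pattern `σ`, with `q = qq R j σ`, let `l^σ` be the
form of `GenL` for `fam (arrG A η j q)`, `off (arrG A η j q) (lo ..) (hi ..)`. For an exposed `α ∈ S`: `σ`, `x₀`
of `Reg`; `KKT` (with `D = Dg S ϕ j q α`, `Dgo`, `SegG`, `ArrG`; `q` is the cast of a rational number) gives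
`x^α`, `B^α`, `cf^α`; `Adm` gives `r, K, F` (`|x k| ≥ ρ' + 1` in the box, `|q| = R ≥ ρ'`). DATA of `α`:
`(σ, K, r, F)`; the number of possible data is at most `2^(d+1) * 2^(2d) * (d+1) * C * ∏..` (`CountF` with
`Λ = LL A η ρ`, `LabN`). If two exponents have the same data their points are equal (`Same`), and for fixed
`σ` and `x` there are at most `2^N` exponents (`MultC`, `NB` at `full j q x`: `E ↦ E.1` is injective and
`ν E ⬝ᵥ x + c E = ∑ i, nu E i * full j q x i + et η E` by `sum_full`). -/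
def StmtMainA : Prop := ∀ d : ℕ, 1 ≤ d → ∃ C : ℕ, ∀ (A : Fin (d + 1) → Finset (Fin d → ℤ))
  (j : Fin (d + 1)), (∀ i, (A i).Nonempty) → (∀ i, (A j).card ≤ (A i).card) →
  ∃ η : Fin (d + 1) → (Fin d → ℤ) → ℚ, (∀ i, ∀ a ∈ A i, |η i a| ≤ 1) ∧
  ∀ (S : Finset (Fin (d + 1) →₀ ℕ)) (ϕ : (Fin (d + 1) →₀ ℕ) → ℚ),
  HT A (fun i a => (η i a : ℝ)) S ϕ →
    Nat.card {α // α ∈ S ∧ Exd S α} ≤ C * ∏ i ∈ univ.erase j, (A i).card ^ (d - 1)

/-- **Fin** (uses `MainA`; the file may import `Up.Dirs`, `exists_dir`) the final statement. Proof. `C` of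
`MainA`. Given `S, ϕ` with the hypothesis (rational witnesses `w`): `HT` holds (take the cast of `w`). Every
extreme point of the hull of the image of `S` is the image of some `α ∈ S` (unique, the map is injective), and
`exists_dir` (for the image of `S` and the unit vectors as `Hy`) gives a rational `y` with
`α · y < β · y` for all `β ≠ α` in `S` and `y i ≠ 0` for all `i`: `Exd S α`. So the number of vertices is at
most the number of exposed `α ∈ S`. `∏ v i ^ (d-1) = (∏ v i) ^ (d-1)`. -/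
def StmtFin : Prop := ∀ d : ℕ, 1 ≤ d → ∃ C : ℕ, ∀ (A : Fin (d + 1) → Finset (Fin d → ℤ))
  (j : Fin (d + 1)), (∀ i, (A i).Nonempty) → (∀ i, (A j).card ≤ (A i).card) →
  ∃ η : Fin (d + 1) → (Fin d → ℤ) → ℚ, (∀ i, ∀ a ∈ A i, |η i a| ≤ 1) ∧
  ∀ (S : Finset (Fin (d + 1) →₀ ℕ)) (ϕ : (Fin (d + 1) →₀ ℕ) → ℚ),
  (∀ z : Fin (d + 1) → ℚ,
    (∃ α ∈ S, ∃ β ∈ S, α ≠ β ∧
      ϕ α + ∑ i, (α i : ℚ) * z i = ϕ β + ∑ i, (β i : ℚ) * z i ∧
      ∀ γ ∈ S, ϕ α + ∑ i, (α i : ℚ) * z i ≤ ϕ γ + ∑ i, (γ i : ℚ) * z i) →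
    ∃ w : Fin d → ℚ, ∀ i,
      (∃ a ∈ Bs A (fun i a => (η i a : ℝ)) (fun k => (w k : ℝ)) i,
        ((z i : ℚ) : ℝ) = val (fun i a => (η i a : ℝ)) i a (fun k => (w k : ℝ))) ∨
      2 ≤ (Bs A (fun i a => (η i a : ℝ)) (fun k => (w k : ℝ)) i).card) →
  numVertices (convexHull ℝ ((fun (a : Fin (d + 1) →₀ ℕ) (i : Fin (d + 1)) => (a i : ℝ)) ''
    (S : Set (Fin (d + 1) →₀ ℕ)))) ≤ C * (∏ i ∈ univ.erase j, (A i).card) ^ (d - 1)

end Pool.Agent.Lib.MP_4e7804_co.Gp
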