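import Pool.Agent.Lib.MP_4e7804_co.Gp.All
import Pool.Agent.Lib.MP_4e7804_co.Up.Latt
import Pool.Agent.Lib.MP_4e7804_co.Up.Trop

/-! MP_4e7804_co, Theorem G+: the upper bound for the number of vertices of mixed fiber polytopes. -/

set_option autoImplicit false

open Finset

namespace Pool.Agent.Lib.MP_4e7804_co

/-- `V_n(v) ≤ C_n (∏_{i ≠ m} v_i)^(n-2)` if `v_m` is minimal. -/
theorem upper_special (d : ℕ) (hd : 1 ≤ d) :
    ∃ C : ℕ, ∀ (v : Fin (d + 1) → ℕ) (m : Fin (d + 1)), (∀ i, v m ≤ v i) →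
      ∀ N : ℕ, IsVertexNumber v N → N ≤ C * (∏ i ∈ univ.erase m, v i) ^ (d - 1) := by
  obtain ⟨C, hC⟩ := Gp.gplus d hd
  refine ⟨C, fun v m hm N hvN => ?_⟩
  obtain ⟨P, c, F, hP, hv, hc, hF, hN⟩ := hvN
  have hex := fun i => exists_vertices (P i) (hP i)
  choose hfin hne A hA hcard hPA using hex
  have hAv : ∀ i, (A i).card = v i := fun i => (hcard i).trans (hv i)
  obtain ⟨η, hη, hmain⟩ := hC A m hA (fun i => by rw [hAv, hAv]; exact hm i)
  obtain ⟨ϕ, hϕ⟩ := trop_subset P hfin hne c hc F hF (fun i p => if p ∈ A i then η i p else 2)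
  have h1 := hmain F.support ϕ (fun z hz => by
    obtain ⟨w, hw⟩ := hϕ z hz
    exact ⟨w, fun i => tie_vertices P A hA hPA η hη z w hw i⟩)
  simp only [hAv] at h1
  rw [← hN]
  exact h1

end Pool.Agent.Lib.MP_4e7804_co
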