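import Pool.Agent.Lib.MP_4e7804_co.Gp.Spec

/-! MP_4e7804_co, Theorem G+: the exponent count. -/

set_option autoImplicit false

open Finset

namespace Pool.Agent.Lib.MP_4e7804_co.Gp

theorem tArith : StmtArith := by
  intro d v j hv hj r hr J hJ hrd
  classical
  have h1 : ∏ s, ∏ i ∈ J s, v i = ∏ i, v i ^ (univ.filter (fun s => i ∈ J s)).card := by
    have h0 : ∀ s, ∏ i ∈ J s, v i = ∏ i, if i ∈ J s then v i else 1 := by
      intro s
      rw [prod_ite_mem, univ_inter]
    simp_rw [h0]
    rw [prod_comm]
    refine prod_congr rfl fun i _ => ?_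
    rw [prod_ite, prod_const_one, mul_one, prod_const]
  have h2 : ∑ i, (univ.filter (fun s => i ∈ J s)).card = ∑ s, (J s).card := by
    have h0 : ∀ i, (univ.filter (fun s => i ∈ J s)).card = ∑ s, if i ∈ J s then 1 else 0 := by
      intro i
      rw [card_filter]
    have h0' : ∀ s, (J s).card = ∑ i, if i ∈ J s then 1 else 0 := by
      intro s
      rw [← card_filter]
      congr 1
      ext i
      simp
    simp_rw [h0, h0']
    rw [sum_comm]
  have h3 : ∑ s, (J s).card ≤ d * (d - 1) := by
    calc ∑ s, (J s).card ≤ ∑ _s : Fin r, (d - 1) := sum_le_sum fun s _ => hJ s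
      _ = r * (d - 1) := by simp
      _ ≤ d * (d - 1) := Nat.mul_le_mul_right _ hr
  have h4 : ∀ i ∈ univ.erase j, (univ.filter (fun s => i ∈ J s)).card ≤ d - 1 := by
    intro i hi
    have hij : i ≠ j := (mem_erase.1 hi).1
    have h5 : (univ.filter (fun s => i ∈ J s)).card ≤ r := by
      calc (univ.filter (fun s => i ∈ J s)).card ≤ (univ : Finset (Fin r)).card := card_filter_le _ _
        _ = r := by simp
    rcases Nat.lt_or_ge r d with h | h
    · omega
    · obtain ⟨s, hs⟩ := hrd (le_antisymm hr h) i hij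
      have h6 : (univ.filter (fun s => i ∈ J s)).card < (univ : Finset (Fin r)).card := by
        refine card_lt_card ?_
        rw [ssubset_iff_of_subset (filter_subset _ _)]
        exact ⟨s, mem_univ _, by simp [hs]⟩
      rw [card_univ, Fintype.card_fin] at h6
      omega
  have h5 : (univ.filter (fun s => j ∈ J s)).card ≤
      ∑ i ∈ univ.erase j, (d - 1 - (univ.filter (fun s => i ∈ J s)).card) := by
    rw [← add_sum_erase univ _ (mem_univ j)] at h2
    have h6 : ∑ i ∈ univ.erase j, (d - 1 - (univ.filter (fun s => i ∈ J s)).card) +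
        ∑ i ∈ univ.erase j, (univ.filter (fun s => i ∈ J s)).card = d * (d - 1) := by
      rw [← sum_add_distrib]
      rw [sum_congr rfl (fun i hi => Nat.sub_add_cancel (h4 i hi))]
      rw [sum_const, card_erase_of_mem (mem_univ j), card_univ, Fintype.card_fin]
      simp
    omega
  rw [h1, ← mul_prod_erase univ _ (mem_univ j)]
  calc v j ^ (univ.filter (fun s => j ∈ J s)).card *
        ∏ i ∈ univ.erase j, v i ^ (univ.filter (fun s => i ∈ J s)).card
      ≤ (∏ i ∈ univ.erase j, v i ^ (d - 1 - (univ.filter (fun s => i ∈ J s)).card)) *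
        ∏ i ∈ univ.erase j, v i ^ (univ.filter (fun s => i ∈ J s)).card := by
        refine Nat.mul_le_mul_right _ ?_
        calc v j ^ (univ.filter (fun s => j ∈ J s)).card
            ≤ v j ^ ∑ i ∈ univ.erase j, (d - 1 - (univ.filter (fun s => i ∈ J s)).card) :=
              Nat.pow_le_pow_right (hv j) h5
          _ = ∏ i ∈ univ.erase j, v j ^ (d - 1 - (univ.filter (fun s => i ∈ J s)).card) :=
              (prod_pow_eq_pow_sum _ _ _).symm
          _ ≤ _ := prod_le_prod' fun i _ => Nat.pow_le_pow_left (hj i) _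
    _ = ∏ i ∈ univ.erase j, v i ^ (d - 1) := by
        rw [← prod_mul_distrib]
        refine prod_congr rfl fun i hi => ?_
        rw [← pow_add, Nat.sub_add_cancel (h4 i hi)]

end Pool.Agent.Lib.MP_4e7804_co.Gp
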