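import Pool.Agent.Lib.MP_4e7804_co.Gp.Spec

/-! MP_4e7804_co, Theorem G+: the linear equation of a circuit. -/

set_option autoImplicit false

open Finset

namespace Pool.Agent.Lib.MP_4e7804_co.Gp

theorem Val_kap_zero {d : ℕ} {A : Fin (d + 1) → Finset (Fin d → ℤ)} {E : Finset (Elt d)}
    (h : Cir A E) {x : Elt d} (hx : x ∉ E) : kap E x = 0 := by
  by_contra hne
  exact hx ((h.kap.supp x).1 hne)

theorem Val_one {d : ℕ} (A : Fin (d + 1) → Finset (Fin d → ℤ))
    (η : Fin (d + 1) → (Fin d → ℤ) → ℝ) (E : Finset (Elt d)) (h : Cir A E)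
    (w : Fin d → ℝ) (y : Fin (d + 1) → ℝ) :
    ∑ x ∈ E, kap E x * vl η w y x = ∑ i, nu E i * y i + et η E := by
  classical
  have h1 : ∀ x : Elt d, vl η w y x = (∑ k, vc x.2 k * w k) + cs η x +
      (if x.2 = none then y x.1 else 0) := by
    rintro ⟨i, o⟩
    cases o with
    | none => simp [vl, vc, cs]
    | some p => simp [vl, vc, cs, val]
  have h2 : ∑ x ∈ E, kap E x * ∑ k, vc x.2 k * w k = 0 := by
    have : ∑ x ∈ E, kap E x * ∑ k, vc x.2 k * w k =
        ∑ k, (∑ x ∈ E, kap E x * vc x.2 k) * w k := by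
      simp_rw [Finset.mul_sum, Finset.sum_mul]
      rw [Finset.sum_comm]
      refine Finset.sum_congr rfl fun k _ => Finset.sum_congr rfl fun x _ => ?_
      ring
    rw [this]
    refine Finset.sum_eq_zero fun k _ => ?_
    rw [h.kap.vec k, zero_mul]
  have h3 : ∑ x ∈ E, kap E x * (if x.2 = none then y x.1 else 0) = ∑ i, nu E i * y i := by
    have e1 : ∑ x ∈ E, kap E x * (if x.2 = none then y x.1 else 0) =
        ∑ x ∈ E with x.2 = none, kap E x * y x.1 := by
      rw [Finset.sum_filter]
      refine Finset.sum_congr rfl fun x _ => ?_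
      split_ifs <;> simp
    rw [e1]
    have e2 : ∑ i, nu E i * y i = ∑ i with (i, none) ∈ E, nu E i * y i := by
      rw [Finset.sum_filter]
      refine Finset.sum_congr rfl fun i _ => ?_
      split_ifs with hi
      · rfl
      · unfold nu
        rw [Val_kap_zero h hi, zero_mul]
    rw [e2]
    refine Finset.sum_bij' (fun x _ => x.1) (fun i _ => (i, none)) ?_ ?_ ?_ ?_ ?_
    · rintro ⟨i, o⟩ hx
      rw [Finset.mem_filter] at hx ⊢
      obtain ⟨hx1, hx2⟩ := hx
      simp only at hx2
      subst hx2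
      exact ⟨Finset.mem_univ _, hx1⟩
    · intro i hi
      rw [Finset.mem_filter] at hi ⊢
      exact ⟨hi.2, rfl⟩
    · rintro ⟨i, o⟩ hx
      rw [Finset.mem_filter] at hx
      obtain ⟨hx1, hx2⟩ := hx
      simp only at hx2
      subst hx2
      rfl
    · intro i hi
      rfl
    · rintro ⟨i, o⟩ hx
      rw [Finset.mem_filter] at hx
      obtain ⟨hx1, hx2⟩ := hx
      simp only at hx2
      subst hx2
      rfl
  calc ∑ x ∈ E, kap E x * vl η w y x
      = ∑ x ∈ E, kap E x * (∑ k, vc x.2 k * w k) + ∑ x ∈ E, kap E x * cs η x +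
        ∑ x ∈ E, kap E x * (if x.2 = none then y x.1 else 0) := by
        rw [← Finset.sum_add_distrib, ← Finset.sum_add_distrib]
        refine Finset.sum_congr rfl fun x _ => ?_
        rw [h1 x]
        ring
    _ = ∑ i, nu E i * y i + et η E := by
        rw [h2, h3]
        unfold et
        ring

/-- all elements of a colour have the same value -/
theorem Val_common {d : ℕ} (A : Fin (d + 1) → Finset (Fin d → ℤ))
    (η : Fin (d + 1) → (Fin d → ℤ) → ℝ) (E : Finset (Elt d))
    (w : Fin d → ℝ) (y : Fin (d + 1) → ℝ) (hR : Rlz A η E w y) (i : Fin (d + 1))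
    (o o' : Option (Fin d → ℤ)) (ho : (i, o) ∈ E) (ho' : (i, o') ∈ E) :
    vl η w y (i, o) = vl η w y (i, o') := by
  classical
  cases o with
  | none =>
    cases o' with
    | none => rfl
    | some p =>
      obtain ⟨-, h2⟩ := hR i p ho'
      exact h2 ho
  | some q =>
    cases o' with
    | none =>
      obtain ⟨-, h2⟩ := hR i q ho
      exact (h2 ho').symm
    | some p =>
      obtain ⟨h1, -⟩ := hR i p ho'
      obtain ⟨h2, -⟩ := hR i q ho
      unfold Bs at h1 h2
      rw [Finset.mem_filter] at h1 h2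
      exact le_antisymm (h2.2 p h1.1) (h1.2 q h2.1)

theorem tVal : StmtVal := by
  classical
  intro d A η E h w y
  refine ⟨Val_one A η E h w y, ?_⟩
  intro hR
  rw [← Val_one A η E h w y]
  rw [← Finset.sum_fiberwise_of_maps_to (s := E) (t := univ) (g := fun x => x.1)
    (fun x _ => Finset.mem_univ _)]
  refine Finset.sum_eq_zero fun i _ => ?_
  rcases (E.filter fun x => x.1 = i).eq_empty_or_nonempty with he | ⟨x0, hx0⟩
  · rw [he, Finset.sum_empty]
  · have hc : ∀ x ∈ E.filter (fun x => x.1 = i), kap E x * vl η w y x =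
        kap E x * vl η w y x0 := by
      intro x hx
      rw [Finset.mem_filter] at hx hx0
      obtain ⟨i1, o1⟩ := x
      obtain ⟨i2, o2⟩ := x0
      simp only at hx hx0
      obtain ⟨hx1, rfl⟩ := hx
      obtain ⟨hx2, rfl⟩ := hx0
      rw [Val_common A η E w y hR _ o1 o2 hx1 hx2]
    rw [Finset.sum_congr rfl hc, ← Finset.sum_mul, h.kap.sum i, zero_mul]

end Pool.Agent.Lib.MP_4e7804_co.Gp
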