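import Pool.Agent.Lib.MP_4e7804_co.Gp.Spec
import Pool.Agent.Lib.MP_4e7804_co.Gp.Val

/-! MP_4e7804_co, Theorem G+: the circuits form an arrangement. -/

set_option autoImplicit false

open Finset

namespace Pool.Agent.Lib.MP_4e7804_co.Gp

theorem tArrG : StmtArrG := by
  intro d A η j q
  refine ⟨?_, ?_⟩
  · rintro E x ⟨w, hw⟩
    have h1 := (tVal d A η E.1 (mem_CF.1 E.2.1) w (full j q x)).2 hw
    rw [sum_full] at h1
    change (∑ k, nu E.1 (j.succAbove k) * x k) + (nu E.1 j * q + et η E.1) = 0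
    linarith
  · intro E h
    obtain ⟨k, hk⟩ := E.2.2
    exact hk (congrFun h k)

end Pool.Agent.Lib.MP_4e7804_co.Gp
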