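import Pool.Agent.Lib.MP_4e7804_co.Gp.Spec

/-! MP_4e7804_co, Theorem G+, module CountF: the number of families of label functions. -/

set_option autoImplicit false

open Finset

namespace Pool.Agent.Lib.MP_4e7804_co.Gp

theorem tCountF (hAr : StmtArith) : StmtCountF := by
  classical
  intro d C₀
  refine ⟨(C₀ * 4 ^ (d + 1) + 1) ^ d, ?_⟩
  intro v j hv1 hvj Λ hΛ r hr
  set M : ℕ := ∏ i ∈ univ.erase j, v i ^ (d - 1) with hM
  set X : Set (Fin r → Fin (d + 1) → Lab d) := {F : Fin r → Fin (d + 1) → Lab d |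
    (∀ s, F s ∈ Λ) ∧ (r = d → ∀ i, i ≠ j → ∃ s, i ∉ ptc (F s))} with hX
  -- the label functions with a given set of colours
  let L : Finset (Fin (d + 1)) → Finset (Fin (d + 1) → Lab d) := fun V => (hΛ V).1.toFinset
  have hL : ∀ V f, f ∈ L V ↔ f ∈ Λ ∧ ptc f = V := by
    intro V f
    simp only [L, Set.Finite.mem_toFinset, Set.mem_ofPred_eq]
  have hLc : ∀ V, (L V).card ≤ C₀ * sp v (d - 1) V := by
    intro V
    have h1 := (hΛ V).2
    rwa [Set.ncard_eq_toFinset_card _ (hΛ V).1] at h1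
  let gd : Finset (Fin r → Finset (Fin (d + 1))) :=
    univ.filter fun V => r = d → ∀ i, i ≠ j → ∃ s, i ∉ V s
  set Y : Finset (Fin r → Fin (d + 1) → Lab d) :=
    gd.biUnion fun V => Fintype.piFinset fun s => L (V s) with hY
  have hXY : X ⊆ (Y : Set (Fin r → Fin (d + 1) → Lab d)) := by
    rintro F ⟨h1, h2⟩
    rw [mem_coe, hY, mem_biUnion]
    refine ⟨fun s => ptc (F s), ?_, ?_⟩
    · simp only [gd, mem_filter, mem_univ, true_and]
      exact h2
    · rw [Fintype.mem_piFinset]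
      intro s
      rw [hL]
      exact ⟨h1 s, rfl⟩
  refine ⟨Y.finite_toSet.subset hXY, ?_⟩
  have h1 : X.ncard ≤ Y.card := by
    have := Set.ncard_le_ncard hXY Y.finite_toSet
    rwa [Set.ncard_coe_finset] at this
  -- one set of colours
  have h2 : ∀ V ∈ gd, (Fintype.piFinset fun s => L (V s)).card ≤
      C₀ ^ r * ((2 ^ (d + 1)) ^ r * M) := by
    intro V hV
    simp only [gd, mem_filter, mem_univ, true_and] at hV
    rw [Fintype.card_piFinset]
    have h3 : ∏ s, (L (V s)).card ≤ ∏ s, (C₀ * sp v (d - 1) (V s)) :=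
      prod_le_prod (fun _ _ => Nat.zero_le _) fun s _ => hLc (V s)
    refine h3.trans ?_
    rw [prod_mul_distrib, prod_const, card_univ, Fintype.card_fin]
    refine Nat.mul_le_mul_left _ ?_
    unfold sp
    rw [prod_univ_sum]
    have h4 : ∀ J ∈ Fintype.piFinset (fun s => (V s).powerset.filter fun J => J.card ≤ d - 1),
        ∏ s, ∏ i ∈ J s, v i ≤ M := by
      intro J hJ
      rw [Fintype.mem_piFinset] at hJ
      refine hAr d v j hv1 hvj r hr J (fun s => (mem_filter.1 (hJ s)).2) fun hrd i hij => ?_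
      obtain ⟨s, hs⟩ := hV hrd i hij
      exact ⟨s, fun h => hs (mem_powerset.1 (mem_filter.1 (hJ s)).1 h)⟩
    refine (sum_le_card_nsmul _ _ _ h4).trans ?_
    rw [smul_eq_mul]
    refine Nat.mul_le_mul_right _ ?_
    rw [Fintype.card_piFinset]
    have h5 : ∏ s : Fin r, ((V s).powerset.filter fun J => J.card ≤ d - 1).card ≤
        ∏ _s : Fin r, 2 ^ (d + 1) := by
      refine prod_le_prod (fun _ _ => Nat.zero_le _) fun s _ => ?_
      refine (card_filter_le _ _).trans ?_
      rw [card_powerset]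
      refine Nat.pow_le_pow_right (by norm_num) ?_
      have := card_le_univ (V s)
      rwa [Fintype.card_fin] at this
    refine h5.trans ?_
    rw [prod_const, card_univ, Fintype.card_fin]
  have h3 : Y.card ≤ (2 ^ (d + 1)) ^ r * (C₀ ^ r * ((2 ^ (d + 1)) ^ r * M)) := by
    refine card_biUnion_le.trans ((sum_le_card_nsmul _ _ _ h2).trans ?_)
    rw [smul_eq_mul]
    refine Nat.mul_le_mul_right _ ?_
    refine (card_le_univ gd).trans ?_
    rw [Fintype.card_fun, Fintype.card_finset, Fintype.card_fin, Fintype.card_fin]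
  refine h1.trans (h3.trans ?_)
  have h4 : (2 ^ (d + 1)) ^ r * (C₀ ^ r * ((2 ^ (d + 1)) ^ r * M)) =
      (C₀ * 4 ^ (d + 1)) ^ r * M := by
    have h5 : (4 : ℕ) ^ (d + 1) = 2 ^ (d + 1) * 2 ^ (d + 1) := by
      rw [← mul_pow]
      norm_num
    rw [h5, mul_pow, mul_pow]
    ring
  rw [h4]
  refine Nat.mul_le_mul_right _ ?_
  exact (Nat.pow_le_pow_left (Nat.le_succ _) r).trans (Nat.pow_le_pow_right (Nat.succ_pos _) hr)

end Pool.Agent.Lib.MP_4e7804_co.Gp
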