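import Pool.Agent.Lib.MP_4e7804_co.Gp.Spec

/-! MP_4e7804_co, Theorem G+: the regions are open, convex and disjoint. -/

set_option autoImplicit false

open Finset

namespace Pool.Agent.Lib.MP_4e7804_co.Gp

/-- the value of an exponent in the chart is affine -/
theorem Dgo_aff {d : ℕ} (j : Fin (d + 1)) (q : ℝ) (α : Fin (d + 1) →₀ ℕ) (x : Fin d → ℝ) :
    ∑ i, (α i : ℝ) * full j q x i = (α j : ℝ) * q + ∑ k, (α (j.succAbove k) : ℝ) * x k :=
  sum_full j q x fun i => (α i : ℝ)

theorem Dgo_cont {d : ℕ} (j : Fin (d + 1)) (q : ℝ) (α : Fin (d + 1) →₀ ℕ) :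
    Continuous fun x : Fin d → ℝ => ∑ i, (α i : ℝ) * full j q x i := by
  simp_rw [Dgo_aff]
  exact continuous_const.add
    (continuous_finsetSum _ fun k _ => continuous_const.mul (continuous_apply k))

theorem Dgo_comb {d : ℕ} (j : Fin (d + 1)) (q : ℝ) (α : Fin (d + 1) →₀ ℕ) (x y : Fin d → ℝ)
    (a b : ℝ) (hab : a + b = 1) :
    ∑ i, (α i : ℝ) * full j q (a • x + b • y) i =
      a * ∑ i, (α i : ℝ) * full j q x i + b * ∑ i, (α i : ℝ) * full j q y i := by
  rw [Dgo_aff, Dgo_aff, Dgo_aff]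
  have h1 : ∑ k, (α (j.succAbove k) : ℝ) * (a • x + b • y) k =
      a * ∑ k, (α (j.succAbove k) : ℝ) * x k + b * ∑ k, (α (j.succAbove k) : ℝ) * y k := by
    rw [Finset.mul_sum, Finset.mul_sum, ← Finset.sum_add_distrib]
    refine Finset.sum_congr rfl fun k _ => ?_
    simp only [Pi.add_apply, Pi.smul_apply, smul_eq_mul]
    ring
  rw [h1]
  have : (α j : ℝ) * q = a * ((α j : ℝ) * q) + b * ((α j : ℝ) * q) := by
    rw [← add_mul, hab, one_mul]
  linear_combination this

theorem tDgo : StmtDgo := by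
  classical
  intro d S ϕ j q
  refine ⟨?_, ?_, ?_⟩
  · intro α
    have : Dg S ϕ j q α = ⋂ β ∈ S, {x | β ≠ α → (ϕ α : ℝ) + ∑ i, (α i : ℝ) * full j q x i <
        (ϕ β : ℝ) + ∑ i, (β i : ℝ) * full j q x i} := by
      ext x
      rw [Set.mem_iInter₂]
      rfl
    rw [this]
    refine isOpen_biInter_finset fun β _ => ?_
    by_cases h : β ≠ α
    · have : {x | β ≠ α → (ϕ α : ℝ) + ∑ i, (α i : ℝ) * full j q x i <
          (ϕ β : ℝ) + ∑ i, (β i : ℝ) * full j q x i} =
          {x | (ϕ α : ℝ) + ∑ i, (α i : ℝ) * full j q x i <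
            (ϕ β : ℝ) + ∑ i, (β i : ℝ) * full j q x i} := by
        ext x
        exact ⟨fun hx => hx h, fun hx _ => hx⟩
      rw [this]
      exact isOpen_lt (continuous_const.add (Dgo_cont j q α))
        (continuous_const.add (Dgo_cont j q β))
    · have : {x : Fin d → ℝ | β ≠ α → (ϕ α : ℝ) + ∑ i, (α i : ℝ) * full j q x i <
          (ϕ β : ℝ) + ∑ i, (β i : ℝ) * full j q x i} = Set.univ := by
        ext x
        exact ⟨fun _ => Set.mem_univ _, fun _ hx => absurd hx h⟩
      rw [this]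
      exact isOpen_univ
  · intro α x hx y hy a b ha hb hab β hβ hne
    have h1 := hx β hβ hne
    have h2 := hy β hβ hne
    rw [Dgo_comb j q α x y a b hab, Dgo_comb j q β x y a b hab]
    have e1 : (ϕ α : ℝ) = a * ϕ α + b * ϕ α := by rw [← add_mul, hab, one_mul]
    have e2 : (ϕ β : ℝ) = a * ϕ β + b * ϕ β := by rw [← add_mul, hab, one_mul]
    rw [e1, e2]
    rcases eq_or_lt_of_le ha with rfl | ha'
    · have : b = 1 := by linarith
      subst this
      linarith
    · have h3 := mul_lt_mul_of_pos_left h1 ha'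
      have h4 := mul_le_mul_of_nonneg_left h2.le hb
      nlinarith
  · intro α hα β hβ hne
    rw [Set.disjoint_left]
    intro x hx hx'
    have h1 := hx β hβ hne.symm
    have h2 := hx' α hα hne
    linarith

end Pool.Agent.Lib.MP_4e7804_co.Gp
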