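import Pool.Agent.Lib.MP_4e7804_co.Gp.Spec

/-!
# MP_4e7804_co, Theorem G+, module FC: Farkas and Caratheodory for a finite family
-/

set_option autoImplicit false

open Finset

namespace Pool.Agent.Lib.MP_4e7804_co.Gp

/-- Caratheodory for cones. -/
theorem fc_cara {m : ℕ} {ι : Type} (a : ι → Fin m → ℝ) (x : Fin m → ℝ) (B0 : Finset ι)
    (c0 : ι → ℝ) (h0 : ∀ t ∈ B0, 0 < c0 t) (hx : x = ∑ t ∈ B0, c0 t • a t) :
    ∃ (B : Finset ι) (c : ι → ℝ), LinearIndependent ℝ (fun t : B => a t) ∧ (∀ t ∈ B, 0 < c t) ∧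
      x = ∑ t ∈ B, c t • a t := by
  classical
  induction hn : B0.card using Nat.strong_induction_on generalizing B0 c0 with
  | _ n ih =>
    by_cases hli : LinearIndependent ℝ (fun t : B0 => a t)
    · exact ⟨B0, c0, hli, h0, hx⟩
    · have hli' : ¬ LinearIndepOn ℝ a (B0 : Set ι) := hli
      rw [linearIndepOn_finset_iff] at hli'
      push Not at hli'
      obtain ⟨g0, hg0, t0, ht0, hgt0⟩ := hli'
      -- make a coefficient positive
      obtain ⟨g, hg, t1, ht1, hgt1⟩ : ∃ g : ι → ℝ, ∑ t ∈ B0, g t • a t = 0 ∧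
          ∃ t1 ∈ B0, 0 < g t1 := by
        rcases lt_or_gt_of_ne hgt0 with h | h
        · refine ⟨fun t => - g0 t, ?_, t0, ht0, by simpa using h⟩
          simp only [neg_smul, Finset.sum_neg_distrib, hg0, neg_zero]
        · exact ⟨g0, hg0, t0, ht0, h⟩
      obtain ⟨t2, ht2, hmin⟩ := Finset.exists_min_image (B0.filter fun t => 0 < g t)
        (fun t => c0 t / g t) ⟨t1, by simp [ht1, hgt1]⟩
      rw [mem_filter] at ht2
      set lm := c0 t2 / g t2 with hlm
      have hlm0 : 0 < lm := div_pos (h0 t2 ht2.1) ht2.2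
      have hnn : ∀ t ∈ B0, 0 ≤ c0 t - lm * g t := by
        intro t ht
        by_cases hgt : 0 < g t
        · have h1 := hmin t (by simp [ht, hgt])
          have h2 : lm * g t ≤ c0 t := by
            rw [← le_div_iff₀ hgt]; exact h1
          linarith
        · have h1 := h0 t ht
          have h2 : lm * g t ≤ 0 := mul_nonpos_of_nonneg_of_nonpos hlm0.le (not_lt.1 hgt)
          linarith
      have hz : c0 t2 - lm * g t2 = 0 := by
        rw [hlm, div_mul_cancel₀ _ ht2.2.ne', sub_self]
      have hx2 : x = ∑ t ∈ B0.filter (fun t => 0 < c0 t - lm * g t), (c0 t - lm * g t) • a t := by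
        have h1 : ∑ t ∈ B0, (c0 t - lm * g t) • a t = x := by
          simp only [sub_smul, Finset.sum_sub_distrib, mul_smul]
          rw [← Finset.smul_sum, hg, smul_zero, sub_zero, ← hx]
        rw [← h1]
        symm
        apply Finset.sum_subset (Finset.filter_subset _ _)
        intro t ht hnt
        have h2 : ¬ 0 < c0 t - lm * g t := fun h => hnt (by simp [ht]; linarith)
        have h3 : c0 t - lm * g t = 0 := le_antisymm (not_lt.1 h2) (hnn t ht)
        rw [h3, zero_smul]
      refine ih _ ?_ (B0.filter (fun t => 0 < c0 t - lm * g t)) (fun t => c0 t - lm * g t)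
        (fun t ht => (mem_filter.1 ht).2) hx2 rfl
      rw [← hn]
      apply Finset.card_lt_card
      refine ⟨Finset.filter_subset _ _, fun hsub => ?_⟩
      have := (mem_filter.1 (hsub ht2.1)).2
      rw [hz] at this
      exact lt_irrefl _ this

/-- The cone of an independent family is closed. -/
theorem fc_closed {m : ℕ} {ι : Type} (a : ι → Fin m → ℝ) (B : Finset ι)
    (hB : LinearIndependent ℝ (fun t : B => a t)) :
    IsClosed {x : Fin m → ℝ | ∃ c : ι → ℝ, (∀ t ∈ B, 0 ≤ c t) ∧ x = ∑ t ∈ B, c t • a t} := by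
  classical
  have hker : LinearMap.ker (Fintype.linearCombination ℝ (fun t : B => a t)) = ⊥ :=
    LinearMap.ker_eq_bot.2 hB.fintypeLinearCombination_injective
  have hemb := LinearMap.isClosedEmbedding_of_injective hker
  have himg : {x : Fin m → ℝ | ∃ c : ι → ℝ, (∀ t ∈ B, 0 ≤ c t) ∧ x = ∑ t ∈ B, c t • a t} =
      (Fintype.linearCombination ℝ (fun t : B => a t)) '' Set.Ici 0 := by
    ext x
    constructor
    · rintro ⟨c, hc, rfl⟩
      refine ⟨fun t => c t, fun t => hc t t.2, ?_⟩
      rw [Fintype.linearCombination_apply]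
      exact Finset.sum_coe_sort B (fun t => c t • a t)
    · rintro ⟨c, hc, rfl⟩
      refine ⟨fun t => if h : t ∈ B then c ⟨t, h⟩ else 0, fun t ht => ?_, ?_⟩
      · simp only [dif_pos ht]
        exact hc _
      · rw [Fintype.linearCombination_apply, ← Finset.sum_coe_sort B]
        refine Finset.sum_congr rfl fun t _ => ?_
        simp
  rw [himg]
  exact hemb.isClosedMap _ isClosed_Ici

theorem tFC : StmtFC := by
  classical
  intro m ι _ a l hl
  -- the cone
  let C : Set (Fin m → ℝ) := (Fintype.linearCombination ℝ a) '' Set.Ici 0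
  have hC : ∀ x, x ∈ C ↔ ∃ c : ι → ℝ, (∀ t, 0 ≤ c t) ∧ x = ∑ t, c t • a t := by
    intro x
    constructor
    · rintro ⟨c, hc, rfl⟩
      exact ⟨c, fun t => hc t, Fintype.linearCombination_apply _ _ _⟩
    · rintro ⟨c, hc, rfl⟩
      exact ⟨c, fun t => hc t, Fintype.linearCombination_apply _ _ _⟩
  have hcara : ∀ x ∈ C, ∃ (B : Finset ι) (c : ι → ℝ),
      LinearIndependent ℝ (fun t : B => a t) ∧ (∀ t ∈ B, 0 < c t) ∧ x = ∑ t ∈ B, c t • a t := by
    intro x hx
    obtain ⟨c, hc, hx⟩ := (hC x).1 hx
    refine fc_cara a x (univ.filter fun t => 0 < c t) c (fun t ht => (mem_filter.1 ht).2) ?_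
    rw [hx]
    symm
    apply Finset.sum_subset (Finset.filter_subset _ _)
    intro t _ hnt
    have h2 : ¬ 0 < c t := fun h => hnt (by simp [h])
    have h3 : c t = 0 := le_antisymm (not_lt.1 h2) (hc t)
    rw [h3, zero_smul]
  have hclosed : IsClosed C := by
    have hU : C = ⋃ B ∈ {B : Finset ι | LinearIndependent ℝ (fun t : B => a t)},
        {x : Fin m → ℝ | ∃ c : ι → ℝ, (∀ t ∈ B, 0 ≤ c t) ∧ x = ∑ t ∈ B, c t • a t} := by
      ext x
      simp only [Set.mem_iUnion, exists_prop]
      constructor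
      · intro hx
        obtain ⟨B, c, h1, h2, h3⟩ := hcara x hx
        exact ⟨B, h1, c, fun t ht => (h2 t ht).le, h3⟩
      · rintro ⟨B, _, c, h2, h3⟩
        rw [hC]
        refine ⟨fun t => if t ∈ B then c t else 0, fun t => ?_, ?_⟩
        · by_cases ht : t ∈ B
          · simp only [ht, if_true]; exact h2 t ht
          · simp [ht]
        · rw [h3]
          simp only [ite_smul, zero_smul]
          rw [Finset.sum_ite_mem, Finset.univ_inter]
    rw [hU]
    exact Set.Finite.isClosed_biUnion (Set.toFinite _) (fun B hB => fc_closed a B hB)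
  have hconv : Convex ℝ C := (convex_Ici 0).linear_image _
  by_cases hlC : l ∈ C
  · exact hcara l hlC
  · exfalso
    obtain ⟨f, s, hfl, hfC⟩ := geometric_hahn_banach_point_closed hconv hclosed hlC
    -- the vector of `f`
    have hf : ∀ x : Fin m → ℝ, f x = x ⬝ᵥ (fun k => f (Pi.single k 1)) := by
      intro x
      have h1 : x = ∑ k, x k • (Pi.single k (1 : ℝ) : Fin m → ℝ) := by
        funext j
        simp [Finset.sum_apply, Pi.single_apply]
      conv_lhs => rw [h1]
      rw [map_sum]
      simp only [map_smul, smul_eq_mul, dotProduct]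
    have h0 : (0 : Fin m → ℝ) ∈ C := by
      rw [hC]
      exact ⟨0, fun t => le_refl _, by simp⟩
    have hs : s < 0 := by
      have := hfC 0 h0
      rwa [map_zero] at this
    have hpos : ∀ t, 0 ≤ f (a t) := by
      intro t
      by_contra hneg
      push Not at hneg
      obtain ⟨n, hn⟩ := exists_nat_gt (s / f (a t))
      have h1 : (n : ℝ) • a t ∈ C := by
        rw [hC]
        refine ⟨fun t' => if t' = t then (n : ℝ) else 0, fun t' => ?_, ?_⟩
        · by_cases h : t' = t <;> simp [h]
        · simp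
      have h2 := hfC _ h1
      rw [map_smul, smul_eq_mul] at h2
      rw [div_lt_iff_of_neg hneg] at hn
      linarith
    have h1 := hl (fun k => f (Pi.single k 1)) (fun t => by rw [← hf]; exact hpos t)
    rw [← hf] at h1
    linarith

end Pool.Agent.Lib.MP_4e7804_co.Gp
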