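import Pool.Agent.Lib.MP_4e7804_co.Gp.Spec

/-! MP_4e7804_co, Theorem G+: labels exist. -/

set_option autoImplicit false

open Finset

namespace Pool.Agent.Lib.MP_4e7804_co.Gp

/-- the elements of a colour of a circuit come in pairs with opposite coefficients -/
theorem LabE_pair {d : ℕ} {A : Fin (d + 1) → Finset (Fin d → ℤ)} {E : Finset (Elt d)}
    (h : Cir A E) {i : Fin (d + 1)} {o : Option (Fin d → ℤ)} (ho : (i, o) ∈ E) :
    ∃ o', o' ≠ o ∧ (i, o') ∈ E ∧ kap E (i, o') = -kap E (i, o) ∧
      ∀ o'', (i, o'') ∈ E → o'' = o ∨ o'' = o' := by
  classical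
  have hmem : (i, o) ∈ E.filter fun x => x.1 = i := by
    rw [Finset.mem_filter]
    exact ⟨ho, rfl⟩
  have hex : ∃ x ∈ E.filter (fun x => x.1 = i), x ≠ (i, o) := by
    by_contra hcon
    push Not at hcon
    have hs : E.filter (fun x => x.1 = i) = {(i, o)} := by
      ext x
      rw [Finset.mem_singleton]
      constructor
      · exact hcon x
      · rintro rfl
        exact hmem
    have h1 := h.kap.sum i
    rw [hs, Finset.sum_singleton] at h1
    exact (h.kap.supp (i, o)).2 ho h1
  obtain ⟨⟨i', o'⟩, hx, hne⟩ := hex
  rw [Finset.mem_filter] at hx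
  obtain ⟨hx1, hx2⟩ := hx
  simp only at hx2
  subst hx2
  have hne' : o' ≠ o := fun hh => hne (by rw [hh])
  have hmem' : (i', o') ∈ E.filter fun x => x.1 = i' := by
    rw [Finset.mem_filter]
    exact ⟨hx1, rfl⟩
  have hsub : ({(i', o), (i', o')} : Finset (Elt d)) ⊆ E.filter fun x => x.1 = i' := by
    intro x hx
    rw [Finset.mem_insert, Finset.mem_singleton] at hx
    rcases hx with rfl | rfl
    · exact hmem
    · exact hmem'
  have hcard : ({(i', o), (i', o')} : Finset (Elt d)).card = 2 := by
    rw [Finset.card_pair]
    intro hh
    exact hne' (Prod.mk.inj hh).2.symm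
  have heq : ({(i', o), (i', o')} : Finset (Elt d)) = E.filter fun x => x.1 = i' :=
    Finset.eq_of_subset_of_card_le hsub (by rw [hcard]; exact h.two i')
  refine ⟨o', hne', hx1, ?_, ?_⟩
  · have h1 := h.kap.sum i'
    rw [← heq, Finset.sum_pair] at h1
    · linarith
    · intro hh
      exact hne' (Prod.mk.inj hh).2.symm
  · intro o'' ho''
    have : (i', o'') ∈ E.filter fun x => x.1 = i' := by
      rw [Finset.mem_filter]
      exact ⟨ho'', rfl⟩
    rw [← heq, Finset.mem_insert, Finset.mem_singleton] at this
    rcases this with hh | hh
    · exact Or.inl (Prod.mk.inj hh).2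
    · exact Or.inr (Prod.mk.inj hh).2

theorem tLabE : StmtLabE := by
  classical
  intro d A E s h hs
  have key : ∀ i : Fin (d + 1), ∃ a : Lab d, (a = none ↔ ∀ o, (i, o) ∉ E) ∧
      (a = some none ↔ (i, none) ∈ E ∧ s * kap E (i, none) < 0) ∧
      ∀ p b, a = some (some (p, b)) ↔
        (i, some p) ∈ E ∧ s * kap E (i, some p) < 0 ∧ (b = true ↔ (i, none) ∈ E) := by
    intro i
    by_cases hi : ∀ o, (i, o) ∉ E
    · refine ⟨none, ?_, ?_, ?_⟩
      · simp [hi]
      · simp [hi none]
      · intro p b
        simp [hi (some p)]
    · push Not at hi
      obtain ⟨o1, ho1⟩ := hi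
      -- the negative element
      have hneg : ∃ o, (i, o) ∈ E ∧ s * kap E (i, o) < 0 ∧
          ∀ o'', (i, o'') ∈ E → s * kap E (i, o'') < 0 → o'' = o := by
        obtain ⟨o2, -, ho2, hk, hall⟩ := LabE_pair h ho1
        have hk1 : s * kap E (i, o1) ≠ 0 := mul_ne_zero hs ((h.kap.supp _).2 ho1)
        rcases lt_or_gt_of_ne hk1 with hlt | hgt
        · refine ⟨o1, ho1, hlt, ?_⟩
          intro o'' ho'' hlt''
          rcases hall o'' ho'' with rfl | rfl
          · rfl
          · rw [hk] at hlt''
            nlinarith
        · refine ⟨o2, ho2, by rw [hk]; nlinarith, ?_⟩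
          intro o'' ho'' hlt''
          rcases hall o'' ho'' with rfl | rfl
          · linarith
          · rfl
      obtain ⟨o, ho, hlt, huniq⟩ := hneg
      cases o with
      | none =>
        refine ⟨some none, ?_, ?_, ?_⟩
        · constructor
          · intro hh
            simp at hh
          · intro hh
            exact absurd ho (hh none)
        · exact ⟨fun _ => ⟨ho, hlt⟩, fun _ => rfl⟩
        · intro p b
          constructor
          · intro hh
            simp at hh
          · rintro ⟨h1, h2, -⟩
            have := huniq (some p) h1 h2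
            simp at this
      | some p =>
        refine ⟨some (some (p, decide ((i, none) ∈ E))), ?_, ?_, ?_⟩
        · constructor
          · intro hh
            simp at hh
          · intro hh
            exact absurd ho (hh (some p))
        · constructor
          · intro hh
            simp at hh
          · rintro ⟨h1, h2⟩
            have := huniq none h1 h2
            simp at this
        · intro p' b
          constructor
          · intro hh
            simp only [Option.some.injEq, Prod.mk.injEq] at hh
            obtain ⟨rfl, rfl⟩ := hh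
            exact ⟨ho, hlt, by simp⟩
          · rintro ⟨h1, h2, h3⟩
            have h4 := huniq (some p') h1 h2
            simp only [Option.some.injEq] at h4
            subst h4
            have h5 : decide ((i, none) ∈ E) = b := by
              by_cases hb : (i, none) ∈ E
              · rw [h3.2 hb]
                simp [hb]
              · have : b = false := by
                  cases b with
                  | false => rfl
                  | true => exact absurd (h3.1 rfl) hb
                rw [this]
                simp [hb]
            rw [h5]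
  choose f hf using key
  exact ⟨f, hf⟩

end Pool.Agent.Lib.MP_4e7804_co.Gp
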