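import Pool.Agent.Lib.MP_4e7804_co.Gp.Spec
import Pool.Agent.Lib.MP_4e7804_co.Gp.LabE

/-! MP_4e7804_co, Theorem G+: far points have far witnesses. -/

set_option autoImplicit false

open Finset

namespace Pool.Agent.Lib.MP_4e7804_co.Gp

theorem tFar : StmtFar := by
  classical
  intro d A η ρ
  refine ⟨1 + ∑ i, ∑ p ∈ A i, ((∑ k, |(p k : ℝ)|) * |ρ| + |η i p|), ?_, ?_⟩
  · have : (0 : ℝ) ≤ ∑ i, ∑ p ∈ A i, ((∑ k, |(p k : ℝ)|) * |ρ| + |η i p|) := by positivity
    linarith
  · intro E w y h hnu hR hy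
    obtain ⟨i, hi⟩ := hnu
    have hmem : (i, none) ∈ E := (h.kap.supp _).1 hi
    obtain ⟨o, hne, ho, -⟩ := LabE_pair h hmem
    cases o with
    | none => exact absurd rfl hne
    | some p =>
      obtain ⟨-, h2⟩ := hR i p ho
      have h3 := h2 hmem
      by_contra hcon
      push Not at hcon
      have h4 : |y i| ≤ (∑ k, |(p k : ℝ)|) * |ρ| + |η i p| := by
        rw [h3]
        unfold val
        refine le_trans (abs_add_le _ _) ?_
        refine add_le_add ?_ le_rfl
        refine le_trans (Finset.abs_sum_le_sum_abs _ _) ?_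
        rw [Finset.sum_mul]
        refine Finset.sum_le_sum fun k _ => ?_
        rw [abs_mul]
        exact mul_le_mul_of_nonneg_left (le_trans (hcon k).le (le_abs_self ρ)) (abs_nonneg _)
      have h5 : (∑ k, |(p k : ℝ)|) * |ρ| + |η i p| ≤
          ∑ i, ∑ p ∈ A i, ((∑ k, |(p k : ℝ)|) * |ρ| + |η i p|) := by
        refine le_trans ?_ (Finset.single_le_sum (f := fun i => ∑ p ∈ A i,
          ((∑ k, |(p k : ℝ)|) * |ρ| + |η i p|)) (fun i _ => by positivity) (Finset.mem_univ i))
        exact Finset.single_le_sum (f := fun p : Fin d → ℤ =>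
          ((∑ k, |(p k : ℝ)|) * |ρ| + |η i p|)) (fun p _ => by positivity) (h.sub i p ho)
      have h6 := hy i
      linarith

end Pool.Agent.Lib.MP_4e7804_co.Gp
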