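import Pool.Agent.Lib.MP_4e7804_co.Gp.Spec
import Pool.Agent.Lib.MP_4e7804_co.Up.Dirs

/-!
# The final statement
-/

set_option autoImplicit false

open Finset

namespace Pool.Agent.Lib.MP_4e7804_co.Gp

theorem Fin_image_inj {m : ℕ} :
    Function.Injective (fun (a : Fin m →₀ ℕ) (i : Fin m) => (a i : ℝ)) := by
  intro a b h
  ext i
  have h1 : (a i : ℝ) = (b i : ℝ) := congrFun h i
  exact_mod_cast h1

theorem Fin_exd {d : ℕ} (S : Finset (Fin (d + 1) →₀ ℕ)) (x : Fin (d + 1) → ℝ)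
    (hx : x ∈ (convexHull ℝ ((fun (a : Fin (d + 1) →₀ ℕ) (i : Fin (d + 1)) => (a i : ℝ)) ''
      (S : Set (Fin (d + 1) →₀ ℕ)))).extremePoints ℝ) :
    ∃ α, (α ∈ S ∧ Exd S α) ∧ (fun i => (α i : ℝ)) = x := by
  classical
  have hx' : x ∈ (convexHull ℝ ((S.image
      (fun (a : Fin (d + 1) →₀ ℕ) (i : Fin (d + 1)) => (a i : ℝ)) :
        Finset (Fin (d + 1) → ℝ)) : Set (Fin (d + 1) → ℝ))).extremePoints ℝ := by
    rw [Finset.coe_image]
    exact hx
  obtain ⟨hxS, y, hy, hy0⟩ := exists_dir _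
    (univ.image fun i : Fin (d + 1) => (Pi.single i 1 : Fin (d + 1) → ℝ)) (by
      intro μ hμ
      obtain ⟨i, -, rfl⟩ := Finset.mem_image.1 hμ
      intro h
      have := congrFun h i
      simp at this) x hx'
  obtain ⟨α, hα, rfl⟩ := Finset.mem_image.1 hxS
  refine ⟨α, ⟨hα, y, fun i hi => ?_, fun β hβ hne => ?_⟩, rfl⟩
  · apply hy0 (Pi.single i 1) (Finset.mem_image_of_mem _ (Finset.mem_univ i))
    rw [Finset.sum_eq_single i]
    · rw [hi]
      simp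
    · intro k _ hk
      rw [Pi.single_eq_of_ne hk, zero_mul]
    · intro h
      exact absurd (Finset.mem_univ i) h
  · have h1 : ∑ i, (α i : ℝ) * (y i : ℝ) < ∑ i, (β i : ℝ) * (y i : ℝ) :=
      hy _ (Finset.mem_image_of_mem _ hβ) (fun h => hne (Fin_image_inj h))
    exact_mod_cast h1

/-- The final statement. -/
theorem tFin (h : StmtMainA) : StmtFin := by
  classical
  intro d hd
  obtain ⟨C, hC⟩ := h d hd
  refine ⟨C, fun A j hA hj => ?_⟩
  obtain ⟨η, hη, hmain⟩ := hC A j hA hj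
  refine ⟨η, hη, fun S ϕ hS => ?_⟩
  have hHT : HT A (fun i a => (η i a : ℝ)) S ϕ := by
    intro z hz
    obtain ⟨w, hw⟩ := hS z hz
    exact ⟨fun k => (w k : ℝ), hw⟩
  have h1 := hmain S ϕ hHT
  rw [Finset.prod_pow] at h1
  refine le_trans ?_ h1
  have hfin : ({α | α ∈ S ∧ Exd S α} : Set (Fin (d + 1) →₀ ℕ)).Finite :=
    S.finite_toSet.subset fun α hα => hα.1
  have hsub : (convexHull ℝ ((fun (a : Fin (d + 1) →₀ ℕ) (i : Fin (d + 1)) => (a i : ℝ)) ''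
      (S : Set (Fin (d + 1) →₀ ℕ)))).extremePoints ℝ ⊆
      (fun (a : Fin (d + 1) →₀ ℕ) (i : Fin (d + 1)) => (a i : ℝ)) ''
        {α | α ∈ S ∧ Exd S α} := by
    intro x hx
    obtain ⟨α, hα, rfl⟩ := Fin_exd S x hx
    exact ⟨α, hα, rfl⟩
  unfold numVertices
  calc _ ≤ ((fun (a : Fin (d + 1) →₀ ℕ) (i : Fin (d + 1)) => (a i : ℝ)) ''
        {α | α ∈ S ∧ Exd S α}).ncard := Set.ncard_le_ncard hsub (hfin.image _)
    _ = ({α | α ∈ S ∧ Exd S α} : Set (Fin (d + 1) →₀ ℕ)).ncard :=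
        Set.ncard_image_of_injective _ Fin_image_inj
    _ = Nat.card {α // α ∈ S ∧ Exd S α} := rfl

end Pool.Agent.Lib.MP_4e7804_co.Gp
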