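import Pool.Agent.Lib.MP_4e7804_co.Gp.Spec

/-! MP_4e7804_co, Theorem G+: generic linear forms. -/

set_option autoImplicit false

open Finset

namespace Pool.Agent.Lib.MP_4e7804_co.Gp

/-- a nonzero vector orthogonal to a proper subspace -/
theorem GenL_orth {m : ℕ} (p : Submodule ℝ (Fin m → ℝ)) (hp : p ≠ ⊤) :
    ∃ v : Fin m → ℝ, v ≠ 0 ∧ ∀ x ∈ p, v ⬝ᵥ x = 0 := by
  obtain ⟨f, hf, hpf⟩ := Submodule.exists_le_ker_of_lt_top p (lt_top_iff_ne_top.2 hp)
  have hfx : ∀ x : Fin m → ℝ, f x = (fun k => f (Pi.single k 1)) ⬝ᵥ x := by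
    intro x
    have hx : x = ∑ k, x k • (Pi.single k 1 : Fin m → ℝ) := by
      funext i
      simp [Finset.sum_apply, Pi.single_apply]
    conv_lhs => rw [hx]
    rw [map_sum]
    unfold dotProduct
    refine Finset.sum_congr rfl fun k _ => ?_
    rw [map_smul, smul_eq_mul, mul_comm]
  refine ⟨fun k => f (Pi.single k 1), ?_, ?_⟩
  · intro h
    apply hf
    apply LinearMap.ext
    intro x
    rw [hfx x, h, zero_dotProduct]
    rfl
  · intro x hx
    rw [← hfx x]
    exact LinearMap.mem_ker.1 (hpf hx)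

theorem tGenL (hMom : StmtMom) (hXfin : StmtXfin) : StmtGenL := by
  classical
  intro m ι _ a β
  have hch : ∀ B : Finset ι, ∃ v : Fin m → ℝ,
      Submodule.span ℝ (a '' (B : Set ι)) ≠ ⊤ → v ≠ 0 ∧
        ∀ x ∈ Submodule.span ℝ (a '' (B : Set ι)), v ⬝ᵥ x = 0 := by
    intro B
    by_cases h : Submodule.span ℝ (a '' (B : Set ι)) = ⊤
    · exact ⟨0, fun h' => absurd h h'⟩
    · obtain ⟨v, hv⟩ := GenL_orth _ h
      exact ⟨v, fun _ => hv⟩
  choose v hv using hch
  have hX := hXfin m ι inferInstance a β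
  obtain ⟨t, ht, hF⟩ := hMom m
    ((((univ : Finset (Finset ι)).image v) ∪
      ((hX.toFinset ×ˢ hX.toFinset).image fun xx => xx.1 - xx.2)).filter fun f => f ≠ 0)
    (by
      intro f hf
      exact (Finset.mem_filter.1 hf).2)
  have hdot : ∀ f : Fin m → ℝ, f ⬝ᵥ (fun k : Fin m => -(t : ℝ) ^ (k : ℕ)) =
      -∑ k, f k * (t : ℝ) ^ (k : ℕ) := by
    intro f
    unfold dotProduct
    rw [← Finset.sum_neg_distrib]
    refine Finset.sum_congr rfl fun k _ => ?_
    ring
  refine ⟨fun k => -(t : ℝ) ^ (k : ℕ), ?_, ?_, ?_⟩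
  · intro k
    have : (0 : ℝ) < (t : ℝ) ^ (k : ℕ) := by
      have : (0 : ℝ) < t := by exact_mod_cast ht
      positivity
    simp only
    linarith
  · intro B hB
    by_contra hne
    obtain ⟨h1, h2⟩ := hv B hne
    have h3 := h2 _ hB
    rw [hdot] at h3
    refine hF (v B) ?_ (by linarith)
    rw [Finset.mem_filter, Finset.mem_union]
    exact ⟨Or.inl (Finset.mem_image.2 ⟨B, Finset.mem_univ _, rfl⟩), h1⟩
  · intro x hx x' hx' h
    by_contra hne
    have h1 : x - x' ≠ 0 := sub_ne_zero.2 hne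
    refine hF (x - x') ?_ ?_
    · rw [Finset.mem_filter, Finset.mem_union]
      refine ⟨Or.inr (Finset.mem_image.2 ⟨(x, x'), ?_, rfl⟩), h1⟩
      rw [Finset.mem_product]
      exact ⟨hX.mem_toFinset.2 hx, hX.mem_toFinset.2 hx'⟩
    · have h2 := hdot (x - x')
      rw [dotProduct_comm, dotProduct_sub, h, sub_self] at h2
      linarith

end Pool.Agent.Lib.MP_4e7804_co.Gp
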