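import Pool.Agent.Lib.MP_4e7804_co.Gp.Spec

/-! MP_4e7804_co, Theorem G+, module LP: vertices of polytopes. -/

set_option autoImplicit false

open Finset

namespace Pool.Agent.Lib.MP_4e7804_co.Gp

theorem LP_closed {m : ℕ} {ι : Type} (a : ι → Fin m → ℝ) (β : ι → ℝ) (T : Finset ι) :
    IsClosed {x : Fin m → ℝ | ∀ t ∈ T, β t ≤ a t ⬝ᵥ x} := by
  have h : {x : Fin m → ℝ | ∀ t ∈ T, β t ≤ a t ⬝ᵥ x} =
      ⋂ t ∈ T, {x : Fin m → ℝ | β t ≤ a t ⬝ᵥ x} := by
    ext x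
    simp
  rw [h]
  refine isClosed_biInter fun t _ => ?_
  refine isClosed_le continuous_const ?_
  unfold dotProduct
  fun_prop

/-- moving a little in an admissible direction -/
theorem LP_dir {m : ℕ} {ι : Type} (a : ι → Fin m → ℝ) (β : ι → ℝ) (T : Finset ι)
    (x u : Fin m → ℝ) (hx : ∀ t ∈ T, β t ≤ a t ⬝ᵥ x)
    (hu : ∀ t ∈ T, a t ⬝ᵥ x = β t → 0 ≤ a t ⬝ᵥ u) :
    ∃ ε : ℝ, 0 < ε ∧ ∀ t ∈ T, β t ≤ a t ⬝ᵥ (x + ε • u) := by
  have h1 : ∀ᶠ ε : ℝ in nhdsWithin 0 (Set.Ioi 0), ∀ t ∈ T, β t ≤ a t ⬝ᵥ (x + ε • u) := by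
    rw [Filter.eventually_all_finset]
    intro t ht
    by_cases h : a t ⬝ᵥ x = β t
    · filter_upwards [self_mem_nhdsWithin] with ε hε
      rw [dotProduct_add, dotProduct_smul, h, smul_eq_mul]
      have := mul_nonneg (le_of_lt hε) (hu t ht h)
      linarith
    · have hlt : β t < a t ⬝ᵥ x := lt_of_le_of_ne (hx t ht) (fun h' => h h'.symm)
      refine Filter.Eventually.filter_mono nhdsWithin_le_nhds ?_
      have hc : Continuous fun ε : ℝ => a t ⬝ᵥ (x + ε • u) := by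
        unfold dotProduct
        fun_prop
      have h2 : β t < a t ⬝ᵥ (x + (0 : ℝ) • u) := by
        rw [zero_smul, add_zero]
        exact hlt
      filter_upwards [hc.continuousAt.eventually (lt_mem_nhds h2)] with ε hε
      exact hε.le
  obtain ⟨ε, hε, hε'⟩ := (h1.and self_mem_nhdsWithin).exists
  exact ⟨ε, hε', hε⟩

theorem tLP (hFC : StmtFC) : StmtLP := by
  classical
  intro m ι _ a β l hg T hne hb
  have hcomp : IsCompact {x : Fin m → ℝ | ∀ t ∈ T, β t ≤ a t ⬝ᵥ x} :=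
    Metric.isCompact_of_isClosed_isBounded (LP_closed a β T) hb
  have hcont : Continuous fun x : Fin m → ℝ => l ⬝ᵥ x := by
    unfold dotProduct
    fun_prop
  obtain ⟨x, hx, hmin⟩ := hcomp.exists_isMinOn hne hcont.continuousOn
  have hx' : ∀ t ∈ T, β t ≤ a t ⬝ᵥ x := hx
  set T₀ : Finset ι := T.filter fun t => a t ⬝ᵥ x = β t with hT₀
  obtain ⟨B', c', hLI, hpos, hl⟩ := hFC m {t // t ∈ T₀} inferInstance (fun t => a t.1) l (by
    intro u hu
    obtain ⟨ε, hε, hε'⟩ := LP_dir a β T x u hx' (fun t ht h => hu ⟨t, mem_filter.2 ⟨ht, h⟩⟩)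
    have h1 := hmin (show x + ε • u ∈ {x : Fin m → ℝ | ∀ t ∈ T, β t ≤ a t ⬝ᵥ x} from hε')
    have h2 : l ⬝ᵥ x ≤ l ⬝ᵥ (x + ε • u) := h1
    rw [dotProduct_add, dotProduct_smul, smul_eq_mul] at h2
    have h3 : 0 ≤ ε * (l ⬝ᵥ u) := by linarith
    exact nonneg_of_mul_nonneg_right h3 hε)
  set B : Finset ι := B'.map (Function.Embedding.subtype _) with hB
  have hBT₀ : ∀ t ∈ B, t ∈ T₀ := by
    intro t ht
    rw [hB, mem_map] at ht
    obtain ⟨s, -, rfl⟩ := ht
    exact s.2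
  have hBB' : ∀ t (ht : t ∈ B), (⟨t, hBT₀ t ht⟩ : {t // t ∈ T₀}) ∈ B' := by
    intro t ht
    have ht' := ht
    rw [hB, mem_map] at ht'
    obtain ⟨s, hs, hst⟩ := ht'
    have : (⟨t, hBT₀ t ht⟩ : {t // t ∈ T₀}) = s := Subtype.ext hst.symm
    rw [this]
    exact hs
  let c : ι → ℝ := fun t => if h : t ∈ T₀ then c' ⟨t, h⟩ else 0
  have hc : ∀ s : {t // t ∈ T₀}, c s.1 = c' s := by
    intro s
    show (if h : s.1 ∈ T₀ then c' ⟨s.1, h⟩ else 0) = c' s
    rw [dif_pos s.2]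
  have hLI' : LinearIndependent ℝ (fun t : B => a t) := by
    let e : B → B' := fun t => ⟨⟨t.1, hBT₀ t.1 t.2⟩, hBB' t.1 t.2⟩
    have he : Function.Injective e := by
      intro s t hst
      apply Subtype.ext
      exact congrArg (fun z : B' => z.1.1) hst
    exact hLI.comp e he
  have hl' : l = ∑ t ∈ B, c t • a t := by
    rw [hB, sum_map, hl]
    refine sum_congr rfl fun s _ => ?_
    show _ = c s.1 • a s.1
    rw [hc]
  have hcard : B.card = m := by
    have h1 : l ∈ Submodule.span ℝ (a '' (B : Set ι)) := by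
      rw [hl']
      exact Submodule.sum_mem _ fun t ht =>
        Submodule.smul_mem _ _ (Submodule.subset_span ⟨t, ht, rfl⟩)
    have h2 := hg B h1
    have h3 := finrank_span_eq_card hLI'
    have h4 : Set.range (fun t : B => a t) = a '' (B : Set ι) := by
      rw [Set.image_eq_range]
      rfl
    rw [h4, h2, finrank_top, Module.finrank_fin_fun, Fintype.card_coe] at h3
    exact h3.symm
  refine ⟨x, B, c, hx', fun t ht => (mem_filter.1 (hBT₀ t ht)).1, hcard, hLI', ?_, hl',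
    fun t ht => (mem_filter.1 (hBT₀ t ht)).2⟩
  intro t ht
  have := hpos _ (hBB' t ht)
  rwa [← hc] at this

end Pool.Agent.Lib.MP_4e7804_co.Gp
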