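import Pool.Agent.Lib.MP_4e7804_co.Gp.Spec

/-! MP_4e7804_co, Theorem G+: the number of label functions. -/

set_option autoImplicit false

open Finset

namespace Pool.Agent.Lib.MP_4e7804_co.Gp

/-- the affine function of a label -/
def labNp {d : ℕ} : Lab d → (Fin d → ℤ)
  | some (some q) => q.1
  | _ => 0

/-- the bit of a label -/
def labNb {d : ℕ} : Lab d → Bool
  | some (some q) => q.2
  | some none => true
  | none => false

open Classical in
/-- the label function of a list and bits -/
noncomputable def labNf {d : ℕ} (V : Finset (Fin (d + 1)))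
    (x : (Fin (d + 1) → Bool) × (Fin (d + 1) → Fin d → ℤ)) (i : Fin (d + 1)) : Lab d :=
  if i ∈ V then some (some (x.2 i, x.1 i)) else if x.1 i = true then some none else none

theorem tLabN : StmtLabN := by
  intro d A η ρ V n hfin hn
  classical
  have hsub : {f | f ∈ LL A η ρ ∧ ptc f = V} ⊆
      labNf V '' ((Set.univ : Set (Fin (d + 1) → Bool)) ×ˢ (Lst A η ρ V)) := by
    rintro f ⟨⟨w, hw, hf⟩, hV⟩
    refine ⟨(fun i => labNb (f i), fun i => labNp (f i)), ⟨Set.mem_univ _, ?_⟩, ?_⟩
    · have hnot : ∀ i, i ∉ V → ∀ q, f i ≠ some (some q) := by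
        intro i hi q hq
        apply hi
        rw [← hV]
        unfold ptc
        rw [mem_filter]
        exact ⟨mem_univ _, q, hq⟩
      refine ⟨fun i hi => ?_, w, hw, fun i hi => ?_⟩
      · show labNp (f i) = 0
        have h1 := hnot i hi
        rcases hfi : f i with _ | (_ | q)
        · rfl
        · rfl
        · exact absurd hfi (h1 q)
      · rw [← hV] at hi
        unfold ptc at hi
        rw [mem_filter] at hi
        obtain ⟨-, q, hq⟩ := hi
        show labNp (f i) ∈ Bs A η w i
        rw [hq]
        exact hf i q.1 q.2 hq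
    · funext i
      unfold labNf
      by_cases hi : i ∈ V
      · rw [if_pos hi]
        rw [← hV] at hi
        unfold ptc at hi
        rw [mem_filter] at hi
        obtain ⟨-, q, hq⟩ := hi
        show some (some (labNp (f i), labNb (f i))) = f i
        rw [hq]
        rfl
      · rw [if_neg hi]
        show (if labNb (f i) = true then some none else none) = f i
        rcases hfi : f i with _ | (_ | q)
        · simp [labNb]
        · simp [labNb]
        · exfalso
          apply hi
          rw [← hV]
          unfold ptc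
          rw [mem_filter]
          exact ⟨mem_univ _, q, hfi⟩
  have hfin2 : ((Set.univ : Set (Fin (d + 1) → Bool)) ×ˢ (Lst A η ρ V)).Finite :=
    Set.finite_univ.prod hfin
  refine ⟨(hfin2.image _).subset hsub, ?_⟩
  calc {f | f ∈ LL A η ρ ∧ ptc f = V}.ncard
      ≤ (labNf V '' ((Set.univ : Set (Fin (d + 1) → Bool)) ×ˢ (Lst A η ρ V))).ncard :=
        Set.ncard_le_ncard hsub (hfin2.image _)
    _ ≤ ((Set.univ : Set (Fin (d + 1) → Bool)) ×ˢ (Lst A η ρ V)).ncard :=
        Set.ncard_image_le hfin2
    _ = 2 ^ (d + 1) * (Lst A η ρ V).ncard := by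
        rw [Set.ncard_prod, Set.ncard_univ]
        simp
    _ ≤ 2 ^ (d + 1) * n := Nat.mul_le_mul_left _ hn

end Pool.Agent.Lib.MP_4e7804_co.Gp
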