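import Pool.Agent.Lib.MP_4e7804_co.Gp.Spec

/-!
# MP_4e7804_co, Theorem G+: `Lists`, the number of lists with a far witness
-/

set_option autoImplicit false

open Finset

namespace Pool.Agent.Lib.MP_4e7804_co.Gp

namespace ListsAux

variable {m : ℕ}

/-- index type of the inequalities -/
abbrev Ix (A : Fin (m + 2) → Finset (Fin (m + 1) → ℤ)) : Type :=
  (Fin m × Bool) ⊕ (Σ i : Fin (m + 2), {x // x ∈ A i} × {x // x ∈ A i})

/-- the value of the facet coordinate -/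
def sg (ρ : ℝ) (s : Bool) : ℝ := if s then ρ else -ρ

/-- the vectors of the inequalities in the facet `w a = ± ρ` -/
def av (A : Fin (m + 2) → Finset (Fin (m + 1) → ℤ)) (a : Fin (m + 1)) : Ix A → Fin m → ℝ
  | .inl kb => if kb.2 then -Pi.single kb.1 1 else Pi.single kb.1 1
  | .inr t => fun k => (t.2.2.1 (a.succAbove k) : ℝ) - t.2.1.1 (a.succAbove k)

/-- the right hand sides -/
def bv (A : Fin (m + 2) → Finset (Fin (m + 1) → ℤ)) (η : Fin (m + 2) → (Fin (m + 1) → ℤ) → ℝ)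
    (ρ : ℝ) (a : Fin (m + 1)) (s : Bool) : Ix A → ℝ
  | .inl _ => -ρ
  | .inr t => -(((t.2.2.1 a : ℝ) - t.2.1.1 a) * sg ρ s + η t.1 t.2.2.1 - η t.1 t.2.1.1)

/-- the point of the facet -/
def pt (ρ : ℝ) (a : Fin (m + 1)) (s : Bool) (x : Fin m → ℝ) : Fin (m + 1) → ℝ :=
  a.insertNth (sg ρ s) x

theorem val_pt (η : Fin (m + 2) → (Fin (m + 1) → ℤ) → ℝ) (ρ : ℝ) (a : Fin (m + 1)) (s : Bool)
    (x : Fin m → ℝ) (i : Fin (m + 2)) (p : Fin (m + 1) → ℤ) :
    val η i p (pt ρ a s x) =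
      (p a : ℝ) * sg ρ s + ∑ k, (p (a.succAbove k) : ℝ) * x k + η i p := by
  unfold val pt
  rw [Fin.sum_univ_succAbove _ a]
  simp

theorem inr_iff (A : Fin (m + 2) → Finset (Fin (m + 1) → ℤ))
    (η : Fin (m + 2) → (Fin (m + 1) → ℤ) → ℝ) (ρ : ℝ) (a : Fin (m + 1)) (s : Bool)
    (x : Fin m → ℝ) (t : Σ i : Fin (m + 2), {x // x ∈ A i} × {x // x ∈ A i}) :
    bv A η ρ a s (Sum.inr t) ≤ av A a (Sum.inr t) ⬝ᵥ x ↔
      val η t.1 t.2.1.1 (pt ρ a s x) ≤ val η t.1 t.2.2.1 (pt ρ a s x) := by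
  rw [val_pt, val_pt]
  have e : av A a (Sum.inr t) ⬝ᵥ x = ∑ k, (t.2.2.1 (a.succAbove k) : ℝ) * x k -
      ∑ k, (t.2.1.1 (a.succAbove k) : ℝ) * x k := by
    unfold dotProduct av
    rw [← Finset.sum_sub_distrib]
    refine Finset.sum_congr rfl fun k _ => ?_
    ring
  rw [e]
  unfold bv
  constructor <;> intro h <;> linarith

theorem inl_iff (A : Fin (m + 2) → Finset (Fin (m + 1) → ℤ))
    (η : Fin (m + 2) → (Fin (m + 1) → ℤ) → ℝ) (ρ : ℝ) (a : Fin (m + 1)) (s : Bool)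
    (x : Fin m → ℝ) (k : Fin m) :
    (∀ b, bv A η ρ a s (Sum.inl (k, b)) ≤ av A a (Sum.inl (k, b)) ⬝ᵥ x) ↔ |x k| ≤ ρ := by
  rw [abs_le]
  have h1 : av A a (Sum.inl (k, true)) ⬝ᵥ x = - x k := by
    simp [av]
  have h2 : av A a (Sum.inl (k, false)) ⬝ᵥ x = x k := by
    simp [av]
  have h3 : ∀ b, bv A η ρ a s (Sum.inl (k, b)) = -ρ := fun b => rfl
  constructor
  · intro h
    have h4 := h true
    have h5 := h false
    rw [h1, h3] at h4
    rw [h2, h3] at h5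
    exact ⟨h5, by linarith⟩
  · rintro ⟨h4, h5⟩ b
    cases b
    · rw [h2, h3]; exact h4
    · rw [h1, h3]; linarith

open Classical in
/-- the inequalities of the list `p` -/
noncomputable def TT (A : Fin (m + 2) → Finset (Fin (m + 1) → ℤ)) (V : Finset (Fin (m + 2)))
    (p : Fin (m + 2) → Fin (m + 1) → ℤ) : Finset (Ix A) :=
  univ.filter (Sum.elim (fun _ => True) fun t => t.1 ∈ V ∧ t.2.1.1 = p t.1)

theorem inl_mem_TT {A : Fin (m + 2) → Finset (Fin (m + 1) → ℤ)} {V : Finset (Fin (m + 2))}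
    {p : Fin (m + 2) → Fin (m + 1) → ℤ} (kb : Fin m × Bool) : Sum.inl kb ∈ TT A V p := by
  simp [TT]

theorem inr_mem_TT {A : Fin (m + 2) → Finset (Fin (m + 1) → ℤ)} {V : Finset (Fin (m + 2))}
    {p : Fin (m + 2) → Fin (m + 1) → ℤ}
    (t : Σ i : Fin (m + 2), {x // x ∈ A i} × {x // x ∈ A i}) :
    Sum.inr t ∈ TT A V p ↔ t.1 ∈ V ∧ t.2.1.1 = p t.1 := by
  simp [TT]

theorem TT_iff {A : Fin (m + 2) → Finset (Fin (m + 1) → ℤ)}
    {η : Fin (m + 2) → (Fin (m + 1) → ℤ) → ℝ} {ρ : ℝ} {V : Finset (Fin (m + 2))}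
    {p : Fin (m + 2) → Fin (m + 1) → ℤ} (hp : ∀ i ∈ V, p i ∈ A i) (a : Fin (m + 1)) (s : Bool)
    (x : Fin m → ℝ) :
    (∀ t ∈ TT A V p, bv A η ρ a s t ≤ av A a t ⬝ᵥ x) ↔
      (∀ k, |x k| ≤ ρ) ∧ ∀ i ∈ V, p i ∈ Bs A η (pt ρ a s x) i := by
  classical
  constructor
  · intro h
    refine ⟨fun k => (inl_iff A η ρ a s x k).1 fun b => h _ (inl_mem_TT _), fun i hi => ?_⟩
    unfold Bs
    rw [mem_filter]
    refine ⟨hp i hi, fun q hq => ?_⟩
    exact (inr_iff A η ρ a s x ⟨i, (⟨p i, hp i hi⟩, ⟨q, hq⟩)⟩).1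
      (h _ ((inr_mem_TT _).2 ⟨hi, rfl⟩))
  · rintro ⟨h1, h2⟩ t ht
    rcases t with ⟨k, b⟩ | ⟨i, ⟨p', hp'⟩, ⟨q, hq⟩⟩
    · exact (inl_iff A η ρ a s x k).2 (h1 k) b
    · obtain ⟨hi, hpi⟩ := (inr_mem_TT _).1 ht
      simp only at hi hpi
      subst hpi
      refine (inr_iff A η ρ a s x _).2 ?_
      have h3 := h2 i hi
      unfold Bs at h3
      exact (mem_filter.1 h3).2 q hq

/-- the certificate of a list -/
structure Wt (A : Fin (m + 2) → Finset (Fin (m + 1) → ℤ))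
    (η : Fin (m + 2) → (Fin (m + 1) → ℤ) → ℝ) (ρ : ℝ) (V : Finset (Fin (m + 2)))
    (a : Fin (m + 1)) (s : Bool) (l : Fin m → ℝ) (p : Fin (m + 2) → Fin (m + 1) → ℤ)
    (x : Fin m → ℝ) (B : Finset (Ix A)) (c : Ix A → ℝ) : Prop where
  con : ∀ t ∈ TT A V p, bv A η ρ a s t ≤ av A a t ⬝ᵥ x
  sub : B ⊆ TT A V p
  card : B.card = m
  ind : LinearIndependent ℝ (fun t : B => av A a t)
  pos : ∀ t ∈ B, 0 < c t
  sum : l = ∑ t ∈ B, c t • av A a t
  act : ∀ t ∈ B, av A a t ⬝ᵥ x = bv A η ρ a s t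

open Classical in
/-- the colours of a certificate -/
noncomputable def JJ {A : Fin (m + 2) → Finset (Fin (m + 1) → ℤ)} (B : Finset (Ix A)) :
    Finset (Fin (m + 2)) :=
  univ.filter fun i => ∃ t : Σ i : Fin (m + 2), {x // x ∈ A i} × {x // x ∈ A i},
    Sum.inr t ∈ B ∧ t.1 = i

theorem JJ_card {A : Fin (m + 2) → Finset (Fin (m + 1) → ℤ)} (B : Finset (Ix A)) :
    (JJ B).card ≤ B.card := by
  classical
  let g : Ix A → Option (Fin (m + 2)) := Sum.elim (fun _ => none) fun t => some t.1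
  calc (JJ B).card = ((JJ B).image some).card :=
        (card_image_of_injective _ (Option.some_injective _)).symm
    _ ≤ (B.image g).card := by
        refine card_le_card ?_
        intro o ho
        obtain ⟨i, hi, rfl⟩ := mem_image.1 ho
        obtain ⟨t, ht, rfl⟩ := (mem_filter.1 hi).2
        exact mem_image.2 ⟨Sum.inr t, ht, rfl⟩
    _ ≤ B.card := card_image_le

theorem JJ_sub {A : Fin (m + 2) → Finset (Fin (m + 1) → ℤ)} {V : Finset (Fin (m + 2))}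
    {p : Fin (m + 2) → Fin (m + 1) → ℤ} {B : Finset (Ix A)} (h : B ⊆ TT A V p) : JJ B ⊆ V := by
  classical
  intro i hi
  obtain ⟨t, ht, rfl⟩ := (mem_filter.1 hi).2
  exact ((inr_mem_TT t).1 (h ht)).1

theorem Wt.le {A : Fin (m + 2) → Finset (Fin (m + 1) → ℤ)}
    {η : Fin (m + 2) → (Fin (m + 1) → ℤ) → ℝ} {ρ : ℝ} {V : Finset (Fin (m + 2))}
    {a : Fin (m + 1)} {s : Bool} {l : Fin m → ℝ} {p p' : Fin (m + 2) → Fin (m + 1) → ℤ}
    {x x' : Fin m → ℝ} {B B' : Finset (Ix A)} {c c' : Ix A → ℝ}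
    (h : Wt A η ρ V a s l p x B c) (h' : Wt A η ρ V a s l p' x' B' c')
    (hJ : ∀ i ∈ JJ B, p i = p' i) : l ⬝ᵥ x ≤ l ⬝ᵥ x' := by
  classical
  have e : ∀ y : Fin m → ℝ, l ⬝ᵥ y = ∑ t ∈ B, c t * (av A a t ⬝ᵥ y) := by
    intro y
    rw [h.sum, sum_dotProduct]
    refine sum_congr rfl fun t _ => ?_
    rw [smul_dotProduct, smul_eq_mul]
  rw [e x, e x']
  refine sum_le_sum fun t ht => ?_
  refine mul_le_mul_of_nonneg_left ?_ (h.pos t ht).le
  rw [h.act t ht]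
  refine h'.con t ?_
  rcases t with kb | t
  · exact inl_mem_TT kb
  · have h1 := (inr_mem_TT t).1 (h.sub ht)
    refine (inr_mem_TT t).2 ⟨h1.1, h1.2.trans (hJ t.1 ?_)⟩
    unfold JJ
    exact mem_filter.2 ⟨mem_univ _, t, ht, rfl⟩

theorem Wt.mem_Xs {A : Fin (m + 2) → Finset (Fin (m + 1) → ℤ)}
    {η : Fin (m + 2) → (Fin (m + 1) → ℤ) → ℝ} {ρ : ℝ} {V : Finset (Fin (m + 2))}
    {a : Fin (m + 1)} {s : Bool} {l : Fin m → ℝ} {p : Fin (m + 2) → Fin (m + 1) → ℤ}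
    {x : Fin m → ℝ} {B : Finset (Ix A)} {c : Ix A → ℝ}
    (h : Wt A η ρ V a s l p x B c) : x ∈ Xs (av A a) (bv A η ρ a s) :=
  ⟨B, h.card, h.ind, h.act⟩

theorem Wt.eq {A : Fin (m + 2) → Finset (Fin (m + 1) → ℤ)}
    {η : Fin (m + 2) → (Fin (m + 1) → ℤ) → ℝ} {ρ : ℝ} {V : Finset (Fin (m + 2))}
    {a : Fin (m + 1)} {s : Bool} {l : Fin m → ℝ} {p p' : Fin (m + 2) → Fin (m + 1) → ℤ}
    {x x' : Fin m → ℝ} {B B' : Finset (Ix A)} {c c' : Ix A → ℝ}
    (h : Wt A η ρ V a s l p x B c) (h' : Wt A η ρ V a s l p' x' B' c')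
    (hl : Gen2 (av A a) (bv A η ρ a s) l)
    (hJ : ∀ i ∈ JJ B, p i = p' i) (hJ' : ∀ i ∈ JJ B', p' i = p i) : x = x' :=
  hl x h.mem_Xs x' h'.mem_Xs (le_antisymm (h.le h' hJ) (h'.le h hJ'))

/-- minimizers form a convex set -/
theorem Bs_conv {d : ℕ} (A : Fin (d + 1) → Finset (Fin d → ℤ))
    (η : Fin (d + 1) → (Fin d → ℤ) → ℝ) (i : Fin (d + 1)) (p : Fin d → ℤ) (w w' : Fin d → ℝ)
    (h : p ∈ Bs A η w i) (h' : p ∈ Bs A η w' i) (θ : ℝ) (h0 : 0 ≤ θ) (h1 : θ ≤ 1) :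
    p ∈ Bs A η ((1 - θ) • w + θ • w') i := by
  classical
  unfold Bs at h h' ⊢
  rw [mem_filter] at h h' ⊢
  refine ⟨h.1, fun q hq => ?_⟩
  have e : ∀ r : Fin d → ℤ, val η i r ((1 - θ) • w + θ • w') =
      (1 - θ) * val η i r w + θ * val η i r w' := by
    intro r
    unfold val
    have : ∑ k, (r k : ℝ) * ((1 - θ) • w + θ • w') k =
        (1 - θ) * ∑ k, (r k : ℝ) * w k + θ * ∑ k, (r k : ℝ) * w' k := by
      rw [mul_sum, mul_sum, ← sum_add_distrib]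
      refine sum_congr rfl fun k _ => ?_
      simp only [Pi.add_apply, Pi.smul_apply, smul_eq_mul]
      ring
    rw [this]; ring
  rw [e, e]
  have h2 := mul_le_mul_of_nonneg_left (h.2 q hq) (sub_nonneg.2 h1)
  have h3 := mul_le_mul_of_nonneg_left (h'.2 q hq) h0
  linarith

/-- a point of the boundary of the box on a segment -/
theorem seg_bd {d : ℕ} (ρ : ℝ) (w₀ w : Fin d → ℝ) (h0 : ∀ k, |w₀ k| < ρ) (h : ∃ k, ρ ≤ |w k|) :
    ∃ θ : ℝ, 0 ≤ θ ∧ θ ≤ 1 ∧ (∀ k, |((1 - θ) • w₀ + θ • w) k| ≤ ρ) ∧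
      ∃ k, |((1 - θ) • w₀ + θ • w) k| = ρ := by
  obtain ⟨k₀, hk₀⟩ := h
  have hρ : 0 < ρ := lt_of_le_of_lt (abs_nonneg _) (h0 k₀)
  haveI : Nonempty (Fin d) := ⟨k₀⟩
  have hc : ContinuousOn (fun θ : ℝ => ‖(1 - θ) • w₀ + θ • w‖) (Set.Icc 0 1) :=
    Continuous.continuousOn (by fun_prop)
  have hI := intermediate_value_Icc (zero_le_one' ℝ) hc
  have hm : ρ ∈ Set.Icc ‖((1 : ℝ) - 0) • w₀ + (0 : ℝ) • w‖ ‖((1 : ℝ) - 1) • w₀ + (1 : ℝ) • w‖ := by
    constructor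
    · rw [sub_zero, one_smul, zero_smul, add_zero, pi_norm_le_iff_of_nonneg hρ.le]
      intro k
      exact (h0 k).le
    · rw [sub_self, zero_smul, one_smul, zero_add]
      exact hk₀.trans (norm_le_pi_norm w k₀)
  obtain ⟨θ, ⟨h1, h2⟩, h3⟩ := hI hm
  have h3' : ‖(1 - θ) • w₀ + θ • w‖ = ρ := h3
  refine ⟨θ, h1, h2, fun k => ?_, ?_⟩
  · rw [← h3']
    exact norm_le_pi_norm ((1 - θ) • w₀ + θ • w) k
  · obtain ⟨k, -, hk⟩ := exists_max_image univ (fun k => |((1 - θ) • w₀ + θ • w) k|)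
      univ_nonempty
    refine ⟨k, le_antisymm ?_ ?_⟩
    · rw [← h3']
      exact norm_le_pi_norm ((1 - θ) • w₀ + θ • w) k
    · rw [← h3', pi_norm_le_iff_of_nonneg (abs_nonneg _)]
      intro k'
      exact hk k' (mem_univ _)

/-- lists with a point outside and a point inside of the box have a certificate -/
theorem exists_Wt (hLP : StmtLP) {A : Fin (m + 2) → Finset (Fin (m + 1) → ℤ)}
    {η : Fin (m + 2) → (Fin (m + 1) → ℤ) → ℝ} {ρ : ℝ} {V : Finset (Fin (m + 2))}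
    {p : Fin (m + 2) → Fin (m + 1) → ℤ} (hp : ∀ i ∈ V, p i ∈ A i)
    (l : Fin (m + 1) → Bool → Fin m → ℝ) (hl : ∀ a s, Gen1 (av A a) (l a s))
    (w₀ w : Fin (m + 1) → ℝ) (h0 : ∀ k, |w₀ k| < ρ) (h0' : ∀ i ∈ V, p i ∈ Bs A η w₀ i)
    (h1 : ∃ k, ρ ≤ |w k|) (h1' : ∀ i ∈ V, p i ∈ Bs A η w i) :
    ∃ (a : Fin (m + 1)) (s : Bool) (x : Fin m → ℝ) (B : Finset (Ix A)) (c : Ix A → ℝ),
      Wt A η ρ V a s (l a s) p x B c := by
  classical
  obtain ⟨θ, t0, t1, hle, a, ha⟩ := seg_bd ρ w₀ w h0 h1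
  set z := (1 - θ) • w₀ + θ • w with hz
  have hzB : ∀ i ∈ V, p i ∈ Bs A η z i := fun i hi =>
    Bs_conv A η i (p i) w₀ w (h0' i hi) (h1' i hi) θ t0 t1
  obtain ⟨s, hs⟩ : ∃ s : Bool, z a = sg ρ s := by
    rcases abs_choice (z a) with h | h
    · exact ⟨true, by rw [← h, ha]; simp [sg]⟩
    · exact ⟨false, by simp only [sg, Bool.false_eq_true, if_false]; linarith⟩
  have hpt : pt ρ a s (fun k => z (a.succAbove k)) = z := by
    unfold pt
    rw [← hs]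
    exact Fin.insertNth_self_removeNth a z
  obtain ⟨x, B, c, g1, g2, g3, g4, g5, g6, g7⟩ := hLP m (Ix A) inferInstance (av A a)
    (bv A η ρ a s) (l a s) (hl a s) (TT A V p)
    ⟨fun k => z (a.succAbove k), (TT_iff hp a s _).2 ⟨fun k => hle _, by rw [hpt]; exact hzB⟩⟩
    (by
      refine (Metric.isBounded_closedBall (x := (0 : Fin m → ℝ)) (r := |ρ|)).subset ?_
      intro x hx
      have hx' := ((TT_iff (η := η) hp a s x).1 hx).1
      rw [mem_closedBall_zero_iff, pi_norm_le_iff_of_nonneg (abs_nonneg _)]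
      intro k
      exact (hx' k).trans (le_abs_self ρ))
  exact ⟨a, s, x, B, c, ⟨g1, g2, g3, g4, g5, g6, g7⟩⟩

/-- the finite set of all lists -/
noncomputable def PP (A : Fin (m + 2) → Finset (Fin (m + 1) → ℤ)) :
    Finset (Fin (m + 2) → Fin (m + 1) → ℤ) :=
  Fintype.piFinset fun i => insert 0 (A i)

open Classical in
/-- a chosen point of every nonempty cell -/
noncomputable def w0 (A : Fin (m + 2) → Finset (Fin (m + 1) → ℤ))
    (η : Fin (m + 2) → (Fin (m + 1) → ℤ) → ℝ) (V : Finset (Fin (m + 2)))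
    (p : Fin (m + 2) → Fin (m + 1) → ℤ) : Fin (m + 1) → ℝ :=
  if h : ∃ w, ∀ i ∈ V, p i ∈ Bs A η w i then h.choose else 0

/-- the radius -/
noncomputable def rad (A : Fin (m + 2) → Finset (Fin (m + 1) → ℤ))
    (η : Fin (m + 2) → (Fin (m + 1) → ℤ) → ℝ) : ℝ :=
  1 + ∑ V : Finset (Fin (m + 2)), ∑ p ∈ PP A, ∑ k, |w0 A η V p k|

theorem rad_pos (A : Fin (m + 2) → Finset (Fin (m + 1) → ℤ))
    (η : Fin (m + 2) → (Fin (m + 1) → ℤ) → ℝ) : 0 < rad A η := by
  unfold rad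
  have : 0 ≤ ∑ V : Finset (Fin (m + 2)), ∑ p ∈ PP A, ∑ k, |w0 A η V p k| :=
    sum_nonneg fun V _ => sum_nonneg fun p _ => sum_nonneg fun k _ => abs_nonneg _
  linarith

theorem lt_rad (A : Fin (m + 2) → Finset (Fin (m + 1) → ℤ))
    (η : Fin (m + 2) → (Fin (m + 1) → ℤ) → ℝ) (V : Finset (Fin (m + 2)))
    (p : Fin (m + 2) → Fin (m + 1) → ℤ) (hp : p ∈ PP A) (k : Fin (m + 1)) :
    |w0 A η V p k| < rad A η := by
  unfold rad
  have h1 : |w0 A η V p k| ≤ ∑ k, |w0 A η V p k| :=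
    single_le_sum (f := fun k => |w0 A η V p k|) (fun _ _ => abs_nonneg _) (mem_univ k)
  have h2 : ∑ k, |w0 A η V p k| ≤ ∑ p ∈ PP A, ∑ k, |w0 A η V p k| :=
    single_le_sum (f := fun p => ∑ k, |w0 A η V p k|)
      (fun _ _ => sum_nonneg fun _ _ => abs_nonneg _) hp
  have h3 : ∑ p ∈ PP A, ∑ k, |w0 A η V p k| ≤
      ∑ V : Finset (Fin (m + 2)), ∑ p ∈ PP A, ∑ k, |w0 A η V p k| :=
    single_le_sum (f := fun V => ∑ p ∈ PP A, ∑ k, |w0 A η V p k|)
      (fun _ _ => sum_nonneg fun _ _ => sum_nonneg fun _ _ => abs_nonneg _) (mem_univ V)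
  linarith

theorem Lst_sub (A : Fin (m + 2) → Finset (Fin (m + 1) → ℤ))
    (η : Fin (m + 2) → (Fin (m + 1) → ℤ) → ℝ) (ρ : ℝ) (V : Finset (Fin (m + 2))) :
    Lst A η ρ V ⊆ (PP A : Set (Fin (m + 2) → Fin (m + 1) → ℤ)) := by
  classical
  rintro p ⟨h1, w, -, h2⟩
  rw [mem_coe]
  unfold PP
  rw [Fintype.mem_piFinset]
  intro i
  rw [mem_insert]
  by_cases hi : i ∈ V
  · right
    have := h2 i hi
    unfold Bs at this
    exact (mem_filter.1 this).1
  · left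
    exact h1 i hi

/-- the certificate of a list in `Lst` -/
theorem Lst_Wt (hLP : StmtLP) {A : Fin (m + 2) → Finset (Fin (m + 1) → ℤ)}
    {η : Fin (m + 2) → (Fin (m + 1) → ℤ) → ℝ} {V : Finset (Fin (m + 2))}
    {p : Fin (m + 2) → Fin (m + 1) → ℤ} (hp : p ∈ Lst A η (rad A η) V)
    (l : Fin (m + 1) → Bool → Fin m → ℝ) (hl : ∀ a s, Gen1 (av A a) (l a s)) :
    ∃ (a : Fin (m + 1)) (s : Bool) (x : Fin m → ℝ) (B : Finset (Ix A)) (c : Ix A → ℝ),
      Wt A η (rad A η) V a s (l a s) p x B c := by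
  classical
  have hP := Lst_sub A η (rad A η) V hp
  obtain ⟨h1, w, h2, h3⟩ := hp
  have hex : ∃ w, ∀ i ∈ V, p i ∈ Bs A η w i := ⟨w, h3⟩
  have h4 : ∀ i ∈ V, p i ∈ Bs A η (w0 A η V p) i := by
    unfold w0
    rw [dif_pos hex]
    exact hex.choose_spec
  refine exists_Wt hLP (fun i hi => ?_) l hl (w0 A η V p) w (lt_rad A η V p hP) h4 h2 h3
  have := h3 i hi
  unfold Bs at this
  exact (mem_filter.1 this).1

/-- the possible data of a certificate -/
def DD (A : Fin (m + 2) → Finset (Fin (m + 1) → ℤ)) (V : Finset (Fin (m + 2))) :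
    Finset ((Fin (m + 1) × Bool) ×
      (Σ _ : Finset (Fin (m + 2)), Fin (m + 2) → Fin (m + 1) → ℤ)) :=
  univ ×ˢ ((V.powerset.filter fun J => J.card ≤ m).sigma fun J =>
    Fintype.piFinset fun i => if i ∈ J then A i else {0})

theorem card_DD (A : Fin (m + 2) → Finset (Fin (m + 1) → ℤ)) (V : Finset (Fin (m + 2))) :
    (DD A V).card = (m + 1) * 2 * sp (fun i => (A i).card) m V := by
  unfold DD sp
  rw [card_product, card_sigma, card_univ, Fintype.card_prod, Fintype.card_fin, Fintype.card_bool]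
  congr 1
  refine sum_congr rfl fun J _ => ?_
  rw [Fintype.card_piFinset, ← prod_subset (subset_univ J)]
  · refine prod_congr rfl fun i hi => ?_
    rw [if_pos hi]
  · intro i _ hi
    rw [if_neg hi, card_singleton]

theorem count (hLP : StmtLP) {A : Fin (m + 2) → Finset (Fin (m + 1) → ℤ)}
    {η : Fin (m + 2) → (Fin (m + 1) → ℤ) → ℝ} (h3 : ∀ w i, (Bs A η w i).card ≤ m + 2)
    (V : Finset (Fin (m + 2)))
    (l : Fin (m + 1) → Bool → Fin m → ℝ) (hl : ∀ a s, Gen1 (av A a) (l a s))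
    (hl2 : ∀ a s, Gen2 (av A a) (bv A η (rad A η) a s) (l a s))
    (hfin : (Lst A η (rad A η) V).Finite) :
    (Lst A η (rad A η) V).ncard ≤
      (m + 2) ^ (m + 2) * ((m + 1) * 2 * sp (fun i => (A i).card) m V) := by
  classical
  rw [Set.ncard_eq_toFinset_card _ hfin, ← card_DD]
  have key : ∀ p ∈ hfin.toFinset, ∃ (a : Fin (m + 1)) (s : Bool) (x : Fin m → ℝ)
      (B : Finset (Ix A)) (c : Ix A → ℝ), Wt A η (rad A η) V a s (l a s) p x B c :=
    fun p hp => Lst_Wt hLP (hfin.mem_toFinset.1 hp) l hl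
  choose! a s x B c hW using key
  let f : (Fin (m + 2) → Fin (m + 1) → ℤ) → (Fin (m + 1) × Bool) ×
      (Σ _ : Finset (Fin (m + 2)), Fin (m + 2) → Fin (m + 1) → ℤ) := fun p =>
    ((a p, s p), ⟨JJ (B p), fun i => if i ∈ JJ (B p) then p i else 0⟩)
  have hA : ∀ p ∈ hfin.toFinset, ∀ i ∈ V, p i ∈ A i := by
    intro p hp i hi
    obtain ⟨-, w, -, h⟩ := hfin.mem_toFinset.1 hp
    have := h i hi
    unfold Bs at this
    exact (mem_filter.1 this).1
  refine card_le_mul_card_image_of_maps_to (f := f) ?_ _ ?_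
  · intro p hp
    have h := hW p hp
    simp only [f, DD, mem_product, mem_univ, true_and, mem_sigma, mem_filter, mem_powerset,
      Fintype.mem_piFinset]
    refine ⟨⟨JJ_sub h.sub, (JJ_card _).trans h.card.le⟩, fun i => ?_⟩
    by_cases hi : i ∈ JJ (B p)
    · rw [if_pos hi, if_pos hi]
      exact hA p hp i (JJ_sub h.sub hi)
    · rw [if_neg hi, if_neg hi]
      exact mem_singleton_self _
  · intro b _
    rcases (hfin.toFinset.filter fun p => f p = b).eq_empty_or_nonempty with h0 | ⟨p₀, hp₀⟩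
    · rw [h0, card_empty]
      exact Nat.zero_le _
    · obtain ⟨hm₀, hb₀⟩ := mem_filter.1 hp₀
      have hW₀ := hW p₀ hm₀
      have hsub : (hfin.toFinset.filter fun p => f p = b) ⊆
          Fintype.piFinset fun i => if i ∈ V then
            Bs A η (pt (rad A η) (a p₀) (s p₀) (x p₀)) i else {0} := by
        intro p hp
        obtain ⟨hm, hb⟩ := mem_filter.1 hp
        have hW₁ := hW p hm
        have hff : f p = f p₀ := hb.trans hb₀.symm
        have e1 : a p = a p₀ := congrArg (fun z => z.1.1) hff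
        have e2 : s p = s p₀ := congrArg (fun z => z.1.2) hff
        have e3 : JJ (B p) = JJ (B p₀) := congrArg (fun z => z.2.1) hff
        have e4 : (fun i => if i ∈ JJ (B p) then p i else 0) =
            fun i => if i ∈ JJ (B p₀) then p₀ i else 0 := congrArg (fun z => z.2.2) hff
        have e5 : ∀ i ∈ JJ (B p), p i = p₀ i := by
          intro i hi
          have := congrFun e4 i
          simp only [hi, if_true, e3 ▸ hi] at this
          exact this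
        rw [e1, e2] at hW₁
        have ex : x p = x p₀ := hW₁.eq hW₀ (hl2 _ _) e5
          (fun i hi => (e5 i (by rw [e3]; exact hi)).symm)
        have hc := ((TT_iff (hA p hm) (a p₀) (s p₀) (x p)).1 hW₁.con).2
        rw [ex] at hc
        rw [Fintype.mem_piFinset]
        intro i
        by_cases hi : i ∈ V
        · rw [if_pos hi]
          exact hc i hi
        · rw [if_neg hi, mem_singleton]
          exact (hfin.mem_toFinset.1 hm).1 i hi
      refine (card_le_card hsub).trans ?_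
      rw [Fintype.card_piFinset]
      have : ∀ i : Fin (m + 2), (if i ∈ V then
          Bs A η (pt (rad A η) (a p₀) (s p₀) (x p₀)) i else {0}).card ≤ m + 2 := by
        intro i
        by_cases hi : i ∈ V
        · rw [if_pos hi]
          exact h3 _ i
        · rw [if_neg hi, card_singleton]
          omega
      refine (prod_le_prod (fun _ _ => Nat.zero_le _) fun i _ => this i).trans ?_
      rw [prod_const, card_univ, Fintype.card_fin]

end ListsAux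

open ListsAux in
/-- **Lists** -/
theorem tLists (hG : StmtGenL) (hLP : StmtLP) : StmtLists := by
  intro d hd
  obtain ⟨m, rfl⟩ : ∃ m, d = m + 1 := ⟨d - 1, by omega⟩
  refine ⟨(m + 2) ^ (m + 2) * ((m + 1) * 2), fun A η _ h3 => ⟨rad A η, rad_pos A η, fun V => ?_⟩⟩
  have hfin : (Lst A η (rad A η) V).Finite :=
    (PP A).finite_toSet.subset (Lst_sub A η (rad A η) V)
  refine ⟨hfin, ?_⟩
  have hl : ∀ (a : Fin (m + 1)) (s : Bool), ∃ l : Fin m → ℝ, (∀ k, l k < 0) ∧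
      Gen1 (av A a) l ∧ Gen2 (av A a) (bv A η (rad A η) a s) l := fun a s =>
    hG m (Ix A) inferInstance (av A a) (bv A η (rad A η) a s)
  choose l _ h1 h2 using hl
  have h := count hLP h3 V l h1 h2 hfin
  rw [show m + 1 - 1 = m from rfl]
  calc (Lst A η (rad A η) V).ncard ≤ _ := h
    _ = _ := by ring

end Pool.Agent.Lib.MP_4e7804_co.Gp
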