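import Pool.Agent.Lib.MP_4e7804_co.Gp.Spec

/-! MP_4e7804_co, Theorem G+: assembly of the count of the exposed exponents. -/

set_option autoImplicit false

open Finset

namespace Pool.Agent.Lib.MP_4e7804_co.Gp

/-- the possible data: sign pattern, active box constraints, label functions -/
abbrev MainADt (d : ℕ) :=
  Σ σK : ((Fin (d + 1) → Bool) × Finset (Fin d × Bool)),
    (Fin (d - σK.2.card) → (Fin (d + 1) → Lab d))

theorem tMainA (hGenL : StmtGenL) (hKKT : StmtKKT) (hMultC : StmtMultC) (hEta : StmtEta)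
    (hNB : StmtNB) (hFar : StmtFar) (hArrG : StmtArrG) (hDgo : StmtDgo) (hSegG : StmtSegG)
    (hReg : StmtReg) (hLists : StmtLists) (hLabN : StmtLabN) (hCountF : StmtCountF)
    (hSame : StmtSame) (hAdm : StmtAdm) : StmtMainA := by
  classical
  intro d hd
  obtain ⟨C1, hC1⟩ := hLists d hd
  obtain ⟨C2, hC2⟩ := hCountF d (2 ^ (d + 1) * C1)
  obtain ⟨N, hN⟩ : ∃ N : ℕ, N = 2 ^ (2 * (d + 1) ^ 2 + (d + 1)) := ⟨_, rfl⟩
  refine ⟨2 ^ N * (Fintype.card ((Fin (d + 1) → Bool) × Finset (Fin d × Bool)) * C2), ?_⟩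
  intro A j hA hj
  obtain ⟨η, hη, g1, g2, g3⟩ := hEta d A
  refine ⟨η, hη, ?_⟩
  intro S ϕ hT
  generalize hη' : (fun i a => (η i a : ℝ)) = η' at g1 g2 g3 hT
  obtain ⟨ρ, hρ, hL⟩ := hC1 A η' hA g3
  obtain ⟨ρ', hρ', hF⟩ := hFar d A η' ρ
  obtain ⟨R, H, hR, hG, hX⟩ := hReg d A η' g1 S ϕ j (ρ' + 1) (by linarith)
  choose l hl using fun σ : Fin (d + 1) → Bool =>
    hGenL d ((Fin d × Bool) ⊕ Sh A j) inferInstance (fam (arrG A η' j (qq R j σ)))
      (off (arrG A η' j (qq R j σ)) (lo (ρ' + 1) H j σ) (hi (ρ' + 1) H j σ))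
  have hqR : ∀ σ : Fin (d + 1) → Bool, |qq R j σ| = (R : ℝ) := by
    intro σ
    unfold qq
    split_ifs
    · exact abs_of_nonneg (Nat.cast_nonneg R)
    · rw [abs_neg]
      exact abs_of_nonneg (Nat.cast_nonneg R)
  -- segments
  have hseg : ∀ α ∈ S, ∀ σ : Fin (d + 1) → Bool,
      SegP (arrG A η' j (qq R j σ)) (Dg S ϕ j (qq R j σ) α) := by
    intro α hα σ
    have hq : ((if σ j then (R : ℚ) else -(R : ℚ) : ℚ) : ℝ) = qq R j σ := by
      unfold qq
      split_ifs <;> push_cast <;> rfl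
    have := hSegG d A η' g1 S ϕ hT j (if σ j then (R : ℚ) else -(R : ℚ))
      (by rw [hq]; exact hG σ) α hα
    rw [hq] at this
    exact this
  -- the data of an exponent
  have key : ∀ a : {α // α ∈ S ∧ Exd S α}, ∃ (D : MainADt d) (x : Fin d → ℝ)
      (B : Finset ((Fin d × Bool) ⊕ Sh A j)) (cf : (Fin d × Bool) ⊕ Sh A j → ℝ),
      (Dg S ϕ j (qq R j D.1.1) a.1).Nonempty ∧ x ∈ closure (Dg S ϕ j (qq R j D.1.1) a.1) ∧
      Cert (arrG A η' j (qq R j D.1.1)) (lo (ρ' + 1) H j D.1.1) (hi (ρ' + 1) H j D.1.1)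
        (l D.1.1) x B cf ∧
      (∀ kb, Sum.inl kb ∈ B ↔ kb ∈ D.1.2) ∧ (∀ s, D.2 s ∈ LL A η' ρ) ∧
      (d - D.1.2.card = d → ∀ i, i ≠ j → ∃ s, i ∉ ptc (D.2 s)) ∧
      (∀ E, Sum.inr E ∈ B → ∃ s, IsLab E.1 (cf (Sum.inr E)) (D.2 s)) ∧
      ∀ s, ∃ E, Sum.inr E ∈ B ∧ IsLab E.1 (cf (Sum.inr E)) (D.2 s) := by
    rintro ⟨α, hα, hex⟩
    obtain ⟨σ, x0, hx0, hbox⟩ := hX α hα hex
    obtain ⟨ho, hc, -⟩ := hDgo d S ϕ j (qq R j σ)
    obtain ⟨x, B, cf, hx, hxb, hcert⟩ := hKKT d (Sh A j) inferInstance (arrG A η' j (qq R j σ))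
      (lo (ρ' + 1) H j σ) (hi (ρ' + 1) H j σ) (l σ) (hArrG d A η' j _) (hl σ).2.1
      (Dg S ϕ j (qq R j σ) α) (ho α) (hc α) (hseg α hα σ) ⟨x0, hx0, hbox⟩
    obtain ⟨r, K, F, hr, hK, hFL, hfree, h1, h2⟩ := hAdm d A η' ρ ρ' hF j (qq R j σ)
      (lo (ρ' + 1) H j σ) (hi (ρ' + 1) H j σ) (l σ) x B cf (hl σ).1
      (by rw [hqR σ]; linarith) (by
        intro k
        obtain ⟨h3, h4⟩ := hxb k
        unfold lo at h3
        unfold hi at h4
        by_cases hs : σ (j.succAbove k) = true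
        · rw [if_pos hs] at h3
          exact le_trans h3 (le_abs_self _)
        · rw [if_neg hs] at h4
          have := neg_le_abs (x k)
          linarith) hcert
    obtain rfl : r = d - K.card := by omega
    exact ⟨⟨(σ, K), F⟩, x, B, cf, ⟨x0, hx0⟩, hx, hcert, hK, hFL, hfree, h1, h2⟩
  choose Ψ x B cf hne hcl hcert hK hFL hfree h1 h2 using key
  haveI : Fintype {α // α ∈ S ∧ Exd S α} :=
    Fintype.subtype (S.filter (Exd S)) (by intro α; simp)
  rw [Nat.card_eq_fintype_card, ← Finset.card_univ]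
  -- fibres
  have hfib : ∀ b ∈ (univ : Finset {α // α ∈ S ∧ Exd S α}).image Ψ,
      (univ.filter fun a => Ψ a = b).card ≤ 2 ^ N := by
    intro b hb
    obtain ⟨a0, -, rfl⟩ := Finset.mem_image.1 hb
    have hx : ∀ a, Ψ a = Ψ a0 → x a = x a0 := by
      intro a ha
      have hca := hcert a
      have hKa := hK a
      have h1a := h1 a
      have h2a := h2 a
      rw [ha] at hca hKa h1a h2a
      refine hSame d A η' j _ _ _ _ (hl (Ψ a0).1.1).2.2 (x a) (x a0) (B a) (B a0) (cf a) (cf a0)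
        hca (hcert a0) ?_ ?_ ?_
      · intro kb
        rw [hKa, hK a0]
      · intro E hE
        obtain ⟨s, hs⟩ := h1a E hE
        obtain ⟨E', hE', hs'⟩ := h2 a0 s
        exact ⟨E', _, hE', hs, hs'⟩
      · intro E' hE'
        obtain ⟨s, hs⟩ := h1 a0 E' hE'
        obtain ⟨E, hE, hs'⟩ := h2a s
        exact ⟨E, _, hE, hs', hs⟩
    have hcard : (univ.filter fun a => Ψ a = Ψ a0).card =
        Fintype.card {a : {α // α ∈ S ∧ Exd S α} // Ψ a = Ψ a0} := (Fintype.card_subtype _).symm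
    rw [hcard]
    obtain ⟨ho, hc, hdis⟩ := hDgo d S ϕ j (qq R j (Ψ a0).1.1)
    refine hMultC d (Sh A j) inferInstance (arrG A η' j (qq R j (Ψ a0).1.1))
      (hArrG d A η' j _) {a : {α // α ∈ S ∧ Exd S α} // Ψ a = Ψ a0} inferInstance
      (fun a => Dg S ϕ j (qq R j (Ψ a0).1.1) a.1.1) (fun a => ho _) (fun a => hc _) ?_ ?_ ?_
      (x a0) ?_ N ?_
    · intro a
      have := hne a.1
      rw [a.2] at this
      exact this
    · intro a
      exact hseg a.1.1 a.1.2.1 _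
    · intro a a' haa
      refine hdis a.1.1 a.1.2.1 a'.1.1 a'.1.2.1 ?_
      intro h
      exact haa (Subtype.ext (Subtype.ext h))
    · intro a
      have := hcl a.1
      rw [a.2, hx a.1 a.2] at this
      exact this
    · rw [hN]
      refine le_trans ?_ (hNB d A η' g2 (full j (qq R j (Ψ a0).1.1) (x a0)))
      haveI : Finite {E // E ∈ CF A ∧
          ∑ i, nu E i * full j (qq R j (Ψ a0).1.1) (x a0) i + et η' E = 0} :=
        Set.Finite.to_subtype ((CF A).finite_toSet.subset fun E hE => hE.1)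
      refine Nat.card_le_card_of_injective (fun E => ⟨E.1.1, E.1.2.1, ?_⟩) ?_
      · have hE := E.2
        rw [sum_full]
        change (∑ k, nu E.1.1 (j.succAbove k) * x a0 k) +
          (nu E.1.1 j * (qq R j (Ψ a0).1.1) + et η' E.1.1) = 0 at hE
        linarith
      · intro E E' h
        simp only [Subtype.mk.injEq] at h
        exact Subtype.ext (Subtype.ext h)
  refine le_trans (Finset.card_le_mul_card_image _ _ hfib) ?_
  rw [mul_assoc]
  refine Nat.mul_le_mul_left _ ?_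
  -- the number of data
  have hcount := hC2 (fun i => (A i).card) j (fun i => Finset.card_pos.2 (hA i)) hj (LL A η' ρ)
    (by
      intro V
      obtain ⟨h3, h4⟩ := hLabN d A η' ρ V _ (hL V).1 (hL V).2
      refine ⟨h3, le_trans h4 (le_of_eq ?_)⟩
      ring)
  have hsub : (univ : Finset {α // α ∈ S ∧ Exd S α}).image Ψ ⊆
      (univ : Finset ((Fin (d + 1) → Bool) × Finset (Fin d × Bool))).sigma
        fun σK => (hcount (d - σK.2.card) (Nat.sub_le _ _)).1.toFinset := by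
    intro b hb
    obtain ⟨a, -, rfl⟩ := Finset.mem_image.1 hb
    rw [Finset.mem_sigma]
    refine ⟨Finset.mem_univ _, ?_⟩
    rw [Set.Finite.mem_toFinset]
    exact ⟨hFL a, hfree a⟩
  refine le_trans (Finset.card_le_card hsub) ?_
  rw [Finset.card_sigma, mul_assoc, ← Finset.card_univ]
  refine le_trans (Finset.sum_le_card_nsmul _ _ (C2 * ∏ i ∈ univ.erase j, (A i).card ^ (d - 1))
    ?_) (le_of_eq (smul_eq_mul _ _))
  intro σK _
  have h5 := (hcount (d - σK.2.card) (Nat.sub_le _ _)).2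
  rw [Set.ncard_eq_toFinset_card _ (hcount (d - σK.2.card) (Nat.sub_le _ _)).1] at h5
  exact h5

end Pool.Agent.Lib.MP_4e7804_co.Gp
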