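import Pool.Agent.Lib.MP_4e7804_co.Gp.Spec

/-! MP_4e7804_co, Theorem G+: the moment curve avoids finitely many hyperplanes. -/

set_option autoImplicit false

open Finset

namespace Pool.Agent.Lib.MP_4e7804_co.Gp

/-- the polynomial with the coefficients `f` -/
noncomputable def MomP {m : ℕ} (f : Fin m → ℝ) : Polynomial ℝ :=
  ∑ k : Fin m, Polynomial.C (f k) * Polynomial.X ^ (k : ℕ)

theorem MomP_eval {m : ℕ} (f : Fin m → ℝ) (t : ℝ) :
    (MomP f).eval t = ∑ k, f k * t ^ (k : ℕ) := by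
  simp [MomP, Polynomial.eval_finsetSum]

theorem MomP_coeff {m : ℕ} (f : Fin m → ℝ) (k : Fin m) : (MomP f).coeff k = f k := by
  classical
  simp only [MomP, Polynomial.finsetSum_coeff, Polynomial.coeff_C_mul, Polynomial.coeff_X_pow]
  rw [Finset.sum_eq_single k]
  · simp
  · intro b _ hb
    rw [if_neg, mul_zero]
    intro h
    exact hb (Fin.ext h.symm)
  · intro h
    exact absurd (Finset.mem_univ k) h

theorem tMom : StmtMom := by
  classical
  intro m F hF
  have hfin : (⋃ f ∈ F, {x : ℝ | (MomP f).IsRoot x}).Finite := by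
    refine Set.Finite.biUnion F.finite_toSet fun f hf => ?_
    refine Polynomial.finite_setOfPred_isRoot ?_
    intro h0
    apply hF f hf
    funext k
    rw [← MomP_coeff f k, h0]
    simp
  have hinj : Function.Injective (fun n : ℕ => ((n + 1 : ℕ) : ℝ)) := by
    intro a b h
    have h2 : ((a + 1 : ℕ) : ℝ) = ((b + 1 : ℕ) : ℝ) := h
    have : a + 1 = b + 1 := by exact_mod_cast h2
    omega
  obtain ⟨n, hn⟩ : ∃ n : ℕ, ((n + 1 : ℕ) : ℝ) ∉ ⋃ f ∈ F, {x : ℝ | (MomP f).IsRoot x} := by
    by_contra hcon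
    push Not at hcon
    exact Set.infinite_of_injective_forall_mem hinj hcon hfin
  refine ⟨n + 1, by omega, ?_⟩
  intro f hf h0
  apply hn
  rw [Set.mem_iUnion₂]
  refine ⟨f, hf, ?_⟩
  change (MomP f).eval _ = 0
  rw [MomP_eval]
  exact h0

end Pool.Agent.Lib.MP_4e7804_co.Gp
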