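import Pool.Agent.Lib.MP_4e7804_co.Gp.Spec

/-! MP_4e7804_co, Theorem G+, module Mult: two regions on the same sides. -/

set_option autoImplicit false

open Finset

namespace Pool.Agent.Lib.MP_4e7804_co.Gp

/-- rational points are dense -/
theorem Mult_rat {m : ℕ} (U : Set (Fin m → ℝ)) (hU : IsOpen U) (hne : U.Nonempty) :
    ∃ y : Fin m → ℚ, (fun k => (y k : ℝ)) ∈ U := by
  have h1 : DenseRange (Pi.map fun (_ : Fin m) (x : ℚ) => (x : ℝ)) :=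
    DenseRange.piMap fun _ => Rat.denseRange_cast
  obtain ⟨y, hy⟩ := h1.exists_mem_open hU hne
  exact ⟨y, hy⟩

theorem tMult : StmtMult := by
  classical
  intro m σ _ 𝒜 hA D D' hD hD' hcD hcD' hdis hseg x hx y hy y' hy' hE
  -- a ball around `x`
  have hW : IsOpen (⋂ E ∈ (univ.filter fun E => x ∉ closure (𝒜.Rz E)), (closure (𝒜.Rz E))ᶜ) :=
    isOpen_biInter_finset fun E _ => isClosed_closure.isOpen_compl
  have hxW : x ∈ ⋂ E ∈ (univ.filter fun E => x ∉ closure (𝒜.Rz E)), (closure (𝒜.Rz E))ᶜ := by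
    simp only [Set.mem_iInter, mem_filter, mem_univ, true_and]
    exact fun E hE => hE
  obtain ⟨r, hr, hball⟩ := Metric.isOpen_iff.1 hW x hxW
  have hfar : ∀ E, ∀ z ∈ Metric.ball x r, z ∈ 𝒜.Rz E → x ∈ closure (𝒜.Rz E) := by
    intro E z hz hzE
    by_contra hn
    have h1 := hball hz
    simp only [Set.mem_iInter, mem_filter, mem_univ, true_and] at h1
    exact h1 E hn (subset_closure hzE)
  have hnear : ∀ E, x ∈ closure (𝒜.Rz E) → 𝒜.ν E ⬝ᵥ x + 𝒜.c E = 0 := by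
    intro E hE
    have hcl : IsClosed {z : Fin m → ℝ | 𝒜.ν E ⬝ᵥ z + 𝒜.c E = 0} := by
      refine isClosed_eq ?_ continuous_const
      unfold dotProduct
      fun_prop
    have hsub : 𝒜.Rz E ⊆ {z : Fin m → ℝ | 𝒜.ν E ⬝ᵥ z + 𝒜.c E = 0} := fun z hz => hA.eq E z hz
    exact (hcl.closure_subset_iff.2 hsub) hE
  -- the open set of the points on the correct sides
  set U : Set (Fin m → ℝ) := {z | ∀ E, 𝒜.ν E ⬝ᵥ x + 𝒜.c E = 0 →
    0 < (𝒜.ν E ⬝ᵥ (y - x)) * (𝒜.ν E ⬝ᵥ (z - x))} with hUdef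
  have hU : IsOpen U := by
    have h1 : U = ⋂ E ∈ (univ.filter fun E => 𝒜.ν E ⬝ᵥ x + 𝒜.c E = 0),
        {z | 0 < (𝒜.ν E ⬝ᵥ (y - x)) * (𝒜.ν E ⬝ᵥ (z - x))} := by
      ext z
      simp only [hUdef, Set.mem_iInter, mem_filter, mem_univ, true_and, Set.mem_ofPred_eq]
    rw [h1]
    refine isOpen_biInter_finset fun E _ => isOpen_lt continuous_const ?_
    unfold dotProduct
    fun_prop
  -- points close to `x`
  have hpt : ∀ v : Fin m → ℝ, ∀ᶠ ε : ℝ in nhdsWithin 0 (Set.Ioi 0), x + ε • v ∈ Metric.ball x r := by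
    intro v
    refine Filter.Eventually.filter_mono nhdsWithin_le_nhds ?_
    have hc : Continuous fun ε : ℝ => x + ε • v := by fun_prop
    have h2 : x + (0 : ℝ) • v ∈ Metric.ball x r := by
      rw [zero_smul, add_zero]
      exact Metric.mem_ball_self hr
    exact hc.continuousAt.eventually (Metric.isOpen_ball.mem_nhds h2)
  have hlt1 : ∀ᶠ ε : ℝ in nhdsWithin 0 (Set.Ioi 0), ε < 1 :=
    Filter.Eventually.filter_mono nhdsWithin_le_nhds (gt_mem_nhds one_pos)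
  have hkey : ∀ (G : Set (Fin m → ℝ)), IsOpen G → Convex ℝ G → x ∈ closure G → ∀ v ∈ G,
      (∀ E, 𝒜.ν E ⬝ᵥ x + 𝒜.c E = 0 → 0 < (𝒜.ν E ⬝ᵥ (y - x)) * (𝒜.ν E ⬝ᵥ (v - x))) →
      ∃ q : Fin m → ℚ, (fun k => (q k : ℝ)) ∈ G ∩ Metric.ball x r ∩ U := by
    intro G hG hcG hxG v hv hvE
    obtain ⟨ε, ⟨hε1, hε2⟩, hε3⟩ := (((hpt (v - x)).and hlt1).and self_mem_nhdsWithin).exists
    have hε3' : 0 < ε := hε3
    refine Mult_rat _ ((hG.inter Metric.isOpen_ball).inter hU) ⟨x + ε • (v - x), ⟨?_, hε1⟩, ?_⟩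
    · have h3 := hcG.add_smul_sub_mem_interior' hxG (by rwa [hG.interior_eq])
        (⟨hε3', hε2.le⟩ : ε ∈ Set.Ioc (0 : ℝ) 1)
      rwa [hG.interior_eq] at h3
    · intro E hE0
      have h4 : 𝒜.ν E ⬝ᵥ (x + ε • (v - x) - x) = ε * (𝒜.ν E ⬝ᵥ (v - x)) := by
        rw [add_sub_cancel_left, dotProduct_smul, smul_eq_mul]
      rw [h4]
      have := mul_pos hε3' (hvE E hE0)
      linarith [this]
  obtain ⟨q, ⟨hq1, hq2⟩, hq3⟩ := hkey D hD hcD hx.1 y hy (fun E hE0 => by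
    have h5 := hE E hE0
    have h6 : 𝒜.ν E ⬝ᵥ (y - x) ≠ 0 := fun h => by rw [h, zero_mul] at h5; exact lt_irrefl _ h5
    exact mul_self_pos.2 h6)
  obtain ⟨q', ⟨hq1', hq2'⟩, hq3'⟩ := hkey D' hD' hcD' hx.2 y' hy' hE
  have hnot : (fun k => (q' k : ℝ)) ∉ D := fun h => Set.disjoint_left.1 hdis h hq1'
  obtain ⟨θ, h0, h1, E, hz⟩ := hseg q q' hq1 hnot
  set z : Fin m → ℝ := fun k => (1 - θ) * (q k : ℝ) + θ * (q' k : ℝ) with hzdef
  have hz' : z = (1 - θ) • (fun k => (q k : ℝ)) + θ • (fun k => (q' k : ℝ)) := rfl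
  have hzb : z ∈ Metric.ball x r := by
    rw [hz']
    exact (convex_ball x r) hq2 hq2' (by linarith) h0 (by ring)
  have hE0 := hnear E (hfar E z hzb hz)
  have h7 := hA.eq E z hz
  have h8 : 𝒜.ν E ⬝ᵥ (z - x) = 0 := by
    rw [dotProduct_sub]
    linarith
  have h9 : z - x = (1 - θ) • ((fun k => (q k : ℝ)) - x) + θ • ((fun k => (q' k : ℝ)) - x) := by
    rw [hz']
    funext k
    simp only [Pi.sub_apply, Pi.add_apply, Pi.smul_apply, smul_eq_mul]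
    ring
  rw [h9, dotProduct_add, dotProduct_smul, dotProduct_smul, smul_eq_mul, smul_eq_mul] at h8
  have h10 := hq3 E hE0
  have h11 := hq3' E hE0
  have h12 : (1 - θ) * ((𝒜.ν E ⬝ᵥ (y - x)) * (𝒜.ν E ⬝ᵥ ((fun k => (q k : ℝ)) - x))) +
      θ * ((𝒜.ν E ⬝ᵥ (y - x)) * (𝒜.ν E ⬝ᵥ ((fun k => (q' k : ℝ)) - x))) = 0 := by
    linear_combination (𝒜.ν E ⬝ᵥ (y - x)) * h8
  rcases eq_or_lt_of_le h0 with h13 | h13
  · rw [← h13] at h12
    linarith
  · have h14 := mul_pos h13 h11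
    have h15 := mul_nonneg (by linarith : 0 ≤ 1 - θ) h10.le
    linarith

end Pool.Agent.Lib.MP_4e7804_co.Gp
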