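import Pool.Agent.Lib.MP_4e7804_co.Gp.Spec

/-! MP_4e7804_co, Theorem G+: the number of regions at a point. -/

set_option autoImplicit false

open Finset

namespace Pool.Agent.Lib.MP_4e7804_co.Gp

/-- A nonempty open set is not contained in finitely many hyperplanes. -/
theorem multC_point {m : ℕ} {σ : Type} [Fintype σ] (ν : σ → Fin m → ℝ) (hν : ∀ E, ν E ≠ 0)
    (D : Set (Fin m → ℝ)) (hD : IsOpen D) (hne : D.Nonempty) (x : Fin m → ℝ) :
    ∃ y ∈ D, ∀ E, ν E ⬝ᵥ (y - x) ≠ 0 := by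
  classical
  have key : ∀ s : Finset σ, ∃ y ∈ D, ∀ E ∈ s, ν E ⬝ᵥ (y - x) ≠ 0 := by
    intro s
    induction s using Finset.induction_on with
    | empty =>
      obtain ⟨y, hy⟩ := hne
      exact ⟨y, hy, by simp⟩
    | insert E s _ ih =>
      obtain ⟨y, hy, hs⟩ := ih
      by_cases h0 : ν E ⬝ᵥ (y - x) = 0
      · -- move a little in the direction `ν E`
        have hcont : Continuous fun ε : ℝ => y + ε • ν E := by fun_prop
        have h1 : ∀ᶠ ε : ℝ in nhds 0, y + ε • ν E ∈ D := by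
          have : (fun ε : ℝ => y + ε • ν E) 0 ∈ D := by simpa using hy
          exact hcont.continuousAt.eventually (hD.mem_nhds this)
        have h2 : ∀ F ∈ s, ∀ᶠ ε : ℝ in nhds 0, ν F ⬝ᵥ (y + ε • ν E - x) ≠ 0 := by
          intro F hF
          have hc : Continuous fun ε : ℝ => ν F ⬝ᵥ (y + ε • ν E - x) := by
            unfold dotProduct
            fun_prop
          have : (fun ε : ℝ => ν F ⬝ᵥ (y + ε • ν E - x)) 0 ≠ 0 := by simpa using hs F hF
          exact hc.continuousAt.eventually_ne this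
        have h3 : ∀ᶠ ε : ℝ in nhds 0, ∀ F ∈ s, ν F ⬝ᵥ (y + ε • ν E - x) ≠ 0 :=
          (Filter.eventually_all_finset s).2 h2
        obtain ⟨r, hr, hball⟩ := Metric.eventually_nhds_iff.1 (h1.and h3)
        have h4 := hball (y := r / 2) (by rw [Real.dist_eq, sub_zero, abs_of_pos (by positivity)]; linarith)
        refine ⟨y + (r / 2) • ν E, h4.1, ?_⟩
        intro F hF
        rcases Finset.mem_insert.1 hF with rfl | hF
        · have e : ν F ⬝ᵥ (y + (r / 2) • ν F - x) = ν F ⬝ᵥ (y - x) + (r / 2) * (ν F ⬝ᵥ ν F) := by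
            rw [add_sub_right_comm, dotProduct_add, dotProduct_smul, smul_eq_mul]
          rw [e, h0, zero_add]
          have h5 : ν F ⬝ᵥ ν F ≠ 0 := by
            intro h
            exact hν F (dotProduct_self_eq_zero.1 h)
          exact mul_ne_zero (by positivity) h5
        · exact h4.2 F hF
      · refine ⟨y, hy, ?_⟩
        intro F hF
        rcases Finset.mem_insert.1 hF with rfl | hF
        · exact h0
        · exact hs F hF
  obtain ⟨y, hy, h⟩ := key univ
  exact ⟨y, hy, fun E => h E (mem_univ E)⟩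

theorem tMultC (hM : StmtMult) : StmtMultC := by
  intro m σ _ 𝒜 hA κ _ D hO hC hN hS hdis x hx N hcard
  classical
  have hy := fun i => multC_point 𝒜.ν hA.ne (D i) (hO i) (hN i) x
  choose y hyD hyne using hy
  let T : Finset σ := univ.filter fun E => 𝒜.ν E ⬝ᵥ x + 𝒜.c E = 0
  have hT : T.card ≤ N := by
    have e : Nat.card {E // 𝒜.ν E ⬝ᵥ x + 𝒜.c E = 0} = T.card := by
      rw [Nat.card_eq_fintype_card, Fintype.card_subtype]
    rw [← e]
    exact hcard
  let φ : κ → Finset σ := fun i => T.filter fun E => 0 < 𝒜.ν E ⬝ᵥ (y i - x)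
  have hφ : ∀ i, φ i ∈ T.powerset := fun i => mem_powerset.2 (filter_subset _ _)
  have hinj : Function.Injective φ := by
    intro i i' h
    by_contra hne
    refine hM m σ inferInstance 𝒜 hA (D i) (D i') (hO i) (hO i') (hC i) (hC i') (hdis i i' hne)
      (hS i) x ⟨hx i, hx i'⟩ (y i) (hyD i) (y i') (hyD i') ?_
    intro E hE
    have hET : E ∈ T := by simp [T, hE]
    have hiff : (0 < 𝒜.ν E ⬝ᵥ (y i - x)) ↔ (0 < 𝒜.ν E ⬝ᵥ (y i' - x)) := by
      have h1 : E ∈ φ i ↔ E ∈ φ i' := by rw [h]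
      simpa [φ, hET] using h1
    rcases lt_trichotomy (𝒜.ν E ⬝ᵥ (y i - x)) 0 with h1 | h1 | h1
    · have h2 : ¬ 0 < 𝒜.ν E ⬝ᵥ (y i' - x) := fun h2 => by
        have := hiff.2 h2
        linarith
      have h3 : 𝒜.ν E ⬝ᵥ (y i' - x) < 0 :=
        lt_of_le_of_ne (not_lt.1 h2) (hyne i' E)
      exact mul_pos_of_neg_of_neg h1 h3
    · exact absurd h1 (hyne i E)
    · exact mul_pos h1 (hiff.1 h1)
  calc Fintype.card κ = (univ : Finset κ).card := (card_univ).symm
    _ ≤ T.powerset.card := card_le_card_of_injOn φ (fun i _ => hφ i) (hinj.injOn)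
    _ = 2 ^ T.card := card_powerset T
    _ ≤ 2 ^ N := Nat.pow_le_pow_right (by norm_num) hT

end Pool.Agent.Lib.MP_4e7804_co.Gp
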