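import Pool.Agent.Lib.MP_4e7804_co.Gp.Spec

/-!
# MP_4e7804_co, Theorem G+, module NB: the number of circuits through a point
-/

set_option autoImplicit false

open Finset

namespace Pool.Agent.Lib.MP_4e7804_co.Gp

theorem nb_card {d : ℕ} {A : Fin (d + 1) → Finset (Fin d → ℤ)} {E : Finset (Elt d)}
    (h : Cir A E) : E.card ≤ 2 * (d + 1) := by
  classical
  have h1 : E.card = ∑ i : Fin (d + 1), (E.filter fun x => x.1 = i).card :=
    Finset.card_eq_sum_card_fiberwise (fun x _ => Finset.mem_coe.2 (mem_univ _))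
  rw [h1]
  calc ∑ i : Fin (d + 1), (E.filter fun x => x.1 = i).card
      ≤ ∑ _i : Fin (d + 1), 2 := Finset.sum_le_sum fun i _ => h.two i
    _ = 2 * (d + 1) := by simp [mul_comm]

theorem tNB : StmtNB := by
  classical
  intro d A η hG2 y
  set S : Finset (Finset (Elt d)) :=
    (CF A).filter (fun E => ∑ i, nu E i * y i + et η E = 0) with hS
  have hSsub : S ⊆ CF A := Finset.filter_subset _ _
  have hSeq : ∀ E ∈ S, ∑ i, nu E i * y i + et η E = 0 := fun E hE => (mem_filter.1 hE).2
  rw [Nat.subtype_card S (fun E => by rw [hS, mem_filter])]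
  -- relations of the normal vectors are relations of the coefficient vectors
  have hrel : ∀ t : Finset (Elt d) → ℝ, (∀ i, ∑ E ∈ S, t E * nu E i = 0) →
      ∀ x, ∑ E ∈ S, t E * gv E x = 0 := by
    intro t ht x
    by_contra hx
    obtain ⟨t', ht', hne⟩ := hG2 S hSsub ⟨t, ht, x, hx⟩
    apply hne
    have h1 : ∑ E ∈ S, t' E * (∑ i, nu E i * y i + et η E) = 0 :=
      Finset.sum_eq_zero fun E hE => by rw [hSeq E hE, mul_zero]
    have h2 : ∑ E ∈ S, t' E * (∑ i, nu E i * y i + et η E) =
        ∑ i, (∑ E ∈ S, t' E * nu E i) * y i + ∑ E ∈ S, t' E * et η E := by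
      simp only [mul_add, Finset.sum_add_distrib, Finset.mul_sum, Finset.sum_mul]
      rw [Finset.sum_comm]
      congr 1
      refine Finset.sum_congr rfl fun i _ => Finset.sum_congr rfl fun E _ => ?_
      ring
    rw [h1] at h2
    simp only [ht', zero_mul, Finset.sum_const_zero, zero_add] at h2
    exact h2.symm
  -- a maximal independent subfamily of the normal vectors
  obtain ⟨b, hbS, -, hspan, hli⟩ := exists_linearIndepOn_extension
    (linearIndepOn_empty ℝ (fun E : Finset (Elt d) => nu E)) (Set.empty_subset (S : Set _))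
  have hbfin : b.Finite := S.finite_toSet.subset hbS
  set S0 : Finset (Finset (Elt d)) := hbfin.toFinset with hS0
  have hS0b : (S0 : Set (Finset (Elt d))) = b := hbfin.coe_toFinset
  have hS0S : S0 ⊆ S := by
    intro E hE
    exact Finset.mem_coe.1 (hbS (hbfin.mem_toFinset.1 hE))
  have hcard0 : S0.card ≤ d + 1 := by
    have hli' : LinearIndepOn ℝ (fun E : Finset (Elt d) => nu E) (S0 : Set (Finset (Elt d))) := by
      rw [hS0b]; exact hli
    have h1 : LinearIndependent ℝ (fun E : S0 => nu (E : Finset (Elt d))) := hli'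
    have h2 := h1.fintype_card_le_finrank
    rw [Module.finrank_fin_fun, Fintype.card_coe] at h2
    exact h2
  -- every coefficient vector is a combination
  have hcomb : ∀ E ∈ S, ∃ c : Finset (Elt d) → ℝ, ∀ x, gv E x = ∑ E0 ∈ S0, c E0 * gv E0 x := by
    intro E hE
    have h1 : nu E ∈ Submodule.span ℝ ((fun E : Finset (Elt d) => nu E) '' (S0 : Set _)) := by
      rw [hS0b]
      exact hspan ⟨E, Finset.mem_coe.2 hE, rfl⟩
    rw [Submodule.mem_span_image_finset_iff_exists_fun'] at h1
    obtain ⟨c, hc⟩ := h1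
    refine ⟨c, fun x => ?_⟩
    have h2 := hrel (fun E' => (if E' = E then 1 else 0) - (if E' ∈ S0 then c E' else 0)) (by
      intro i
      simp only [sub_mul, ite_mul, one_mul, zero_mul, Finset.sum_sub_distrib]
      rw [Finset.sum_ite_eq' S E, if_pos hE, Finset.sum_ite_mem,
        Finset.inter_eq_right.2 hS0S]
      have h3 := congrFun hc i
      rw [Finset.sum_apply] at h3
      simp only [Pi.smul_apply, smul_eq_mul] at h3
      rw [h3, sub_self]) x
    simp only [sub_mul, ite_mul, one_mul, zero_mul, Finset.sum_sub_distrib] at h2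
    rw [Finset.sum_ite_eq' S E, if_pos hE, Finset.sum_ite_mem,
      Finset.inter_eq_right.2 hS0S] at h2
    linarith
  -- the universe of the elements
  set U : Finset (Elt d) := S0.biUnion id ∪ univ.image (fun i : Fin (d + 1) => (i, none)) with hU
  have hUcard : U.card ≤ 2 * (d + 1) ^ 2 + (d + 1) := by
    have h1 : (S0.biUnion id).card ≤ S0.card * (2 * (d + 1)) :=
      Finset.card_biUnion_le_card_mul _ _ _ fun E hE =>
        nb_card (mem_CF.1 (hSsub (hS0S hE)))
    have h2 : (univ.image (fun i : Fin (d + 1) => ((i, none) : Elt d))).card ≤ d + 1 := by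
      refine Finset.card_image_le.trans ?_
      simp
    have h3 : S0.card * (2 * (d + 1)) ≤ (d + 1) * (2 * (d + 1)) :=
      Nat.mul_le_mul_right _ hcard0
    calc U.card ≤ (S0.biUnion id).card +
        (univ.image (fun i : Fin (d + 1) => ((i, none) : Elt d))).card := Finset.card_union_le _ _
      _ ≤ (d + 1) * (2 * (d + 1)) + (d + 1) := Nat.add_le_add (h1.trans h3) h2
      _ = 2 * (d + 1) ^ 2 + (d + 1) := by ring
  have hsubU : S ⊆ U.powerset := by
    intro E hE
    rw [Finset.mem_powerset]
    intro x hx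
    obtain ⟨i, o⟩ := x
    rw [hU, mem_union]
    cases o with
    | none => exact Or.inr (mem_image.2 ⟨i, mem_univ _, rfl⟩)
    | some p =>
      left
      obtain ⟨c, hc⟩ := hcomb E hE
      have hrelE := (mem_CF.1 (hSsub hE)).kap
      have h1 : gv E (i, some p) ≠ 0 := (hrelE.supp _).2 hx
      rw [hc] at h1
      obtain ⟨E0, hE0, h2⟩ := Finset.exists_ne_zero_of_sum_ne_zero h1
      have h3 : gv E0 (i, some p) ≠ 0 := right_ne_zero_of_mul h2
      have hrelE0 := (mem_CF.1 (hSsub (hS0S hE0))).kap
      have h4 : (i, some p) ∈ E0 := (hrelE0.supp _).1 h3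
      exact mem_biUnion.2 ⟨E0, hE0, h4⟩
  calc S.card ≤ U.powerset.card := Finset.card_le_card hsubU
    _ = 2 ^ U.card := Finset.card_powerset U
    _ ≤ 2 ^ (2 * (d + 1) ^ 2 + (d + 1)) := Nat.pow_le_pow_right (by norm_num) hUcard

end Pool.Agent.Lib.MP_4e7804_co.Gp
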