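import Pool.Agent.Lib.MP_4e7804_co.Gp.Spec

/-! MP_4e7804_co, Theorem G+, module Real: a point of the tropical set lies on a sheet. -/

set_option autoImplicit false

open Finset

namespace Pool.Agent.Lib.MP_4e7804_co.Gp

theorem tReal (hVal : StmtVal) : StmtReal := by
  classical
  intro d A η hG1 w y hTW
  -- the two elements of every colour
  have hch : ∀ i, ∃ o o' : Option (Fin d → ℤ), o ≠ o' ∧ ∀ p, (o = some p ∨ o' = some p) →
      p ∈ Bs A η w i ∧ ((o = none ∨ o' = none) → y i = val η i p w) := by
    intro i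
    rcases hTW i with ⟨a, ha, hy⟩ | h2
    · refine ⟨none, some a, by simp, fun p hp => ?_⟩
      rcases hp with hp | hp
      · simp at hp
      · simp only [Option.some.injEq] at hp
        subst hp
        exact ⟨ha, fun _ => hy⟩
    · obtain ⟨a, ha, b, hb, hab⟩ := Finset.one_lt_card.1 h2
      refine ⟨some a, some b, by simpa using hab, fun p hp => ⟨?_, fun h => by simp at h⟩⟩
      rcases hp with hp | hp
      · simp only [Option.some.injEq] at hp
        subst hp
        exact ha
      · simp only [Option.some.injEq] at hp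
        subst hp
        exact hb
  choose o o' hne hoo using hch
  -- a linear relation
  obtain ⟨g, hg, i₀, hi₀⟩ : ∃ g : Fin (d + 1) → ℝ,
      ∑ i, g i • (fun k : Fin d => vc (o i) k - vc (o' i) k) = 0 ∧ ∃ i, g i ≠ 0 := by
    have h1 : ¬ LinearIndependent ℝ
        (fun (i : Fin (d + 1)) => (fun k : Fin d => vc (o i) k - vc (o' i) k)) := by
      intro h
      have h2 := h.fintype_card_le_finrank
      rw [Fintype.card_fin, Module.finrank_fin_fun] at h2
      omega
    exact Fintype.not_linearIndependent_iff.1 h1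
  set κ : Elt d → ℝ := fun x => (if x.2 = o x.1 then g x.1 else 0) -
    (if x.2 = o' x.1 then g x.1 else 0) with hκ
  set E : Finset (Elt d) := (univ.filter fun i => g i ≠ 0).biUnion
    fun i => {(i, o i), (i, o' i)} with hE
  have hmem : ∀ x : Elt d, x ∈ E ↔ g x.1 ≠ 0 ∧ (x.2 = o x.1 ∨ x.2 = o' x.1) := by
    rintro ⟨i, q⟩
    rw [hE, mem_biUnion]
    simp only [mem_filter, mem_univ, true_and, mem_insert, mem_singleton, Prod.mk.injEq]
    constructor
    · rintro ⟨i', hi', ⟨rfl, h⟩ | ⟨rfl, h⟩⟩
      · exact ⟨hi', Or.inl h⟩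
      · exact ⟨hi', Or.inr h⟩
    · rintro ⟨h1, h2 | h2⟩
      · exact ⟨i, h1, Or.inl ⟨rfl, h2⟩⟩
      · exact ⟨i, h1, Or.inr ⟨rfl, h2⟩⟩
  have hκo : ∀ i, κ (i, o i) = g i := by
    intro i
    rw [hκ]
    simp only [if_true, if_neg (hne i), sub_zero]
  have hκo' : ∀ i, κ (i, o' i) = - g i := by
    intro i
    rw [hκ]
    simp only [if_true, if_neg (hne i).symm, zero_sub]
  have hsupp : ∀ x, κ x ≠ 0 ↔ x ∈ E := by
    rintro ⟨i, q⟩
    rw [hmem]
    by_cases h1 : q = o i
    · subst h1
      rw [hκo]
      simp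
    · by_cases h2 : q = o' i
      · subst h2
        rw [hκo']
        simp
      · have : κ (i, q) = 0 := by
          rw [hκ]
          simp only [if_neg h1, if_neg h2, sub_zero]
        rw [this]
        simp [h1, h2]
  have hdisj : Set.PairwiseDisjoint (↑(univ.filter fun i => g i ≠ 0) : Set (Fin (d + 1)))
      (fun i => ({(i, o i), (i, o' i)} : Finset (Elt d))) := by
    intro i _ i' _ hii'
    rw [Function.onFun, Finset.disjoint_left]
    intro x hx hx'
    simp only [mem_insert, mem_singleton] at hx hx'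
    apply hii'
    rcases hx with rfl | rfl <;> rcases hx' with h | h <;> exact congrArg Prod.fst h
  have hsumE : ∀ G : Elt d → ℝ, ∑ x ∈ E, κ x * G x =
      ∑ i, g i * (G (i, o i) - G (i, o' i)) := by
    intro G
    rw [hE, sum_biUnion hdisj, sum_filter]
    refine sum_congr rfl fun i _ => ?_
    split_ifs with h
    · rw [sum_pair (fun h' => hne i (congrArg Prod.snd h')), hκo, hκo']
      ring
    · push Not at h
      rw [h]
      ring
  have hrel : IsRel E κ := by
    refine ⟨hsupp, fun i => ?_, fun k => ?_⟩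
    · have h1 := hsumE (fun x => if x.1 = i then 1 else 0)
      rw [sum_filter]
      have h2 : ∑ x ∈ E, (if x.1 = i then κ x else 0) =
          ∑ x ∈ E, κ x * (if x.1 = i then 1 else 0) := by
        refine sum_congr rfl fun x _ => ?_
        split_ifs <;> ring
      rw [h2, h1]
      refine sum_eq_zero fun i' _ => ?_
      simp
    · have h1 := hsumE (fun x => vc x.2 k)
      rw [h1]
      have h2 := congrFun hg k
      rw [Finset.sum_apply] at h2
      exact h2
  have hcir : Cir A E := by
    refine ⟨⟨(i₀, o i₀), (hmem _).2 ⟨hi₀, Or.inl rfl⟩⟩, fun i p hp => ?_, fun i => ?_, κ, hrel⟩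
    · have h1 := (hmem _).1 hp
      have h2 := (hoo i p (h1.2.imp Eq.symm Eq.symm)).1
      unfold Bs at h2
      exact (mem_filter.1 h2).1
    · have h1 : (E.filter fun x => x.1 = i) ⊆ {(i, o i), (i, o' i)} := by
        rintro ⟨i', q⟩ hx
        rw [mem_filter, hmem] at hx
        obtain ⟨⟨-, h1⟩, h2⟩ := hx
        simp only at h1 h2
        subst h2
        simp only [mem_insert, mem_singleton, Prod.mk.injEq, true_and]
        exact h1
      exact (card_le_card h1).trans (card_le_two)
  have hrlz : Rlz A η E w y := by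
    intro i p hp
    have h1 := (hmem _).1 hp
    have h2 := hoo i p (h1.2.imp Eq.symm Eq.symm)
    refine ⟨h2.1, fun hn => h2.2 ?_⟩
    have h3 := (hmem _).1 hn
    exact h3.2.imp Eq.symm Eq.symm
  refine ⟨E, hcir, ?_, hrlz⟩
  by_contra hall
  push Not at hall
  have h1 := hG1 E hcir hall
  have h2 := (hVal d A η E hcir w y).2 hrlz
  apply h1
  rw [← h2]
  simp [hall]

end Pool.Agent.Lib.MP_4e7804_co.Gp
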