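import Pool.Agent.Lib.MP_4e7804_co.Gp.Spec
import Pool.Agent.Lib.MP_4e7804_co.Gp.Val
import Pool.Agent.Lib.MP_4e7804_co.Gp.LabE

/-! MP_4e7804_co, Theorem G+: the smaller elements determine the side of a circuit. -/

set_option autoImplicit false

open Finset

namespace Pool.Agent.Lib.MP_4e7804_co.Gp

/-- the sum over one colour -/
theorem Dat_sum {d : ℕ} {A : Fin (d + 1) → Finset (Fin d → ℤ)} {E : Finset (Elt d)}
    (h : Cir A E) (s : ℝ) (g : Elt d → ℝ) {i : Fin (d + 1)} {o : Option (Fin d → ℤ)}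
    (ho : (i, o) ∈ E) : ∃ o', o' ≠ o ∧ (i, o') ∈ E ∧
      ∑ x ∈ E with x.1 = i, s * (kap E x * g x) =
        (-(s * kap E (i, o))) * (g (i, o') - g (i, o)) := by
  classical
  obtain ⟨o', hne, ho', hk, hall⟩ := LabE_pair h ho
  refine ⟨o', hne, ho', ?_⟩
  have hs : E.filter (fun x => x.1 = i) = {(i, o), (i, o')} := by
    ext ⟨i', o''⟩
    rw [Finset.mem_filter, Finset.mem_insert, Finset.mem_singleton]
    constructor
    · rintro ⟨h1, h2⟩
      simp only at h2
      subst h2
      rcases hall o'' h1 with rfl | rfl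
      · exact Or.inl rfl
      · exact Or.inr rfl
    · rintro (hh | hh)
      · obtain ⟨rfl, rfl⟩ := Prod.mk.inj hh
        exact ⟨ho, rfl⟩
      · obtain ⟨rfl, rfl⟩ := Prod.mk.inj hh
        exact ⟨ho', rfl⟩
  rw [hs, Finset.sum_pair]
  · rw [hk]
    ring
  · intro hh
    exact hne (Prod.mk.inj hh).2.symm

theorem tDat : StmtDat := by
  classical
  intro d A η E E' s s' f h h' hf hf' w y hR
  rw [← Val_one A η E h w y, Finset.mul_sum]
  rw [← Finset.sum_fiberwise_of_maps_to (s := E) (t := univ) (g := fun x => x.1)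
    (fun x _ => Finset.mem_univ _)]
  refine Finset.sum_nonneg fun i _ => ?_
  obtain ⟨f1, f2, f3⟩ := hf i
  obtain ⟨-, f2', f3'⟩ := hf' i
  rcases hfi : f i with _ | (_ | ⟨p, b⟩)
  · have he : E.filter (fun x => x.1 = i) = ∅ := by
      rw [Finset.filter_eq_empty_iff]
      rintro ⟨i', o⟩ hx rfl
      exact f1.1 hfi o hx
    rw [he, Finset.sum_empty]
  · obtain ⟨h1, h2⟩ := f2.1 hfi
    obtain ⟨h1', -⟩ := f2'.1 hfi
    obtain ⟨o', hne, ho', hsum⟩ := Dat_sum h s (vl η w y) h1
    rw [hsum]
    refine mul_nonneg (by linarith) ?_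
    cases o' with
    | none => exact absurd rfl hne
    | some q =>
      obtain ⟨o2, hne2, ho2, -⟩ := LabE_pair h' h1'
      cases o2 with
      | none => exact absurd rfl hne2
      | some p =>
        obtain ⟨h3, h4⟩ := hR i p ho2
        have h5 := h4 h1'
        unfold Bs at h3
        rw [Finset.mem_filter] at h3
        have h6 := h3.2 q (h.sub i q ho')
        have e1 : vl η w y (i, some q) = val η i q w := rfl
        have e2 : vl η w y (i, none) = y i := rfl
        rw [e1, e2, h5]
        linarith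
  · obtain ⟨h1, h2, h3⟩ := (f3 p b).1 hfi
    obtain ⟨h1', -, h3'⟩ := (f3' p b).1 hfi
    obtain ⟨o', hne, ho', hsum⟩ := Dat_sum h s (vl η w y) h1
    rw [hsum]
    refine mul_nonneg (by linarith) ?_
    obtain ⟨h4, h5⟩ := hR i p h1'
    have e1 : vl η w y (i, some p) = val η i p w := rfl
    cases o' with
    | none =>
      have h6 := h5 (h3'.1 (h3.2 ho'))
      have e2 : vl η w y (i, none) = y i := rfl
      rw [e1, e2, h6, sub_self]
    | some q =>
      unfold Bs at h4
      rw [Finset.mem_filter] at h4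
      have h6 := h4.2 q (h.sub i q ho')
      have e2 : vl η w y (i, some q) = val η i q w := rfl
      rw [e1, e2]
      linarith

end Pool.Agent.Lib.MP_4e7804_co.Gp
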