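import Pool.Agent.Lib.MP_4e7804_co.Gp.Spec

/-! MP_4e7804_co, Theorem G+: certificates determine the point. -/

set_option autoImplicit false

open Finset

namespace Pool.Agent.Lib.MP_4e7804_co.Gp

theorem Det_le {m : ℕ} {σ : Type} (𝒜 : Arr m σ) (lo hi l x x' : Fin m → ℝ)
    (B : Finset ((Fin m × Bool) ⊕ σ)) (cf : (Fin m × Bool) ⊕ σ → ℝ)
    (h : Cert 𝒜 lo hi l x B cf)
    (hB : ∀ t ∈ B, 0 ≤ cf t * (fam 𝒜 t ⬝ᵥ x' - off 𝒜 lo hi t)) : l ⬝ᵥ x ≤ l ⬝ᵥ x' := by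
  have e : ∀ z : Fin m → ℝ, l ⬝ᵥ z = ∑ t ∈ B, cf t * (fam 𝒜 t ⬝ᵥ z) := by
    intro z
    rw [h.sum, sum_dotProduct]
    refine Finset.sum_congr rfl fun t _ => ?_
    rw [smul_dotProduct, smul_eq_mul]
  rw [e x, e x']
  refine Finset.sum_le_sum fun t ht => ?_
  have h1 := hB t ht
  have h2 := h.act t ht
  rw [h2]
  linarith

theorem tDet : StmtDet := by
  intro m σ 𝒜 lo hi l hg x x' B B' cf cf' h h' hB hB'
  have h1 := Det_le 𝒜 lo hi l x x' B cf h hB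
  have h2 := Det_le 𝒜 lo hi l x' x B' cf' h' hB'
  exact hg x ⟨B, h.card, h.ind, h.act⟩ x' ⟨B', h'.card, h'.ind, h'.act⟩ (le_antisymm h1 h2)

end Pool.Agent.Lib.MP_4e7804_co.Gp
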