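import Pool.Agent.Lib.MP_4e7804_co.Gp.Spec
import Pool.Agent.Lib.MP_4e7804_co.Gp.Dat
import Pool.Agent.Lib.MP_4e7804_co.Gp.Det

/-! MP_4e7804_co, Theorem G+: equal data give equal points. -/

set_option autoImplicit false

open Finset

namespace Pool.Agent.Lib.MP_4e7804_co.Gp

theorem Same_aux {d : ℕ} (A : Fin (d + 1) → Finset (Fin d → ℤ))
    (η : Fin (d + 1) → (Fin d → ℤ) → ℝ) (j : Fin (d + 1)) (q : ℝ) (lo hi l : Fin d → ℝ)
    (x' : Fin d → ℝ) (B B' : Finset ((Fin d × Bool) ⊕ Sh A j))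
    (cf cf' : (Fin d × Bool) ⊕ Sh A j → ℝ)
    (h' : Cert (arrG A η j q) lo hi l x' B' cf')
    (hinl : ∀ kb, Sum.inl kb ∈ B → Sum.inl kb ∈ B')
    (hinr : ∀ E, Sum.inr E ∈ B → ∃ E' f, Sum.inr E' ∈ B' ∧ IsLab E.1 (cf (Sum.inr E)) f ∧
      IsLab E'.1 (cf' (Sum.inr E')) f) :
    ∀ t ∈ B, 0 ≤ cf t * (fam (arrG A η j q) t ⬝ᵥ x' - off (arrG A η j q) lo hi t) := by
  intro t ht
  rcases t with kb | E
  · rw [h'.act _ (hinl kb ht), sub_self, mul_zero]
  · obtain ⟨E', f, hE', hf, hf'⟩ := hinr E ht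
    have hcl := (h'.sh E' hE').2
    have e : fam (arrG A η j q) (Sum.inr E) ⬝ᵥ x' - off (arrG A η j q) lo hi (Sum.inr E) =
        (arrG A η j q).ν E ⬝ᵥ x' + (arrG A η j q).c E := by
      change (arrG A η j q).ν E ⬝ᵥ x' - -(arrG A η j q).c E = _
      ring
    rw [e]
    have hclosed : IsClosed {z : Fin d → ℝ | 0 ≤ cf (Sum.inr E) *
        ((arrG A η j q).ν E ⬝ᵥ z + (arrG A η j q).c E)} := by
      refine isClosed_le continuous_const ?_
      refine continuous_const.mul (Continuous.add ?_ continuous_const)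
      unfold dotProduct
      exact continuous_finsetSum _ fun k _ => continuous_const.mul (continuous_apply k)
    have hsub : (arrG A η j q).Rz E' ⊆ {z : Fin d → ℝ | 0 ≤ cf (Sum.inr E) *
        ((arrG A η j q).ν E ⬝ᵥ z + (arrG A η j q).c E)} := by
      rintro z ⟨w, hw⟩
      have h1 := tDat d A η E.1 E'.1 _ _ f (mem_CF.1 E.2.1) (mem_CF.1 E'.2.1) hf hf' w
        (full j q z) hw
      rw [sum_full] at h1
      rw [Set.mem_ofPred_eq]
      have e2 : (arrG A η j q).ν E ⬝ᵥ z + (arrG A η j q).c E =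
          nu E.1 j * q + ∑ k, nu E.1 (j.succAbove k) * z k + et η E.1 := by
        change (∑ k, nu E.1 (j.succAbove k) * z k) + (nu E.1 j * q + et η E.1) = _
        ring
      rw [e2]
      exact h1
    exact closure_minimal hsub hclosed hcl

theorem tSame : StmtSame := by
  intro d A η j q lo hi l hg x x' B B' cf cf' h h' hinl h1 h2
  refine tDet d (Sh A j) (arrG A η j q) lo hi l hg x x' B B' cf cf' h h' ?_ ?_
  · exact Same_aux A η j q lo hi l x' B B' cf cf' h' (fun kb => (hinl kb).1) h1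
  · refine Same_aux A η j q lo hi l x B' B cf' cf h (fun kb => (hinl kb).2) ?_
    intro E' hE'
    obtain ⟨E, f, hE, hf, hf'⟩ := h2 E' hE'
    exact ⟨E, f, hE, hf', hf⟩

end Pool.Agent.Lib.MP_4e7804_co.Gp
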