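import Pool.Agent.Lib.MP_4e7804_co.Gp.Spec

/-! MP_4e7804_co, Theorem G+, SegG: segments leaving a region meet a sheet. -/

set_option autoImplicit false

open Finset

namespace Pool.Agent.Lib.MP_4e7804_co.Gp

/-- finitely many affine functions, positive at `0`, one of them not positive at `1`: the first
zero -/
theorem SegG_first {ι : Type} (S : Finset ι) (a b : ι → ℚ) (ha : ∀ i ∈ S, 0 < a i)
    (hb : ∃ i ∈ S, b i ≤ 0) :
    ∃ θ : ℚ, 0 ≤ θ ∧ θ ≤ 1 ∧ (∃ i ∈ S, (1 - θ) * a i + θ * b i = 0) ∧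
      ∀ i ∈ S, 0 ≤ (1 - θ) * a i + θ * b i := by
  classical
  obtain ⟨i₀, hi₀, hb₀⟩ := hb
  obtain ⟨i, hi, hmin⟩ := (S.filter fun i => b i ≤ 0).exists_min_image
    (fun i => a i / (a i - b i)) ⟨i₀, mem_filter.2 ⟨hi₀, hb₀⟩⟩
  rw [mem_filter] at hi
  have hpos : ∀ k ∈ S, b k ≤ 0 → 0 < a k - b k := fun k hk hbk => by
    have := ha k hk
    linarith
  have hi1 := hpos i hi.1 hi.2
  have h0 : 0 ≤ a i / (a i - b i) := div_nonneg (ha i hi.1).le hi1.le
  have h1 : a i / (a i - b i) ≤ 1 := by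
    rw [div_le_one hi1]
    linarith [hi.2]
  refine ⟨a i / (a i - b i), h0, h1, ⟨i, hi.1, ?_⟩, fun k hk => ?_⟩
  · field_simp
    ring
  · by_cases hbk : b k ≤ 0
    · have h2 := hmin k (mem_filter.2 ⟨hk, hbk⟩)
      have h3 := hpos k hk hbk
      rw [le_div_iff₀ h3] at h2
      linarith
    · have h2 : 0 ≤ (1 - a i / (a i - b i)) * a k := mul_nonneg (by linarith) (ha k hk).le
      have h3 : 0 ≤ a i / (a i - b i) * b k := mul_nonneg h0 (not_le.1 hbk).le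
      linarith

/-- the rational point of the chart -/
def SegG_z {d : ℕ} (j : Fin (d + 1)) (q : ℚ) (y : Fin d → ℚ) : Fin (d + 1) → ℚ :=
  j.insertNth q y

theorem SegG_full {d : ℕ} (j : Fin (d + 1)) (q : ℚ) (y : Fin d → ℚ) :
    (fun i => ((SegG_z j q y i : ℚ) : ℝ)) = full j q (fun k => (y k : ℝ)) := by
  funext i
  refine Fin.succAboveCases j ?_ (fun k => ?_) i
  · rw [full_self]
    simp [SegG_z]
  · rw [full_succAbove]
    simp [SegG_z]

/-- the value of an exponent -/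
def SegG_g {d : ℕ} (ϕ : (Fin (d + 1) →₀ ℕ) → ℚ) (β : Fin (d + 1) →₀ ℕ) (z : Fin (d + 1) → ℚ) : ℚ :=
  ϕ β + ∑ i, (β i : ℚ) * z i

theorem SegG_cast {d : ℕ} (ϕ : (Fin (d + 1) →₀ ℕ) → ℚ) (β : Fin (d + 1) →₀ ℕ)
    (j : Fin (d + 1)) (q : ℚ) (y : Fin d → ℚ) :
    ((SegG_g ϕ β (SegG_z j q y) : ℚ) : ℝ) =
      (ϕ β : ℝ) + ∑ i, (β i : ℝ) * full j q (fun k => (y k : ℝ)) i := by
  unfold SegG_g
  push_cast
  congr 1
  refine Finset.sum_congr rfl fun i _ => ?_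
  rw [← congrFun (SegG_full j q y) i]

theorem SegG_affine {d : ℕ} (ϕ : (Fin (d + 1) →₀ ℕ) → ℚ) (β : Fin (d + 1) →₀ ℕ)
    (j : Fin (d + 1)) (q : ℚ) (y y' : Fin d → ℚ) (θ : ℚ) :
    SegG_g ϕ β (SegG_z j q fun k => (1 - θ) * y k + θ * y' k) =
      (1 - θ) * SegG_g ϕ β (SegG_z j q y) + θ * SegG_g ϕ β (SegG_z j q y') := by
  have h : ∀ i, SegG_z j q (fun k => (1 - θ) * y k + θ * y' k) i =
      (1 - θ) * SegG_z j q y i + θ * SegG_z j q y' i := by
    intro i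
    refine Fin.succAboveCases j ?_ (fun k => ?_) i
    · simp only [SegG_z, Fin.insertNth_apply_same]
      ring
    · simp only [SegG_z, Fin.insertNth_apply_succAbove]
  unfold SegG_g
  have h1 : ∑ i, (β i : ℚ) * SegG_z j q (fun k => (1 - θ) * y k + θ * y' k) i =
      (1 - θ) * ∑ i, (β i : ℚ) * SegG_z j q y i + θ * ∑ i, (β i : ℚ) * SegG_z j q y' i := by
    rw [Finset.mul_sum, Finset.mul_sum, ← Finset.sum_add_distrib]
    refine Finset.sum_congr rfl fun i _ => ?_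
    rw [h]
    ring
  rw [h1]
  ring

theorem tSegG (hV : StmtVal) (hR : StmtReal) : StmtSegG := by
  classical
  intro d A η hG1 S ϕ hHT j q hgood α hα y y' hy hy'
  -- the rational inequalities
  have h0 : ∀ β ∈ S, β ≠ α → SegG_g ϕ α (SegG_z j q y) < SegG_g ϕ β (SegG_z j q y) := by
    intro β hβ hne
    have h := hy β hβ hne
    rw [← SegG_cast, ← SegG_cast] at h
    exact_mod_cast h
  have h1 : ∃ β ∈ S, β ≠ α ∧ SegG_g ϕ β (SegG_z j q y') ≤ SegG_g ϕ α (SegG_z j q y') := by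
    by_contra hcon
    push Not at hcon
    apply hy'
    intro β hβ hne
    have h := hcon β hβ hne
    rw [← SegG_cast, ← SegG_cast]
    exact_mod_cast h
  obtain ⟨θ, hθ0, hθ1, ⟨β, hβ, he⟩, hall⟩ := SegG_first (S.erase α)
    (fun β => SegG_g ϕ β (SegG_z j q y) - SegG_g ϕ α (SegG_z j q y))
    (fun β => SegG_g ϕ β (SegG_z j q y') - SegG_g ϕ α (SegG_z j q y'))
    (fun β hβ => sub_pos.2 (h0 β (mem_of_mem_erase hβ) (ne_of_mem_erase hβ)))
    (by
      obtain ⟨β, hβ, hne, h⟩ := h1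
      exact ⟨β, mem_erase.2 ⟨hne, hβ⟩, sub_nonpos.2 h⟩)
  set z : Fin (d + 1) → ℚ := SegG_z j q fun k => (1 - θ) * y k + θ * y' k with hz
  have hgz : ∀ γ, SegG_g ϕ γ z = (1 - θ) * SegG_g ϕ γ (SegG_z j q y) +
      θ * SegG_g ϕ γ (SegG_z j q y') := fun γ => SegG_affine ϕ γ j q y y' θ
  obtain ⟨w, hw⟩ := hHT z ⟨α, hα, β, mem_of_mem_erase hβ, (ne_of_mem_erase hβ).symm, by
      have h2 := hgz α
      have h3 := hgz β
      show SegG_g ϕ α z = SegG_g ϕ β z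
      rw [h2, h3]
      linarith, by
      intro γ hγ
      show SegG_g ϕ α z ≤ SegG_g ϕ γ z
      by_cases hγα : γ = α
      · rw [hγα]
      · have h2 := hgz α
        have h3 := hgz γ
        have h4 := hall γ (mem_erase.2 ⟨hγα, hγ⟩)
        rw [h2, h3]
        linarith⟩
  obtain ⟨E, hE, -, hRl⟩ := hR d A η hG1 w _ hw
  have hfull : (fun i => ((z i : ℚ) : ℝ)) =
      full j q (fun k => (1 - (θ : ℝ)) * (y k : ℝ) + (θ : ℝ) * (y' k : ℝ)) := by
    rw [hz, SegG_full]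
    congr 1
    funext k
    push_cast
    rfl
  rw [hfull] at hRl
  have hval := (hV d A η E hE w _).2 hRl
  rw [sum_full] at hval
  have hsh : ∃ k : Fin d, nu E (j.succAbove k) ≠ 0 := by
    by_contra hcon
    push Not at hcon
    apply hgood E (mem_CF.2 hE) hcon
    have h2 : ∑ k, nu E (j.succAbove k) *
        ((1 - (θ : ℝ)) * (y k : ℝ) + (θ : ℝ) * (y' k : ℝ)) = 0 :=
      Finset.sum_eq_zero fun k _ => by rw [hcon k, zero_mul]
    rw [h2, add_zero] at hval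
    exact hval
  exact ⟨(θ : ℝ), by exact_mod_cast hθ0, by exact_mod_cast hθ1, ⟨E, mem_CF.2 hE, hsh⟩, w, hRl⟩

end Pool.Agent.Lib.MP_4e7804_co.Gp
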