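import Pool.Agent.Lib.MP_4e7804_co.Gp.Spec

/-! MP_4e7804_co, Theorem G+: there are finitely many basic solutions. -/

set_option autoImplicit false

open Finset

namespace Pool.Agent.Lib.MP_4e7804_co.Gp

/-- a vector orthogonal to `m` independent vectors vanishes -/
theorem Xfin_zero {m : ℕ} {ι : Type} (a : ι → Fin m → ℝ) (B : Finset ι) (hB : B.card = m)
    (hi : LinearIndependent ℝ (fun t : B => a t)) (z : Fin m → ℝ)
    (hz : ∀ t ∈ B, a t ⬝ᵥ z = 0) : z = 0 := by
  have hspan : Submodule.span ℝ (Set.range fun t : B => a t) = ⊤ := by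
    apply LinearIndependent.span_eq_top_of_card_eq_finrank' hi
    simp [hB]
  have hz' : z ∈ Submodule.span ℝ (Set.range fun t : B => a t) := by
    rw [hspan]
    exact Submodule.mem_top
  have hall : ∀ v ∈ Submodule.span ℝ (Set.range fun t : B => a t), v ⬝ᵥ z = 0 := by
    intro v hv
    induction hv using Submodule.span_induction with
    | mem x hx =>
      obtain ⟨t, rfl⟩ := hx
      exact hz t t.2
    | zero => exact zero_dotProduct z
    | add x y _ _ hx hy => rw [add_dotProduct, hx, hy, add_zero]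
    | smul c x _ hx => rw [smul_dotProduct, hx, smul_zero]
  exact dotProduct_self_eq_zero.1 (hall z hz')

theorem tXfin : StmtXfin := by
  classical
  intro m ι _ a β
  have hsub : Xs a β ⊆ ⋃ B ∈ (univ : Finset (Finset ι)),
      {x : Fin m → ℝ | B.card = m ∧ LinearIndependent ℝ (fun t : B => a t) ∧
        ∀ t ∈ B, a t ⬝ᵥ x = β t} := by
    rintro x ⟨B, h1, h2, h3⟩
    rw [Set.mem_iUnion₂]
    exact ⟨B, Finset.mem_univ _, h1, h2, h3⟩
  refine Set.Finite.subset ?_ hsub
  refine Set.Finite.biUnion (Finset.finite_toSet _) fun B _ => ?_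
  refine Set.Subsingleton.finite ?_
  rintro x ⟨h1, h2, h3⟩ x' ⟨-, -, h3'⟩
  have : x - x' = 0 := by
    refine Xfin_zero a B h1 h2 _ ?_
    intro t ht
    rw [dotProduct_sub, h3 t ht, h3' t ht, sub_self]
  exact sub_eq_zero.1 this

end Pool.Agent.Lib.MP_4e7804_co.Gp
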