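import Pool.Agent.Lib.MP_4e7804_co.Gp.Adm
import Pool.Agent.Lib.MP_4e7804_co.Gp.Arith
import Pool.Agent.Lib.MP_4e7804_co.Gp.ArrG
import Pool.Agent.Lib.MP_4e7804_co.Gp.CountF
import Pool.Agent.Lib.MP_4e7804_co.Gp.Dgo
import Pool.Agent.Lib.MP_4e7804_co.Gp.Eta
import Pool.Agent.Lib.MP_4e7804_co.Gp.FC
import Pool.Agent.Lib.MP_4e7804_co.Gp.Far
import Pool.Agent.Lib.MP_4e7804_co.Gp.Fin
import Pool.Agent.Lib.MP_4e7804_co.Gp.GenL
import Pool.Agent.Lib.MP_4e7804_co.Gp.KKT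
import Pool.Agent.Lib.MP_4e7804_co.Gp.LP
import Pool.Agent.Lib.MP_4e7804_co.Gp.LabE
import Pool.Agent.Lib.MP_4e7804_co.Gp.LabN
import Pool.Agent.Lib.MP_4e7804_co.Gp.Lists
import Pool.Agent.Lib.MP_4e7804_co.Gp.MainA
import Pool.Agent.Lib.MP_4e7804_co.Gp.Mom
import Pool.Agent.Lib.MP_4e7804_co.Gp.Mult
import Pool.Agent.Lib.MP_4e7804_co.Gp.MultC
import Pool.Agent.Lib.MP_4e7804_co.Gp.NB
import Pool.Agent.Lib.MP_4e7804_co.Gp.Real
import Pool.Agent.Lib.MP_4e7804_co.Gp.Reg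
import Pool.Agent.Lib.MP_4e7804_co.Gp.Same
import Pool.Agent.Lib.MP_4e7804_co.Gp.SegG
import Pool.Agent.Lib.MP_4e7804_co.Gp.Val
import Pool.Agent.Lib.MP_4e7804_co.Gp.Xfin

/-! MP_4e7804_co, Theorem G+: assembly of the combinatorial upper bound. -/

set_option autoImplicit false

namespace Pool.Agent.Lib.MP_4e7804_co.Gp

theorem allMainA : StmtMainA :=
  tMainA (tGenL tMom tXfin) (tKKT tFC) (tMultC tMult) (tEta tMom) tNB tFar tArrG tDgo
    (tSegG tVal (tReal tVal)) tReg (tLists (tGenL tMom tXfin) (tLP tFC)) tLabN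
    (tCountF tArith) tSame (tAdm tLabE)

/-- the combinatorial upper bound of Theorem G+ -/
theorem gplus : StmtFin := tFin allMainA

end Pool.Agent.Lib.MP_4e7804_co.Gp
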