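import Mathlib
import Pool.Agent.Lib.MP_4e7804_co.Up.GeoD

/-! MP_4e7804_co, Theorem G+ (order of growth of `V_n(v_1, …, v_n)` in all variables): definitions.

`d = n - 1`. Colours `i : Fin (d + 1)`, the affine functions `val η i p` of colour `i`, `p ∈ A i`, on
`ℝ^d`, and the variables `y i`. -/

set_option autoImplicit false

open Finset

namespace Pool.Agent.Lib.MP_4e7804_co.Gp

/-! ### Linear programming -/

/-- all solutions of `m` linearly independent equations of a finite family -/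
def Xs {m : ℕ} {ι : Type} (a : ι → Fin m → ℝ) (β : ι → ℝ) : Set (Fin m → ℝ) :=
  {x | ∃ B : Finset ι, B.card = m ∧ LinearIndependent ℝ (fun t : B => a t) ∧
    ∀ t ∈ B, a t ⬝ᵥ x = β t}

/-- `l` is in no proper subspace spanned by vectors of the family -/
def Gen1 {m : ℕ} {ι : Type} (a : ι → Fin m → ℝ) (l : Fin m → ℝ) : Prop :=
  ∀ B : Finset ι, l ∈ Submodule.span ℝ (a '' (B : Set ι)) →
    Submodule.span ℝ (a '' (B : Set ι)) = ⊤

/-- `l` separates the points of `Xs` -/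
def Gen2 {m : ℕ} {ι : Type} (a : ι → Fin m → ℝ) (β : ι → ℝ) (l : Fin m → ℝ) : Prop :=
  ∀ x ∈ Xs a β, ∀ x' ∈ Xs a β, l ⬝ᵥ x = l ⬝ᵥ x' → x = x'

/-! ### Arrangements -/

/-- the data of an arrangement of sheets -/
structure Arr (m : ℕ) (σ : Type) where
  /-- normal vectors -/
  ν : σ → Fin m → ℝ
  /-- constants -/
  c : σ → ℝ
  /-- the sheets -/
  Rz : σ → Set (Fin m → ℝ)

/-- the sheet `Rz E` lies in the hyperplane `ν E ⬝ᵥ x + c E = 0` -/
structure IsArr {m : ℕ} {σ : Type} (𝒜 : Arr m σ) : Prop where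
  eq : ∀ E, ∀ x ∈ 𝒜.Rz E, 𝒜.ν E ⬝ᵥ x + 𝒜.c E = 0
  ne : ∀ E, 𝒜.ν E ≠ 0

/-- the vectors of the box constraints and the sheets -/
def fam {m : ℕ} {σ : Type} (𝒜 : Arr m σ) : (Fin m × Bool) ⊕ σ → Fin m → ℝ
  | .inl kb => if kb.2 then -Pi.single kb.1 1 else Pi.single kb.1 1
  | .inr E => 𝒜.ν E

/-- the right hand sides -/
def off {m : ℕ} {σ : Type} (𝒜 : Arr m σ) (lo hi : Fin m → ℝ) : (Fin m × Bool) ⊕ σ → ℝ
  | .inl kb => if kb.2 then -hi kb.1 else lo kb.1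
  | .inr E => -𝒜.c E

/-- a segment from `D` to a point outside of `D` meets a sheet (for rational end points) -/
def SegP {m : ℕ} {σ : Type} (𝒜 : Arr m σ) (D : Set (Fin m → ℝ)) : Prop :=
  ∀ y y' : Fin m → ℚ, (fun k => (y k : ℝ)) ∈ D → (fun k => (y' k : ℝ)) ∉ D →
    ∃ θ : ℝ, 0 ≤ θ ∧ θ ≤ 1 ∧ ∃ E, (fun k => (1 - θ) * (y k : ℝ) + θ * (y' k : ℝ)) ∈ 𝒜.Rz E

/-- a certificate for the point `x` -/
structure Cert {m : ℕ} {σ : Type} (𝒜 : Arr m σ) (lo hi l x : Fin m → ℝ)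
    (B : Finset ((Fin m × Bool) ⊕ σ)) (cf : (Fin m × Bool) ⊕ σ → ℝ) : Prop where
  card : B.card = m
  ind : LinearIndependent ℝ (fun t : B => fam 𝒜 t)
  sum : l = ∑ t ∈ B, cf t • fam 𝒜 t
  act : ∀ t ∈ B, fam 𝒜 t ⬝ᵥ x = off 𝒜 lo hi t
  pos : ∀ kb, Sum.inl kb ∈ B → 0 < cf (Sum.inl kb)
  sh : ∀ E, Sum.inr E ∈ B → cf (Sum.inr E) ≠ 0 ∧ x ∈ closure (𝒜.Rz E)

/-! ### Circuits -/

/-- elements: `(i, none)` is the variable `y i`, `(i, some p)` the affine function `p` of colour `i` -/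
abbrev Elt (d : ℕ) := Fin (d + 1) × Option (Fin d → ℤ)

/-- the linear part of an element -/
def vc {d : ℕ} (o : Option (Fin d → ℤ)) (k : Fin d) : ℝ := o.elim 0 fun p => (p k : ℝ)

/-- the constant part of an element -/
def cs {d : ℕ} (η : Fin (d + 1) → (Fin d → ℤ) → ℝ) (x : Elt d) : ℝ := x.2.elim 0 (η x.1)

/-- the value of an element at `(w, y)` -/
def vl {d : ℕ} (η : Fin (d + 1) → (Fin d → ℤ) → ℝ) (w : Fin d → ℝ) (y : Fin (d + 1) → ℝ)
    (x : Elt d) : ℝ := x.2.elim (y x.1) fun p => val η x.1 p w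

/-- a relation with support `E` -/
structure IsRel {d : ℕ} (E : Finset (Elt d)) (κ : Elt d → ℝ) : Prop where
  supp : ∀ x, κ x ≠ 0 ↔ x ∈ E
  sum : ∀ i, ∑ x ∈ E with x.1 = i, κ x = 0
  vec : ∀ k, ∑ x ∈ E, κ x * vc x.2 k = 0

open Classical in
/-- the chosen relation -/
noncomputable def kap {d : ℕ} (E : Finset (Elt d)) : Elt d → ℝ :=
  if h : ∃ κ, IsRel E κ then h.choose else 0

/-- the normal vector of a circuit -/
noncomputable def nu {d : ℕ} (E : Finset (Elt d)) (i : Fin (d + 1)) : ℝ := kap E (i, none)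

/-- the constant of a circuit -/
noncomputable def et {d : ℕ} (η : Fin (d + 1) → (Fin d → ℤ) → ℝ) (E : Finset (Elt d)) : ℝ :=
  ∑ x ∈ E, kap E x * cs η x

/-- circuits: supports of relations, at most two elements of every colour -/
structure Cir {d : ℕ} (A : Fin (d + 1) → Finset (Fin d → ℤ)) (E : Finset (Elt d)) : Prop where
  ne : E.Nonempty
  sub : ∀ i p, (i, some p) ∈ E → p ∈ A i
  two : ∀ i, (E.filter fun x => x.1 = i).card ≤ 2
  rel : ∃ κ, IsRel E κ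

/-- all elements -/
def EA {d : ℕ} (A : Fin (d + 1) → Finset (Fin d → ℤ)) : Finset (Elt d) :=
  univ.biUnion fun i => insert (i, none) ((A i).image fun p => (i, some p))

open Classical in
/-- the finite set of all circuits -/
noncomputable def CF {d : ℕ} (A : Fin (d + 1) → Finset (Fin d → ℤ)) : Finset (Finset (Elt d)) :=
  (EA A).powerset.filter (Cir A)

/-- `E` is realized at `(w, y)` -/
def Rlz {d : ℕ} (A : Fin (d + 1) → Finset (Fin d → ℤ)) (η : Fin (d + 1) → (Fin d → ℤ) → ℝ)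
    (E : Finset (Elt d)) (w : Fin d → ℝ) (y : Fin (d + 1) → ℝ) : Prop :=
  ∀ i p, (i, some p) ∈ E → p ∈ Bs A η w i ∧ ((i, none) ∈ E → y i = val η i p w)

/-- the tropical set -/
def TW {d : ℕ} (A : Fin (d + 1) → Finset (Fin d → ℤ)) (η : Fin (d + 1) → (Fin d → ℤ) → ℝ)
    (w : Fin d → ℝ) (y : Fin (d + 1) → ℝ) : Prop :=
  ∀ i, (∃ a ∈ Bs A η w i, y i = val η i a w) ∨ 2 ≤ (Bs A η w i).card

/-- first genericity condition -/
def G1 {d : ℕ} (A : Fin (d + 1) → Finset (Fin d → ℤ)) (η : Fin (d + 1) → (Fin d → ℤ) → ℝ) : Prop :=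
  ∀ E, Cir A E → (∀ i, nu E i = 0) → et η E ≠ 0

/-- the coefficients of the affine functions in a circuit -/
noncomputable def gv {d : ℕ} (E : Finset (Elt d)) (x : Elt d) : ℝ := x.2.elim 0 fun _ => kap E x

/-- second genericity condition: a relation of the normal vectors which is not a relation of the
coefficient vectors implies one which is not a relation of the constants -/
def G2 {d : ℕ} (A : Fin (d + 1) → Finset (Fin d → ℤ)) (η : Fin (d + 1) → (Fin d → ℤ) → ℝ) : Prop :=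
  ∀ S ⊆ CF A, (∃ t : Finset (Elt d) → ℝ, (∀ i, ∑ E ∈ S, t E * nu E i = 0) ∧
      ∃ x, ∑ E ∈ S, t E * gv E x ≠ 0) →
    ∃ t : Finset (Elt d) → ℝ, (∀ i, ∑ E ∈ S, t E * nu E i = 0) ∧ ∑ E ∈ S, t E * et η E ≠ 0

/-- third genericity condition -/
def G3 {d : ℕ} (A : Fin (d + 1) → Finset (Fin d → ℤ)) (η : Fin (d + 1) → (Fin d → ℤ) → ℝ) : Prop :=
  ∀ w i, (Bs A η w i).card ≤ d + 1

/-- labels: `none` = the colour does not occur; `some none` = the variable `y i` is the smaller one;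
`some (some (p, b))` = the affine function `p` is the smaller one, `b` = the other one is `y i` -/
abbrev Lab (d : ℕ) := Option (Option ((Fin d → ℤ) × Bool))

/-- `f` is the label function of the circuit `E` with orientation `s` -/
def IsLab {d : ℕ} (E : Finset (Elt d)) (s : ℝ) (f : Fin (d + 1) → Lab d) : Prop :=
  ∀ i, (f i = none ↔ ∀ o, (i, o) ∉ E) ∧
    (f i = some none ↔ (i, none) ∈ E ∧ s * kap E (i, none) < 0) ∧
    ∀ p b, f i = some (some (p, b)) ↔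
      (i, some p) ∈ E ∧ s * kap E (i, some p) < 0 ∧ (b = true ↔ (i, none) ∈ E)

open Classical in
/-- the colours whose label is an affine function -/
noncomputable def ptc {d : ℕ} (f : Fin (d + 1) → Lab d) : Finset (Fin (d + 1)) :=
  univ.filter fun i => ∃ q, f i = some (some q)

/-- the sheets: circuits whose normal vector is not a multiple of `e_j` -/
def Sh {d : ℕ} (A : Fin (d + 1) → Finset (Fin d → ℤ)) (j : Fin (d + 1)) : Type :=
  {E : Finset (Elt d) // E ∈ CF A ∧ ∃ k : Fin d, nu E (j.succAbove k) ≠ 0}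

/-- the point of the chart `y j = q` -/
def full {d : ℕ} (j : Fin (d + 1)) (q : ℝ) (x : Fin d → ℝ) : Fin (d + 1) → ℝ := j.insertNth q x

/-- the arrangement of the circuits in the chart `y j = q` -/
noncomputable def arrG {d : ℕ} (A : Fin (d + 1) → Finset (Fin d → ℤ))
    (η : Fin (d + 1) → (Fin d → ℤ) → ℝ) (j : Fin (d + 1)) (q : ℝ) : Arr d (Sh A j) where
  ν E k := nu E.1 (j.succAbove k)
  c E := nu E.1 j * q + et η E.1
  Rz E := {x | ∃ w : Fin d → ℝ, Rlz A η E.1 w (full j q x)}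

/-- no circuit with normal vector a multiple of `e_j` passes through the chart -/
def Good {d : ℕ} (A : Fin (d + 1) → Finset (Fin d → ℤ)) (η : Fin (d + 1) → (Fin d → ℤ) → ℝ)
    (j : Fin (d + 1)) (q : ℝ) : Prop :=
  ∀ E ∈ CF A, (∀ k : Fin d, nu E (j.succAbove k) = 0) → nu E j * q + et η E ≠ 0

/-- the region of `α` in the chart -/
def Dg {d : ℕ} (S : Finset (Fin (d + 1) →₀ ℕ)) (ϕ : (Fin (d + 1) →₀ ℕ) → ℚ) (j : Fin (d + 1))
    (q : ℝ) (α : Fin (d + 1) →₀ ℕ) : Set (Fin d → ℝ) :=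
  {x | ∀ β ∈ S, β ≠ α → (ϕ α : ℝ) + ∑ i, (α i : ℝ) * full j q x i <
    (ϕ β : ℝ) + ∑ i, (β i : ℝ) * full j q x i}

/-- the hypothesis on the weights: ties of `ϕ` are in the tropical set -/
def HT {d : ℕ} (A : Fin (d + 1) → Finset (Fin d → ℤ)) (η : Fin (d + 1) → (Fin d → ℤ) → ℝ)
    (S : Finset (Fin (d + 1) →₀ ℕ)) (ϕ : (Fin (d + 1) →₀ ℕ) → ℚ) : Prop :=
  ∀ z : Fin (d + 1) → ℚ,
    (∃ α ∈ S, ∃ β ∈ S, α ≠ β ∧
      ϕ α + ∑ i, (α i : ℚ) * z i = ϕ β + ∑ i, (β i : ℚ) * z i ∧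
      ∀ γ ∈ S, ϕ α + ∑ i, (α i : ℚ) * z i ≤ ϕ γ + ∑ i, (γ i : ℚ) * z i) →
    ∃ w : Fin d → ℝ, TW A η w (fun i => ((z i : ℚ) : ℝ))

/-- lower bounds of the box of a sign pattern -/
def lo {d : ℕ} (ρ H : ℝ) (j : Fin (d + 1)) (σ : Fin (d + 1) → Bool) (k : Fin d) : ℝ :=
  if σ (j.succAbove k) then ρ else -H

/-- upper bounds of the box of a sign pattern -/
def hi {d : ℕ} (ρ H : ℝ) (j : Fin (d + 1)) (σ : Fin (d + 1) → Bool) (k : Fin d) : ℝ :=
  if σ (j.succAbove k) then H else -ρ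

/-- the value of the chart variable -/
def qq {d : ℕ} (R : ℕ) (j : Fin (d + 1)) (σ : Fin (d + 1) → Bool) : ℝ :=
  if σ j then (R : ℝ) else -(R : ℝ)

/-- lists of labels in `V` with a far common witness -/
def Lst {d : ℕ} (A : Fin (d + 1) → Finset (Fin d → ℤ)) (η : Fin (d + 1) → (Fin d → ℤ) → ℝ) (ρ : ℝ)
    (V : Finset (Fin (d + 1))) : Set (Fin (d + 1) → Fin d → ℤ) :=
  {p | (∀ i, i ∉ V → p i = 0) ∧ ∃ w : Fin d → ℝ, (∃ k, ρ ≤ |w k|) ∧ ∀ i ∈ V, p i ∈ Bs A η w i}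

/-- label functions with a far common witness -/
def LL {d : ℕ} (A : Fin (d + 1) → Finset (Fin d → ℤ)) (η : Fin (d + 1) → (Fin d → ℤ) → ℝ)
    (ρ : ℝ) : Set (Fin (d + 1) → Lab d) :=
  {f | ∃ w : Fin d → ℝ, (∃ k, ρ ≤ |w k|) ∧ ∀ i p b, f i = some (some (p, b)) → p ∈ Bs A η w i}

/-- exposed exponents -/
def Exd {d : ℕ} (S : Finset (Fin (d + 1) →₀ ℕ)) (α : Fin (d + 1) →₀ ℕ) : Prop :=
  ∃ u : Fin (d + 1) → ℚ, (∀ i, u i ≠ 0) ∧
    ∀ β ∈ S, β ≠ α → ∑ i, (α i : ℚ) * u i < ∑ i, (β i : ℚ) * u i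

/-- the sum of the products of at most `e` of the numbers `v i`, `i ∈ V` -/
def sp {N : ℕ} (v : Fin N → ℕ) (e : ℕ) (V : Finset (Fin N)) : ℕ :=
  ∑ J ∈ V.powerset with J.card ≤ e, ∏ i ∈ J, v i

/-! ### Basic lemmas -/

theorem kap_isRel {d : ℕ} {E : Finset (Elt d)} (h : ∃ κ, IsRel E κ) : IsRel E (kap E) := by
  classical
  unfold kap
  rw [dif_pos h]
  exact h.choose_spec

theorem Cir.kap {d : ℕ} {A : Fin (d + 1) → Finset (Fin d → ℤ)} {E : Finset (Elt d)}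
    (h : Cir A E) : IsRel E (Gp.kap E) := kap_isRel h.rel

theorem mem_EA {d : ℕ} {A : Fin (d + 1) → Finset (Fin d → ℤ)} {x : Elt d} :
    x ∈ EA A ↔ ∀ p, x.2 = some p → p ∈ A x.1 := by
  obtain ⟨i, o⟩ := x
  cases o with
  | none => simp [EA]
  | some p =>
    simp only [EA, mem_biUnion, mem_univ, true_and, mem_insert, mem_image, Prod.mk.injEq]
    constructor
    · rintro ⟨i', h | ⟨q, hq, h1, h2⟩⟩ p' hp'
      · simp at h
      · simp only [Option.some.injEq] at h2 hp'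
        subst h1 h2 hp'
        exact hq
    · intro h
      exact ⟨i, Or.inr ⟨p, h p rfl, rfl, rfl⟩⟩

theorem mem_CF {d : ℕ} {A : Fin (d + 1) → Finset (Fin d → ℤ)} {E : Finset (Elt d)} :
    E ∈ CF A ↔ Cir A E := by
  classical
  simp only [CF, mem_filter, mem_powerset, and_iff_right_iff_imp]
  intro h x hx
  rw [mem_EA]
  intro p hp
  obtain ⟨i, o⟩ := x
  simp only at hp
  subst hp
  exact h.sub i p hx

theorem full_succAbove {d : ℕ} (j : Fin (d + 1)) (q : ℝ) (x : Fin d → ℝ) (k : Fin d) :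
    full j q x (j.succAbove k) = x k := by
  simp [full]

theorem full_self {d : ℕ} (j : Fin (d + 1)) (q : ℝ) (x : Fin d → ℝ) : full j q x j = q := by
  simp [full]

theorem sum_full {d : ℕ} (j : Fin (d + 1)) (q : ℝ) (x : Fin d → ℝ) (g : Fin (d + 1) → ℝ) :
    ∑ i, g i * full j q x i = g j * q + ∑ k, g (j.succAbove k) * x k := by
  rw [Fin.sum_univ_succAbove _ j]
  simp [full_succAbove, full_self]

noncomputable instance {d : ℕ} (A : Fin (d + 1) → Finset (Fin d → ℤ)) (j : Fin (d + 1)) :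
    Fintype (Sh A j) := by
  classical
  exact Fintype.subtype ((CF A).filter fun E => ∃ k : Fin d, nu E (j.succAbove k) ≠ 0)
    (by intro E; simp)

end Pool.Agent.Lib.MP_4e7804_co.Gp
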