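import Pool.Agent.Lib.MP_4e7804_co.Gp.Spec

/-! MP_4e7804_co, Theorem G+, module Adm: the label functions of a certificate. -/

set_option autoImplicit false

open Finset

namespace Pool.Agent.Lib.MP_4e7804_co.Gp

theorem tAdm (hLab : StmtLabE) : StmtAdm := by
  classical
  intro d A η ρ ρ' hfar j q lo hi l x B cf hl hq hx hC
  have hCir : ∀ E : Sh A j, Cir A E.1 := fun E => mem_CF.1 E.2.1
  have hlab : ∀ E : {E : Sh A j // E ∈ B.toRight},
      ∃ f, IsLab E.1.1 (cf (Sum.inr E.1)) f := fun E =>
    hLab d A E.1.1 (cf (Sum.inr E.1)) (hCir E.1) (hC.sh E.1 (Finset.mem_toRight.1 E.2)).1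
  choose f hf using hlab
  let e : {E : Sh A j // E ∈ B.toRight} ≃ Fin B.toRight.card := B.toRight.equivFin
  refine ⟨B.toRight.card, B.toLeft, fun s => f (e.symm s), ?_, ?_, ?_, ?_, ?_, ?_⟩
  · rw [add_comm, Finset.card_toLeft_add_card_toRight, hC.card]
  · intro kb
    rw [Finset.mem_toLeft]
  · intro s
    set E := e.symm s with hE
    obtain ⟨-, hcl⟩ := hC.sh E.1 (Finset.mem_toRight.1 E.2)
    obtain ⟨z, ⟨w, hw⟩, hz⟩ := Metric.mem_closure_iff.1 hcl 1 one_pos
    have hzk : ∀ k, ρ' ≤ |z k| := by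
      intro k
      have h1 : |x k - z k| < 1 := by
        have h2 := dist_le_pi_dist x z k
        rw [Real.dist_eq] at h2
        exact lt_of_le_of_lt h2 hz
      have h3 := hx k
      have h4 : |x k| ≤ |x k - z k| + |z k| := by
        have := abs_add_le (x k - z k) (z k)
        rwa [sub_add_cancel] at this
      linarith
    have hne : ∃ i, nu E.1.1 i ≠ 0 := by
      obtain ⟨k, hk⟩ := E.1.2.2
      exact ⟨_, hk⟩
    have hk := hfar E.1.1 w (full j q z) (hCir E.1) hne hw (by
      intro i
      rcases Fin.eq_self_or_eq_succAbove j i with h | ⟨k, h⟩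
      · rw [h, full_self]
        exact hq
      · rw [h, full_succAbove]
        exact hzk k)
    refine ⟨w, hk, fun i p b hi => ?_⟩
    have h5 := (((hf E) i).2.2 p b).1 hi
    exact (hw i p h5.1).1
  · intro hr i hij
    obtain ⟨k, hk⟩ : ∃ k, i = j.succAbove k := by
      rcases Fin.eq_self_or_eq_succAbove j i with h | h
      · exact absurd h hij
      · exact h
    have hK : B.toLeft = ∅ := by
      rw [← Finset.card_eq_zero]
      have h1 := Finset.card_toLeft_add_card_toRight (u := B)
      have h2 := hC.card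
      omega
    have h3 : l k = ∑ t ∈ B, cf t * fam (arrG A η j q) t k := by
      have h4 := congrFun hC.sum k
      rw [h4, Finset.sum_apply]
      rfl
    obtain ⟨t, htB, ht⟩ : ∃ t ∈ B, cf t * fam (arrG A η j q) t k < 0 := by
      by_contra hcon
      push Not at hcon
      have h5 := Finset.sum_nonneg hcon
      rw [← h3] at h5
      exact absurd (hl k) (not_lt.2 h5)
    cases t with
    | inl kb =>
      have h6 : kb ∈ B.toLeft := Finset.mem_toLeft.2 htB
      rw [hK] at h6
      exact absurd h6 (Finset.notMem_empty _)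
    | inr E =>
      have hE : E ∈ B.toRight := Finset.mem_toRight.2 htB
      refine ⟨e ⟨E, hE⟩, ?_⟩
      show i ∉ ptc (f (e.symm (e ⟨E, hE⟩)))
      rw [Equiv.symm_apply_apply]
      have h7 : cf (Sum.inr E) * kap E.1 (i, none) < 0 := by
        rw [hk]
        exact ht
      have h8 : (i, none) ∈ E.1 := by
        rw [← (hCir E).kap.supp]
        intro h9
        rw [h9, mul_zero] at h7
        exact lt_irrefl _ h7
      have h9 : f ⟨E, hE⟩ i = some none := ((hf ⟨E, hE⟩) i).2.1.2 ⟨h8, h7⟩
      unfold ptc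
      rw [Finset.mem_filter]
      rintro ⟨-, p, hp⟩
      rw [h9] at hp
      simp at hp
  · intro E hE
    refine ⟨e ⟨E, Finset.mem_toRight.2 hE⟩, ?_⟩
    show IsLab E.1 (cf (Sum.inr E)) (f (e.symm (e ⟨E, Finset.mem_toRight.2 hE⟩)))
    rw [Equiv.symm_apply_apply]
    exact hf ⟨E, Finset.mem_toRight.2 hE⟩
  · intro s
    exact ⟨(e.symm s).1, Finset.mem_toRight.1 (e.symm s).2, hf (e.symm s)⟩

end Pool.Agent.Lib.MP_4e7804_co.Gp
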