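import Pool.Agent.Lib.MP_4e7804_co.Gp.Spec

/-! MP_4e7804_co, Theorem G+: the lowest point of a region. -/

set_option autoImplicit false

open Finset Topology

namespace Pool.Agent.Lib.MP_4e7804_co.Gp

theorem KKT_cont {m : ℕ} (l : Fin m → ℝ) : Continuous fun z : Fin m → ℝ => l ⬝ᵥ z := by
  simp only [dotProduct]
  fun_prop

/-- a nonempty open set is not contained in a finite union of hyperplanes -/
theorem KKT_generic {m : ℕ} {σ : Type} [Finite σ] (ν : σ → Fin m → ℝ) (hν : ∀ E, ν E ≠ 0)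
    (x : Fin m → ℝ) (U : Set (Fin m → ℝ)) (hU : IsOpen U) (hne : U.Nonempty) :
    ∃ y ∈ U, ∀ E, ν E ⬝ᵥ (y - x) ≠ 0 := by
  have hcont : ∀ E, Continuous fun y : Fin m → ℝ => ν E ⬝ᵥ (y - x) := by
    intro E
    simp only [dotProduct]
    fun_prop
  have hd : Dense (⋂ E, {y : Fin m → ℝ | ν E ⬝ᵥ (y - x) ≠ 0}) := by
    refine dense_iInter_of_isOpen (fun E => ?_) fun E => ?_
    · exact isOpen_ne_fun (hcont E) continuous_const
    · intro z
      by_cases hz : ν E ⬝ᵥ (z - x) = 0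
      · have hq : 0 < ν E ⬝ᵥ ν E := by
          have h0 : 0 ≤ ν E ⬝ᵥ ν E := by
            simp only [dotProduct]
            exact Finset.sum_nonneg fun k _ => mul_self_nonneg _
          refine lt_of_le_of_ne h0 fun h => hν E ?_
          exact dotProduct_self_eq_zero.1 h.symm
        have ht : Filter.Tendsto (fun ε : ℝ => z + ε • ν E) (𝓝[>] 0) (𝓝 z) := by
          have h1 : Filter.Tendsto (fun ε : ℝ => z + ε • ν E) (𝓝 0) (𝓝 (z + (0 : ℝ) • ν E)) := by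
            apply Continuous.tendsto
            fun_prop
          rw [zero_smul, add_zero] at h1
          exact h1.mono_left nhdsWithin_le_nhds
        refine mem_closure_of_tendsto ht ?_
        filter_upwards [self_mem_nhdsWithin] with ε hε
        show ν E ⬝ᵥ (z + ε • ν E - x) ≠ 0
        have e : z + ε • ν E - x = (z - x) + ε • ν E := by abel
        rw [e, dotProduct_add, hz, zero_add, dotProduct_smul, smul_eq_mul]
        exact (mul_pos hε hq).ne'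
      · exact subset_closure hz
  obtain ⟨y, hy, hyU⟩ := hd.exists_mem_open hU hne
  exact ⟨y, hyU, fun E => Set.mem_iInter.1 hy E⟩

/-- rational points are dense -/
theorem KKT_rat {m : ℕ} (U : Set (Fin m → ℝ)) (hU : IsOpen U) (hne : U.Nonempty) :
    ∃ y : Fin m → ℚ, (fun k => (y k : ℝ)) ∈ U := by
  have h : DenseRange (Pi.map fun _ : Fin m => ((↑) : ℚ → ℝ)) :=
    DenseRange.piMap fun _ => Rat.denseRange_cast
  obtain ⟨y, hy⟩ := h.exists_mem_open hU hne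
  exact ⟨y, hy⟩

/-- the first order condition at the lowest point -/
theorem KKT_claim {m : ℕ} {σ : Type} [Finite σ] (𝒜 : Arr m σ) (lo hi l : Fin m → ℝ)
    (hA : IsArr 𝒜) (D : Set (Fin m → ℝ)) (hD : IsOpen D) (hDc : Convex ℝ D) (hS : SegP 𝒜 D)
    (x : Fin m → ℝ) (hx : x ∈ closure D) (hlo : ∀ k, lo k ≤ x k) (hhi : ∀ k, x k ≤ hi k)
    (hmin : ∀ z ∈ closure D, (∀ k, lo k ≤ z k ∧ z k ≤ hi k) → l ⬝ᵥ x ≤ l ⬝ᵥ z)
    (y₀ : Fin m → ℝ) (hy₀ : y₀ ∈ D) (hy₀b : ∀ k, lo k < y₀ k ∧ y₀ k < hi k)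
    (s : σ → ℝ) (hs : ∀ E, x ∈ closure (𝒜.Rz E) → 0 < s E * (𝒜.ν E ⬝ᵥ (y₀ - x)))
    (u : Fin m → ℝ) (hu1 : ∀ k, x k = lo k → 0 ≤ u k) (hu2 : ∀ k, x k = hi k → u k ≤ 0)
    (hu3 : ∀ E, x ∈ closure (𝒜.Rz E) → 0 ≤ s E * (𝒜.ν E ⬝ᵥ u)) : 0 ≤ l ⬝ᵥ u := by
  by_contra hneg
  push Not at hneg
  -- a ball which avoids the sheets which are not near
  have hev : ∀ᶠ z in 𝓝 x, ∀ E, x ∉ closure (𝒜.Rz E) → z ∉ 𝒜.Rz E := by
    rw [Filter.eventually_all]
    intro E
    by_cases hE : x ∈ closure (𝒜.Rz E)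
    · exact Filter.Eventually.of_forall fun z h => absurd hE h
    · filter_upwards [isClosed_closure.isOpen_compl.mem_nhds hE] with z hz _ h
      exact hz (subset_closure h)
  obtain ⟨r, hr, hball⟩ := Metric.eventually_nhds_iff_ball.1 hev
  have hpl : ∀ E, ∀ z ∈ closure (𝒜.Rz E), 𝒜.ν E ⬝ᵥ z + 𝒜.c E = 0 := by
    intro E
    have h1 : IsClosed {z : Fin m → ℝ | 𝒜.ν E ⬝ᵥ z + 𝒜.c E = 0} := by
      refine isClosed_eq ?_ continuous_const
      simp only [dotProduct]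
      fun_prop
    exact closure_minimal (fun z hz => hA.eq E z hz) h1
  -- the open sets of the approximating points
  obtain ⟨O, hO⟩ : ∃ O : Set (Fin m → ℝ), O = {z | z ∈ Metric.ball x r ∧
      ∀ E, x ∈ closure (𝒜.Rz E) → 0 < s E * (𝒜.ν E ⬝ᵥ (z - x))} := ⟨_, rfl⟩
  have hOo : IsOpen O := by
    rw [hO]
    refine Metric.isOpen_ball.inter ?_
    have h1 : {z : Fin m → ℝ | ∀ E, x ∈ closure (𝒜.Rz E) → 0 < s E * (𝒜.ν E ⬝ᵥ (z - x))} =
        ⋂ E, {z | x ∈ closure (𝒜.Rz E) → 0 < s E * (𝒜.ν E ⬝ᵥ (z - x))} := by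
      ext z
      simp
    show IsOpen {z : Fin m → ℝ | ∀ E, x ∈ closure (𝒜.Rz E) → 0 < s E * (𝒜.ν E ⬝ᵥ (z - x))}
    rw [h1]
    refine isOpen_iInter_of_finite fun E => ?_
    by_cases hE : x ∈ closure (𝒜.Rz E)
    · simp only [hE, forall_const]
      refine isOpen_lt continuous_const ?_
      simp only [dotProduct]
      fun_prop
    · simp [hE]
  -- the path
  have hp1 : ∀ᶠ δ in 𝓝[>] (0 : ℝ), x + δ ^ 2 • (y₀ - x) ∈ Metric.ball x r := by
    have h1 : Filter.Tendsto (fun δ : ℝ => x + δ ^ 2 • (y₀ - x)) (𝓝 0)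
        (𝓝 (x + (0 : ℝ) ^ 2 • (y₀ - x))) := by
      apply Continuous.tendsto
      fun_prop
    have h2 : x + (0 : ℝ) ^ 2 • (y₀ - x) = x := by simp
    rw [h2] at h1
    exact (h1.mono_left nhdsWithin_le_nhds).eventually (Metric.ball_mem_nhds x hr)
  have hp2 : Filter.Tendsto (fun δ : ℝ => x + δ ^ 2 • (y₀ - x) + δ • u) (𝓝[>] 0) (𝓝 x) := by
    have h1 : Filter.Tendsto (fun δ : ℝ => x + δ ^ 2 • (y₀ - x) + δ • u) (𝓝 0)
        (𝓝 (x + (0 : ℝ) ^ 2 • (y₀ - x) + (0 : ℝ) • u)) := by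
      apply Continuous.tendsto
      fun_prop
    have h2 : x + (0 : ℝ) ^ 2 • (y₀ - x) + (0 : ℝ) • u = x := by simp
    rw [h2] at h1
    exact h1.mono_left nhdsWithin_le_nhds
  have hp3 : ∀ᶠ δ in 𝓝[>] (0 : ℝ), x + δ ^ 2 • (y₀ - x) + δ • u ∈ Metric.ball x r :=
    hp2.eventually (Metric.ball_mem_nhds x hr)
  have hp4 : ∀ᶠ δ in 𝓝[>] (0 : ℝ), ∀ k, lo k < (x + δ ^ 2 • (y₀ - x) + δ • u) k ∧
      (x + δ ^ 2 • (y₀ - x) + δ • u) k < hi k := by
    rw [Filter.eventually_all]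
    intro k
    have hk : Filter.Tendsto (fun δ : ℝ => (x + δ ^ 2 • (y₀ - x) + δ • u) k) (𝓝[>] 0)
        (𝓝 (x k)) := ((continuous_apply k).tendsto x).comp hp2
    have hlh : lo k < hi k := (hy₀b k).1.trans (hy₀b k).2
    refine Filter.Eventually.and ?_ ?_
    · rcases (hlo k).eq_or_lt with h | h
      · filter_upwards [self_mem_nhdsWithin] with δ hδ
        have hδ' : (0 : ℝ) < δ := hδ
        have h1 := mul_nonneg hδ'.le (hu1 k h.symm)
        have h2 := mul_pos (pow_pos hδ' 2) (sub_pos.2 (hy₀b k).1)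
        simp only [Pi.add_apply, Pi.smul_apply, Pi.sub_apply, smul_eq_mul, ← h]
        linarith
      · exact hk.eventually (lt_mem_nhds h)
    · rcases (hhi k).eq_or_lt with h | h
      · filter_upwards [self_mem_nhdsWithin] with δ hδ
        have hδ' : (0 : ℝ) < δ := hδ
        have h1 := mul_nonneg hδ'.le (neg_nonneg.2 (hu2 k h))
        have h2 := mul_pos (pow_pos hδ' 2) (sub_pos.2 (hy₀b k).2)
        simp only [Pi.add_apply, Pi.smul_apply, Pi.sub_apply, smul_eq_mul, h]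
        linarith
      · exact hk.eventually (gt_mem_nhds h)
  have hp5 : ∀ᶠ δ in 𝓝[>] (0 : ℝ), l ⬝ᵥ (x + δ ^ 2 • (y₀ - x) + δ • u) < l ⬝ᵥ x := by
    have h1 : Filter.Tendsto (fun δ : ℝ => δ * (l ⬝ᵥ (y₀ - x)) + l ⬝ᵥ u) (𝓝[>] 0)
        (𝓝 (0 * (l ⬝ᵥ (y₀ - x)) + l ⬝ᵥ u)) := by
      refine Filter.Tendsto.mono_left ?_ nhdsWithin_le_nhds
      apply Continuous.tendsto
      fun_prop
    rw [zero_mul, zero_add] at h1
    filter_upwards [h1.eventually (gt_mem_nhds hneg), self_mem_nhdsWithin] with δ h2 hδ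
    have hδ' : (0 : ℝ) < δ := hδ
    have h3 := mul_neg_of_pos_of_neg hδ' h2
    rw [dotProduct_add, dotProduct_add, dotProduct_smul, dotProduct_smul, smul_eq_mul,
      smul_eq_mul]
    nlinarith [h3]
  have hp6 : ∀ᶠ δ in 𝓝[>] (0 : ℝ), δ < 1 :=
    (Filter.tendsto_id.mono_left nhdsWithin_le_nhds : Filter.Tendsto id (𝓝[>] (0 : ℝ)) (𝓝 0)).eventually
      (gt_mem_nhds zero_lt_one)
  obtain ⟨δ, h1, h3, h4, h5, h6, hδ⟩ := (hp1.and (hp3.and (hp4.and (hp5.and (hp6.and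
    (self_mem_nhdsWithin : ∀ᶠ δ in 𝓝[>] (0 : ℝ), δ ∈ Set.Ioi (0 : ℝ))))))).exists
  have hδ0 : (0 : ℝ) < δ := hδ
  -- the first point
  have hpD : x + δ ^ 2 • (y₀ - x) ∈ D := by
    have h7 := hDc.add_smul_sub_mem_interior' hx (by rwa [hD.interior_eq])
      (t := δ ^ 2) ⟨pow_pos hδ0 2, by nlinarith⟩
    rwa [hD.interior_eq] at h7
  obtain ⟨y, hyD, hyO⟩ := KKT_rat (D ∩ O) (hD.inter hOo) ⟨x + δ ^ 2 • (y₀ - x), hpD, by
    rw [hO]
    refine ⟨h1, fun E hE => ?_⟩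
    rw [add_sub_cancel_left, dotProduct_smul, smul_eq_mul]
    have := mul_pos (pow_pos hδ0 2) (hs E hE)
    nlinarith⟩
  -- the second point
  have hQ1 : IsOpen {z : Fin m → ℝ | ∀ k, lo k < z k ∧ z k < hi k} := by
    have h8 : {z : Fin m → ℝ | ∀ k, lo k < z k ∧ z k < hi k} =
        ⋂ k, {z | lo k < z k ∧ z k < hi k} := by
      ext z
      simp
    rw [h8]
    refine isOpen_iInter_of_finite fun k => ?_
    exact (isOpen_lt continuous_const (continuous_apply k)).inter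
      (isOpen_lt (continuous_apply k) continuous_const)
  have hQ2 : IsOpen {z : Fin m → ℝ | l ⬝ᵥ z < l ⬝ᵥ x} := by
    exact isOpen_lt (KKT_cont l) continuous_const
  have hQo : IsOpen {z : Fin m → ℝ | (∀ k, lo k < z k ∧ z k < hi k) ∧ l ⬝ᵥ z < l ⬝ᵥ x} :=
    hQ1.inter hQ2
  obtain ⟨y', hy'Q, hy'O⟩ := KKT_rat
    ({z : Fin m → ℝ | (∀ k, lo k < z k ∧ z k < hi k) ∧ l ⬝ᵥ z < l ⬝ᵥ x} ∩ O) (hQo.inter hOo)
    ⟨x + δ ^ 2 • (y₀ - x) + δ • u, ⟨h4, h5⟩, by
      rw [hO]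
      refine ⟨h3, fun E hE => ?_⟩
      have e : x + δ ^ 2 • (y₀ - x) + δ • u - x = δ ^ 2 • (y₀ - x) + δ • u := by abel
      rw [e, dotProduct_add, dotProduct_smul, dotProduct_smul, smul_eq_mul, smul_eq_mul]
      have h9 := mul_pos (pow_pos hδ0 2) (hs E hE)
      have h10 := mul_nonneg hδ0.le (hu3 E hE)
      nlinarith⟩
  have hy'D : (fun k => (y' k : ℝ)) ∉ D := by
    intro h
    have := hmin _ (subset_closure h) fun k => ⟨(hy'Q.1 k).1.le, (hy'Q.1 k).2.le⟩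
    exact absurd hy'Q.2 (not_lt.2 this)
  obtain ⟨θ, hθ0, hθ1, E, hz⟩ := hS y y' hyD hy'D
  rw [hO] at hyO hy'O
  obtain ⟨z, hzz⟩ : ∃ z : Fin m → ℝ, z = fun k => (1 - θ) * (y k : ℝ) + θ * (y' k : ℝ) :=
    ⟨_, rfl⟩
  rw [← hzz] at hz
  have hzc : z = (1 - θ) • (fun k => (y k : ℝ)) + θ • (fun k => (y' k : ℝ)) := by
    rw [hzz]
    rfl
  have hzb : z ∈ Metric.ball x r := by
    rw [hzc]
    exact (convex_ball x r) hyO.1 hy'O.1 (by linarith) hθ0 (by ring)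
  have hnear : x ∈ closure (𝒜.Rz E) := by
    by_contra h
    exact hball z hzb E h hz
  have e1 := hpl E x hnear
  have e2 := hA.eq E z hz
  have e3 : 𝒜.ν E ⬝ᵥ (z - x) = 0 := by
    rw [dotProduct_sub]
    linarith
  have e4 : z - x = (1 - θ) • ((fun k => (y k : ℝ)) - x) + θ • ((fun k => (y' k : ℝ)) - x) := by
    rw [hzc]
    module
  have e5 : s E * (𝒜.ν E ⬝ᵥ (z - x)) = (1 - θ) * (s E * (𝒜.ν E ⬝ᵥ ((fun k => (y k : ℝ)) - x))) +
      θ * (s E * (𝒜.ν E ⬝ᵥ ((fun k => (y' k : ℝ)) - x))) := by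
    rw [e4, dotProduct_add, dotProduct_smul, dotProduct_smul, smul_eq_mul, smul_eq_mul]
    ring
  rw [e3, mul_zero] at e5
  have e6 := hyO.2 E hnear
  have e7 := hy'O.2 E hnear
  rcases hθ0.eq_or_lt with h | h
  · rw [← h] at e5
    linarith
  · have e8 := mul_nonneg (sub_nonneg.2 hθ1) e6.le
    have e9 := mul_pos h e7
    linarith

theorem tKKT (hFC : StmtFC) : StmtKKT := by
  classical
  intro m σ _ 𝒜 lo hi l hA hG D hD hDc hS hne
  -- the lowest point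
  obtain ⟨y₁, hy₁, hy₁b⟩ := hne
  have hcpt : IsCompact (closure D ∩ Set.Icc lo hi) := isCompact_Icc.inter_left isClosed_closure
  have hne' : (closure D ∩ Set.Icc lo hi).Nonempty :=
    ⟨y₁, subset_closure hy₁, fun k => (hy₁b k).1.le, fun k => (hy₁b k).2.le⟩
  have hcl : ContinuousOn (fun z : Fin m → ℝ => l ⬝ᵥ z) (closure D ∩ Set.Icc lo hi) := by
    apply Continuous.continuousOn
    simp only [dotProduct]
    fun_prop
  obtain ⟨x, hx, hmin⟩ := hcpt.exists_isMinOn hne' hcl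
  have hxlo : ∀ k, lo k ≤ x k := hx.2.1
  have hxhi : ∀ k, x k ≤ hi k := hx.2.2
  -- a generic interior point
  have hUo : IsOpen (D ∩ {z : Fin m → ℝ | ∀ k, lo k < z k ∧ z k < hi k}) := by
    refine hD.inter ?_
    have h8 : {z : Fin m → ℝ | ∀ k, lo k < z k ∧ z k < hi k} =
        ⋂ k, {z | lo k < z k ∧ z k < hi k} := by
      ext z
      simp
    rw [h8]
    refine isOpen_iInter_of_finite fun k => ?_
    exact (isOpen_lt continuous_const (continuous_apply k)).inter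
      (isOpen_lt (continuous_apply k) continuous_const)
  obtain ⟨y₀, hy₀, hgen⟩ := KKT_generic 𝒜.ν hA.ne x _ hUo ⟨y₁, hy₁, hy₁b⟩
  obtain ⟨s, hs⟩ : ∃ s : σ → ℝ, ∀ E, s E = if 0 < 𝒜.ν E ⬝ᵥ (y₀ - x) then 1 else -1 :=
    ⟨_, fun _ => rfl⟩
  have hs0 : ∀ E, s E ≠ 0 := by
    intro E
    rw [hs]
    split_ifs <;> norm_num
  have hsp : ∀ E, 0 < s E * (𝒜.ν E ⬝ᵥ (y₀ - x)) := by
    intro E
    rw [hs]
    split_ifs with h
    · linarith
    · have := lt_of_le_of_ne (not_lt.1 h) (hgen E)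
      linarith
  have hclaim := KKT_claim 𝒜 lo hi l hA D hD hDc hS x hx.1 hxlo hxhi
    (fun z hz hb => hmin ⟨hz, fun k => (hb k).1, fun k => (hb k).2⟩) y₀ hy₀.1 hy₀.2 s
    (fun E _ => hsp E)
  -- active constraints
  obtain ⟨act, hact⟩ : ∃ act : (Fin m × Bool) ⊕ σ → Prop, ∀ t, act t ↔
      (match t with
        | .inl kb => if kb.2 then x kb.1 = hi kb.1 else x kb.1 = lo kb.1
        | .inr E => x ∈ closure (𝒜.Rz E)) := ⟨_, fun _ => Iff.rfl⟩
  obtain ⟨sg, hsg⟩ : ∃ sg : (Fin m × Bool) ⊕ σ → ℝ, ∀ t, sg t =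
      (match t with
        | .inl _ => 1
        | .inr E => s E) := ⟨_, fun _ => rfl⟩
  have hsg0 : ∀ t, sg t ≠ 0 := by
    intro t
    rw [hsg]
    cases t with
    | inl kb => exact one_ne_zero
    | inr E => exact hs0 E
  obtain ⟨B, c, hLI, hpos, hsum⟩ := hFC m {t // act t} (Fintype.ofFinite _)
    (fun t => sg t.1 • fam 𝒜 t.1) l (by
      intro u hu
      refine hclaim u (fun k hk => ?_) (fun k hk => ?_) (fun E hE => ?_)
      · have h := hu ⟨.inl (k, false), (hact _).2 (by simpa using hk)⟩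
        rw [hsg] at h
        simpa [fam] using h
      · have h := hu ⟨.inl (k, true), (hact _).2 (by simpa using hk)⟩
        rw [hsg] at h
        simpa [fam] using h
      · have h := hu ⟨.inr E, (hact _).2 hE⟩
        rw [hsg, smul_dotProduct] at h
        exact h)
  have hmem : ∀ t, t ∈ B.map (Function.Embedding.subtype act) ↔ ∃ h : act t, (⟨t, h⟩ : {t // act t}) ∈ B := by
    intro t
    simp
  obtain ⟨cf, hcf⟩ : ∃ cf : (Fin m × Bool) ⊕ σ → ℝ, ∀ t, cf t =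
      if h : act t then c ⟨t, h⟩ * sg t else 0 := ⟨_, fun _ => rfl⟩
  have hcf' : ∀ t (h : act t), cf t = c ⟨t, h⟩ * sg t := by
    intro t h
    rw [hcf, dif_pos h]
  have hsum' : l = ∑ t ∈ B.map (Function.Embedding.subtype act), cf t • fam 𝒜 t := by
    rw [Finset.sum_map, hsum]
    refine Finset.sum_congr rfl fun t _ => ?_
    show c t • sg t.1 • fam 𝒜 t.1 = cf t.1 • fam 𝒜 t.1
    rw [hcf' t.1 t.2, smul_smul]
  have hLI' : LinearIndependent ℝ (fun t : B.map (Function.Embedding.subtype act) => fam 𝒜 t) := by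
    obtain ⟨e, he⟩ : ∃ e : B.map (Function.Embedding.subtype act) → B, ∀ t, (e t).1.1 = t.1 :=
      ⟨fun t => ⟨⟨t.1, ((hmem t.1).1 t.2).choose⟩, ((hmem t.1).1 t.2).choose_spec⟩, fun _ => rfl⟩
    have hinj : Function.Injective e := by
      intro t t' h
      apply Subtype.ext
      rw [← he t, ← he t', h]
    have h1 := hLI.comp e hinj
    have h2 := h1.units_smul fun t => Units.mk0 (sg t.1)⁻¹ (inv_ne_zero (hsg0 t.1))
    convert h2 using 1
    funext t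
    show fam 𝒜 t.1 = (sg t.1)⁻¹ • sg (e t).1.1 • fam 𝒜 (e t).1.1
    rw [he, smul_smul, inv_mul_cancel₀ (hsg0 t.1), one_smul]
  have hspan : Submodule.span ℝ (fam 𝒜 '' ((B.map (Function.Embedding.subtype act) :
      Finset ((Fin m × Bool) ⊕ σ)) : Set ((Fin m × Bool) ⊕ σ))) = ⊤ := by
    apply hG
    rw [hsum']
    exact Submodule.sum_mem _ fun t ht => Submodule.smul_mem _ _
      (Submodule.subset_span ⟨t, ht, rfl⟩)
  refine ⟨x, B.map (Function.Embedding.subtype act), cf, hx.1, fun k => ⟨hxlo k, hxhi k⟩, ?_⟩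
  refine ⟨?_, hLI', hsum', ?_, ?_, ?_⟩
  · have hb : ⊤ ≤ Submodule.span ℝ (Set.range
        (fun t : B.map (Function.Embedding.subtype act) => fam 𝒜 t)) := by
      rw [← hspan]
      refine Submodule.span_mono ?_
      rintro _ ⟨t, ht, rfl⟩
      exact ⟨⟨t, ht⟩, rfl⟩
    have h1 := Module.finrank_eq_card_basis (Module.Basis.mk hLI' hb)
    rw [Module.finrank_fin_fun, Fintype.card_coe] at h1
    exact h1.symm
  · intro t ht
    obtain ⟨h, -⟩ := (hmem t).1 ht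
    have h1 := (hact t).1 h
    cases t with
    | inl kb =>
      obtain ⟨k, b⟩ := kb
      cases b
      · simpa [fam, off] using h1
      · simpa [fam, off] using h1
    | inr E =>
      have h2 : IsClosed {z : Fin m → ℝ | 𝒜.ν E ⬝ᵥ z + 𝒜.c E = 0} := by
        refine isClosed_eq ?_ continuous_const
        simp only [dotProduct]
        fun_prop
      have h3 : 𝒜.ν E ⬝ᵥ x + 𝒜.c E = 0 :=
        closure_minimal (fun z hz => hA.eq E z hz) h2 h1
      show 𝒜.ν E ⬝ᵥ x = - 𝒜.c E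
      linarith
  · intro kb hkb
    obtain ⟨h, hB⟩ := (hmem _).1 hkb
    rw [hcf' _ h, hsg, mul_one]
    exact hpos _ hB
  · intro E hE
    obtain ⟨h, hB⟩ := (hmem _).1 hE
    refine ⟨?_, (hact _).1 h⟩
    rw [hcf' _ h]
    exact mul_ne_zero (hpos _ hB).ne' (hsg0 _)

end Pool.Agent.Lib.MP_4e7804_co.Gp
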