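import Pool.Agent.Lib.MP_4e7804_co.Gp.Spec

/-!
# MP_4e7804_co, Theorem G+: all regions are seen in the charts
-/

set_option autoImplicit false

open Finset Filter

namespace Pool.Agent.Lib.MP_4e7804_co.Gp

private theorem reg_tend {c : ℝ} (hc : 0 < c) (b : ℝ) : ∀ᶠ R : ℕ in atTop, b < (R : ℝ) * c :=
  (Tendsto.atTop_mul_const hc tendsto_natCast_atTop_atTop).eventually_gt_atTop b

private theorem reg_good {d : ℕ} {A : Fin (d + 1) → Finset (Fin d → ℤ)}
    {η : Fin (d + 1) → (Fin d → ℤ) → ℝ} (h1 : G1 A η) (j : Fin (d + 1)) :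
    ∀ᶠ R : ℕ in atTop, ∀ σ, Good A η j (qq R j σ) := by
  have h : ∀ E ∈ CF A, ∀ᶠ R : ℕ in atTop, ∀ σ : Fin (d + 1) → Bool,
      (∀ k : Fin d, nu E (j.succAbove k) = 0) → nu E j * qq R j σ + et η E ≠ 0 := by
    intro E hE
    by_cases hn : nu E j = 0
    · refine Eventually.of_forall fun R σ h0 => ?_
      rw [hn, zero_mul, zero_add]
      refine h1 E (mem_CF.1 hE) fun i => ?_
      rcases Fin.eq_self_or_eq_succAbove j i with rfl | ⟨k, rfl⟩
      · exact hn
      · exact h0 k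
    · filter_upwards [reg_tend (abs_pos.2 hn) |et η E|] with R hR σ _ hz
      have h2 : |nu E j * qq R j σ| = (R : ℝ) * |nu E j| := by
        unfold qq
        split_ifs
        · rw [abs_mul, Nat.abs_cast, mul_comm]
        · rw [abs_mul, abs_neg, Nat.abs_cast, mul_comm]
      have h3 : nu E j * qq R j σ = - et η E := by linarith
      rw [h3, abs_neg] at h2
      linarith
  have h' := (Finset.eventually_all (CF A)).2 h
  filter_upwards [h'] with R hR σ E hE h0
  exact hR E hE σ h0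

private theorem reg_one {d : ℕ} {S : Finset (Fin (d + 1) →₀ ℕ)} (ϕ : (Fin (d + 1) →₀ ℕ) → ℚ)
    (j : Fin (d + 1)) (ρ : ℝ) (α : Fin (d + 1) →₀ ℕ) (hα : Exd S α) :
    ∀ᶠ R : ℕ in atTop, ∃ (σ : Fin (d + 1) → Bool) (x : Fin d → ℝ),
      x ∈ Dg S ϕ j (qq R j σ) α ∧ ∀ k, (σ (j.succAbove k) = true → ρ < x k) ∧
        (σ (j.succAbove k) = false → x k < -ρ) := by
  obtain ⟨u, hu, hlt⟩ := hα
  obtain ⟨w, hw⟩ : ∃ w : ℝ, w = |(u j : ℝ)| := ⟨_, rfl⟩
  have hw0 : 0 < w := by
    rw [hw, abs_pos]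
    exact_mod_cast hu j
  obtain ⟨v, hv⟩ : ∃ v : Fin (d + 1) → ℝ, ∀ i, v i = (u i : ℝ) / w := ⟨_, fun _ => rfl⟩
  have hvne : ∀ i, v i ≠ 0 := by
    intro i
    rw [hv]
    exact div_ne_zero (by exact_mod_cast hu i) hw0.ne'
  have e1 : ∀ᶠ R : ℕ in atTop, ∀ i, ρ < (R : ℝ) * |v i| := by
    rw [eventually_all]
    exact fun i => reg_tend (abs_pos.2 (hvne i)) ρ
  have e2 : ∀ᶠ R : ℕ in atTop, ∀ β ∈ S, β ≠ α → (ϕ α : ℝ) - ϕ β <
      (R : ℝ) * (∑ i, (β i : ℝ) * v i - ∑ i, (α i : ℝ) * v i) := by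
    rw [Finset.eventually_all]
    intro β hβ
    by_cases hβα : β = α
    · exact Eventually.of_forall fun R h => absurd hβα h
    · have h3 := hlt β hβ hβα
      have h4 : ∑ i, (α i : ℝ) * (u i : ℝ) < ∑ i, (β i : ℝ) * (u i : ℝ) := by
        have h5 : ((∑ i, (α i : ℚ) * u i : ℚ) : ℝ) < ((∑ i, (β i : ℚ) * u i : ℚ) : ℝ) :=
          Rat.cast_lt.2 h3
        push_cast at h5
        exact h5
      have h6 : ∀ γ : Fin (d + 1) →₀ ℕ, ∑ i, (γ i : ℝ) * v i =
          (∑ i, (γ i : ℝ) * (u i : ℝ)) / w := by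
        intro γ
        rw [Finset.sum_div]
        refine Finset.sum_congr rfl fun i _ => ?_
        rw [hv]
        ring
      have h7 : 0 < ∑ i, (β i : ℝ) * v i - ∑ i, (α i : ℝ) * v i := by
        rw [h6, h6, ← sub_div]
        exact div_pos (by linarith) hw0
      filter_upwards [reg_tend h7 ((ϕ α : ℝ) - ϕ β)] with R hR _
      exact hR
  filter_upwards [e1, e2] with R h1 h2
  obtain ⟨σ, hσ⟩ : ∃ σ : Fin (d + 1) → Bool, ∀ i, σ i = decide (0 < u i) := ⟨_, fun _ => rfl⟩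
  obtain ⟨x, hx⟩ : ∃ x : Fin d → ℝ, ∀ k, x k = (R : ℝ) * v (j.succAbove k) := ⟨_, fun _ => rfl⟩
  have hfull : ∀ i, full j (qq R j σ) x i = (R : ℝ) * v i := by
    intro i
    rcases Fin.eq_self_or_eq_succAbove j i with rfl | ⟨k, rfl⟩
    · rw [full_self]
      unfold qq
      rw [hσ]
      by_cases h : 0 < u i
      · have h' : (0 : ℝ) < u i := by exact_mod_cast h
        have hvi : v i = 1 := by
          rw [hv, hw, abs_of_pos h', div_self h'.ne']
        rw [hvi]
        simp [h]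
      · have h' : (u i : ℝ) < 0 := by
          exact_mod_cast lt_of_le_of_ne (not_lt.1 h) (hu i)
        have hvi : v i = -1 := by
          rw [hv, hw, abs_of_neg h', div_neg, div_self h'.ne]
        rw [hvi]
        simp [h]
    · rw [full_succAbove, hx]
  refine ⟨σ, x, ?_, ?_⟩
  · intro β hβ hβα
    have h3 := h2 β hβ hβα
    have h4 : ∀ γ : Fin (d + 1) →₀ ℕ, ∑ i, (γ i : ℝ) * full j (qq R j σ) x i =
        (R : ℝ) * ∑ i, (γ i : ℝ) * v i := by
      intro γ
      rw [Finset.mul_sum]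
      refine Finset.sum_congr rfl fun i _ => ?_
      rw [hfull]
      ring
    rw [h4, h4]
    linarith
  · intro k
    have h3 := h1 (j.succAbove k)
    rw [hx, hσ]
    constructor
    · intro h
      have h4 : 0 < u (j.succAbove k) := by simpa using h
      have h5 : 0 < v (j.succAbove k) := by
        rw [hv]
        exact div_pos (by exact_mod_cast h4) hw0
      rwa [abs_of_pos h5] at h3
    · intro h
      have h4 : ¬ 0 < u (j.succAbove k) := by simpa using h
      have h5 : v (j.succAbove k) < 0 := by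
        rw [hv]
        refine div_neg_of_neg_of_pos ?_ hw0
        exact_mod_cast lt_of_le_of_ne (not_lt.1 h4) (hu _)
      rw [abs_of_neg h5] at h3
      linarith

theorem tReg : StmtReg := by
  intro d A η h1 S ϕ j ρ hρ
  have e1 : ∀ᶠ R : ℕ in atTop, ρ ≤ (R : ℝ) :=
    tendsto_natCast_atTop_atTop.eventually_ge_atTop ρ
  have e3 : ∀ᶠ R : ℕ in atTop, ∀ α ∈ S, Exd S α → ∃ (σ : Fin (d + 1) → Bool) (x : Fin d → ℝ),
      x ∈ Dg S ϕ j (qq R j σ) α ∧ ∀ k, (σ (j.succAbove k) = true → ρ < x k) ∧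
        (σ (j.succAbove k) = false → x k < -ρ) := by
    rw [Finset.eventually_all]
    intro α _
    by_cases hα : Exd S α
    · filter_upwards [reg_one ϕ j ρ α hα] with R hR _
      exact hR
    · exact Eventually.of_forall fun R h => absurd h hα
  obtain ⟨R, hR1, hR2, hR3⟩ := (e1.and ((reg_good h1 j).and e3)).exists
  have e4 : ∀ᶠ H : ℝ in atTop, ∀ α ∈ S, Exd S α →
      ∃ (σ : Fin (d + 1) → Bool) (x : Fin d → ℝ), x ∈ Dg S ϕ j (qq R j σ) α ∧
        ∀ k, lo ρ H j σ k < x k ∧ x k < hi ρ H j σ k := by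
    rw [Finset.eventually_all]
    intro α hα
    by_cases hE : Exd S α
    · obtain ⟨σ, x, hx, hk⟩ := hR3 α hα hE
      have e5 : ∀ᶠ H : ℝ in atTop, ∀ k, |x k| < H := by
        rw [eventually_all]
        exact fun k => eventually_gt_atTop |x k|
      filter_upwards [e5] with H hH _
      refine ⟨σ, x, hx, fun k => ?_⟩
      obtain ⟨hk1, hk2⟩ := hk k
      obtain ⟨hH1, hH2⟩ := abs_lt.1 (hH k)
      unfold lo hi
      by_cases hs : σ (j.succAbove k) = true
      · rw [if_pos hs, if_pos hs]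
        exact ⟨hk1 hs, hH2⟩
      · rw [if_neg hs, if_neg hs]
        exact ⟨hH1, hk2 (by simpa using hs)⟩
    · exact Eventually.of_forall fun R h => absurd h hE
  obtain ⟨H, hH⟩ := e4.exists
  exact ⟨R, H, hR1, hR2, hH⟩

end Pool.Agent.Lib.MP_4e7804_co.Gp
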